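import Mathlib

set_option autoImplicit false

namespace Pool.Agent.Lib_bac815

/-- Circumcentre of a bounded set in a complete space with the Bruhat–Tits inequality. -/
theorem circumcentre {Z : Type} [MetricSpace Z] [CompleteSpace Z]
    (hcn : ∀ x y : Z, ∃ m : Z, ∀ z : Z, dist z m ^ 2 ≤ dist z x ^ 2 / 2 + dist z y ^ 2 / 2 - dist x y ^ 2 / 4)
    (S : Set Z) (hS : S.Nonempty) (hb : Bornology.IsBounded S) :
    ∃ c : Z, ∀ φ : Z ≃ᵢ Z, (∀ s ∈ S, φ s ∈ S) → (∀ s ∈ S, φ.symm s ∈ S) → φ c = c := by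
  haveI : Nonempty S := hS.to_subtype
  set r : Z → ℝ := fun x => ⨆ s : S, dist (s : Z) x with hr
  have hbdd : ∀ x, BddAbove (Set.range fun s : S => dist (s : Z) x) := by
    intro x
    obtain ⟨C, hC⟩ := (Metric.isBounded_iff_subset_closedBall x).mp hb
    refine ⟨C, ?_⟩
    rintro _ ⟨s, rfl⟩
    exact Metric.mem_closedBall.mp (hC s.2)
  have hle : ∀ x (s : S), dist (s : Z) x ≤ r x := fun x s => le_ciSup (hbdd x) s
  have hr0 : ∀ x, 0 ≤ r x := fun x => dist_nonneg.trans (hle x (Classical.arbitrary S))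
  have hrcn : ∀ x y, ∃ m, r m ^ 2 ≤ r x ^ 2 / 2 + r y ^ 2 / 2 - dist x y ^ 2 / 4 := by
    intro x y
    obtain ⟨m, hm⟩ := hcn x y
    set K := r x ^ 2 / 2 + r y ^ 2 / 2 - dist x y ^ 2 / 4 with hK
    have h1 : ∀ s : S, dist (s : Z) m ^ 2 ≤ K := by
      intro s
      have e1 := pow_le_pow_left₀ dist_nonneg (hle x s) 2
      have e2 := pow_le_pow_left₀ dist_nonneg (hle y s) 2
      have e3 := hm s
      linarith
    have hK0 : 0 ≤ K := (sq_nonneg _).trans (h1 (Classical.arbitrary S))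
    refine ⟨m, ?_⟩
    have h2 : r m ≤ Real.sqrt K := ciSup_le fun s => Real.le_sqrt_of_sq_le (h1 s)
    calc r m ^ 2 ≤ Real.sqrt K ^ 2 := pow_le_pow_left₀ (hr0 m) h2 2
      _ = K := Real.sq_sqrt hK0
  have hZ : Nonempty Z := ⟨(Classical.arbitrary S : S)⟩
  set ρ : ℝ := ⨅ x, r x with hρ
  have hbelow : BddBelow (Set.range r) := ⟨0, by rintro _ ⟨x, rfl⟩; exact hr0 x⟩
  have hρle : ∀ x, ρ ≤ r x := fun x => ciInf_le hbelow x
  have hρ0 : 0 ≤ ρ := le_ciInf hr0
  have hdist : ∀ x y, dist x y ^ 2 ≤ 2 * r x ^ 2 + 2 * r y ^ 2 - 4 * ρ ^ 2 := by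
    intro x y
    obtain ⟨m, hm⟩ := hrcn x y
    have := pow_le_pow_left₀ hρ0 (hρle m) 2
    linarith
  have hex : ∀ n : ℕ, ∃ x, r x < ρ + 1 / ((n : ℝ) + 1) := by
    intro n
    apply exists_lt_of_ciInf_lt
    have : (0 : ℝ) < 1 / ((n : ℝ) + 1) := by positivity
    linarith
  choose x hx using hex
  have hrsq : ∀ n : ℕ, r (x n) ^ 2 ≤ ρ ^ 2 + (2 * ρ + 1) / ((n : ℝ) + 1) := by
    intro n
    have h1 := pow_le_pow_left₀ (hr0 (x n)) (hx n).le 2
    have h2 : (1 : ℝ) / ((n : ℝ) + 1) ≤ 1 := by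
      rw [div_le_one (by positivity)]
      have : (0 : ℝ) ≤ n := Nat.cast_nonneg n
      linarith
    have h3 : (0 : ℝ) < 1 / ((n : ℝ) + 1) := by positivity
    have h4 : (2 * ρ + 1) / ((n : ℝ) + 1) = 2 * ρ * (1 / ((n : ℝ) + 1)) + 1 / ((n : ℝ) + 1) := by ring
    rw [h4]
    nlinarith
  have hcau : CauchySeq x := by
    rw [Metric.cauchySeq_iff']
    intro ε hε
    obtain ⟨N, hN⟩ := exists_nat_gt (4 * (2 * ρ + 1) / ε ^ 2)
    refine ⟨N, fun n hn => ?_⟩
    have hNpos : (0 : ℝ) < (N : ℝ) + 1 := by positivity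
    have h1 := hdist (x n) (x N)
    have h2 := hrsq n
    have h3 := hrsq N
    have h4 : (2 * ρ + 1) / ((n : ℝ) + 1) ≤ (2 * ρ + 1) / ((N : ℝ) + 1) := by
      apply div_le_div_of_nonneg_left (by linarith) hNpos
      have : (N : ℝ) ≤ n := by exact_mod_cast hn
      linarith
    have h5 : 4 * ((2 * ρ + 1) / ((N : ℝ) + 1)) < ε ^ 2 := by
      rw [← mul_div_assoc, div_lt_iff₀ hNpos]
      rw [div_lt_iff₀ (by positivity)] at hN
      nlinarith [sq_pos_of_pos hε]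
    have h6 : dist (x n) (x N) ^ 2 < ε ^ 2 := by linarith
    exact lt_of_pow_lt_pow_left₀ 2 hε.le h6
  obtain ⟨c, hc⟩ := cauchySeq_tendsto_of_complete hcau
  have hlip : ∀ y z, r y ≤ r z + dist z y := by
    intro y z
    apply ciSup_le
    intro s
    have h1 := dist_triangle (s : Z) z y
    have h2 := hle z s
    linarith
  have hrc : r c = ρ := by
    apply le_antisymm _ (hρle c)
    apply le_of_forall_pos_le_add
    intro ε hε
    have h1 : ∀ᶠ n in Filter.atTop, dist (x n) c < ε / 2 := by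
      rw [Metric.tendsto_atTop] at hc
      obtain ⟨N, hN⟩ := hc (ε / 2) (by positivity)
      exact Filter.eventually_atTop.mpr ⟨N, hN⟩
    have h2 : ∀ᶠ n : ℕ in Filter.atTop, 1 / ((n : ℝ) + 1) < ε / 2 := by
      obtain ⟨N, hN⟩ := exists_nat_gt (2 / ε)
      refine Filter.eventually_atTop.mpr ⟨N, fun n hn => ?_⟩
      rw [div_lt_iff₀ (by positivity)]
      rw [div_lt_iff₀ hε] at hN
      have : (N : ℝ) ≤ n := by exact_mod_cast hn
      nlinarith
    obtain ⟨n, hn1, hn2⟩ := (h1.and h2).exists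
    have h3 := hlip c (x n)
    have h4 := hx n
    linarith
  refine ⟨c, ?_⟩
  intro φ h1 h2
  have h3 : r (φ c) ≤ r c := by
    apply ciSup_le
    intro s
    have h4 : dist (s : Z) (φ c) = dist (φ.symm s) c := by
      rw [← φ.dist_eq (φ.symm s) c, IsometryEquiv.apply_symm_apply]
    rw [h4]
    exact hle c ⟨φ.symm s, h2 s s.2⟩
  have h5 := hdist (φ c) c
  rw [hrc] at h5 h3
  have h6 := pow_le_pow_left₀ (hr0 (φ c)) h3 2
  have h7 : dist (φ c) c ^ 2 ≤ 0 := by linarith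
  have h8 : dist (φ c) c = 0 := by
    have := sq_nonneg (dist (φ c) c)
    exact pow_eq_zero_iff (two_ne_zero) |>.mp (le_antisymm h7 this)
  exact dist_eq_zero.mp h8

end Pool.Agent.Lib_bac815
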