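import Pool.Agent.Lib_bac815.SL3

set_option autoImplicit false

namespace Pool.Agent.Lib_bac815

open Matrix

/-- elementary matrices in `SL₃(ℝ)` -/
noncomputable def tv (i j : Fin 3) (h : i ≠ j) (s : ℝ) : G :=
  ⟨transvection i j s, det_transvection_of_ne i j h s⟩

theorem mat_tv (i j : Fin 3) (h : i ≠ j) (s : ℝ) : mat (tv i j h s) = transvection i j s := rfl

theorem continuous_tv (i j : Fin 3) (h : i ≠ j) : Continuous (tv i j h) := by
  unfold tv
  apply Continuous.subtype_mk
  unfold transvection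
  refine continuous_const.add ?_
  apply continuous_matrix
  intro a b
  simp only [single_apply]
  split_ifs
  · exact continuous_id
  · exact continuous_const

theorem tv_zero (i j : Fin 3) (h : i ≠ j) : tv i j h 0 = 1 := by
  apply mat_injective
  rw [mat_tv, mat_one]
  simp [transvection]

/-- `diag(t, 1/t)` in position `(i,j)` from elementary matrices -/
theorem diag_mem (H : Subgroup G) (hH : ∀ i j (h : i ≠ j) s, tv i j h s ∈ H) (g : G)
    (t : ℝ) (ht : t ≠ 0)
    (hg : mat g = !![t, 0, 0; 0, t⁻¹, 0; 0, 0, 1] ∨ mat g = !![1, 0, 0; 0, t, 0; 0, 0, t⁻¹]) : g ∈ H := by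
  have key : ∀ i j (h : i ≠ j), g = tv i j h t * tv j i h.symm (-t⁻¹) * tv i j h t * tv i j h (-1) *
      tv j i h.symm 1 * tv i j h (-1) → g ∈ H := by
    intro i j h e
    rw [e]
    exact H.mul_mem (H.mul_mem (H.mul_mem (H.mul_mem (H.mul_mem (hH _ _ _ _) (hH _ _ _ _))
      (hH _ _ _ _)) (hH _ _ _ _)) (hH _ _ _ _)) (hH _ _ _ _)
  rcases hg with hg | hg
  · apply key 0 1 (by decide)
    apply mat_injective
    rw [hg]
    simp only [mat_mul, mat_tv]
    ext a b
    fin_cases a <;> fin_cases b <;>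
      simp [transvection, Matrix.mul_apply, Fin.sum_univ_three, single_apply, Matrix.one_apply] <;>
      field_simp <;> ring
  · apply key 1 2 (by decide)
    apply mat_injective
    rw [hg]
    simp only [mat_mul, mat_tv]
    ext a b
    fin_cases a <;> fin_cases b <;>
      simp [transvection, Matrix.mul_apply, Fin.sum_univ_three, single_apply, Matrix.one_apply] <;>
      field_simp <;> ring

theorem generated (H : Subgroup G) (hH : ∀ i j (h : i ≠ j) s, tv i j h s ∈ H) (g : G) : g ∈ H := by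
  obtain ⟨L, L', D, hLD⟩ := Pivot.exists_list_transvec_mul_diagonal_mul_list_transvec (mat g)
  have hlist : ∀ L : List (TransvectionStruct (Fin 3) ℝ), ∃ k : G, k ∈ H ∧
      mat k = (L.map TransvectionStruct.toMatrix).prod := by
    intro L
    induction L with
    | nil => exact ⟨1, H.one_mem, by simp [mat_one]⟩
    | cons a L ih =>
      obtain ⟨k, hk, hk'⟩ := ih
      refine ⟨tv a.i a.j a.hij a.c * k, H.mul_mem (hH _ _ _ _) hk, ?_⟩
      rw [mat_mul, hk', List.map_cons, List.prod_cons, mat_tv]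
      rfl
  obtain ⟨k, hk, hk'⟩ := hlist L
  obtain ⟨l, hl, hl'⟩ := hlist L'
  rw [← hk', ← hl'] at hLD
  have hdet : D 0 * D 1 * D 2 = 1 := by
    have := congrArg Matrix.det hLD
    rw [mat_det, det_mul, det_mul, mat_det, mat_det, det_diagonal, Fin.prod_univ_three] at this
    linarith
  have h0 : D 0 ≠ 0 := by rintro h; rw [h] at hdet; simp at hdet
  have h1 : D 1 ≠ 0 := by rintro h; rw [h] at hdet; simp at hdet
  have h2 : D 2 ≠ 0 := by rintro h; rw [h] at hdet; simp at hdet
  let δ : G := ⟨diagonal D, by rw [det_diagonal, Fin.prod_univ_three]; exact hdet⟩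
  have hg : g = k * δ * l := by
    apply mat_injective
    rw [mat_mul, mat_mul]
    exact hLD
  have d1 : (!![D 0, 0, 0; 0, (D 0)⁻¹, 0; 0, 0, 1] : M3).det = 1 := by
    rw [det_fin_three]; simp; field_simp
  have d2 : (!![1, 0, 0; 0, D 0 * D 1, 0; 0, 0, (D 0 * D 1)⁻¹] : M3).det = 1 := by
    rw [det_fin_three]; simp; field_simp
  let δ₁ : G := ⟨_, d1⟩
  let δ₂ : G := ⟨_, d2⟩
  have m1 : δ₁ ∈ H := diag_mem H hH δ₁ (D 0) h0 (Or.inl rfl)
  have m2 : δ₂ ∈ H := diag_mem H hH δ₂ (D 0 * D 1) (mul_ne_zero h0 h1) (Or.inr rfl)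
  have hδ : δ = δ₁ * δ₂ := by
    apply mat_injective
    rw [mat_mul]
    show diagonal D = !![D 0, 0, 0; 0, (D 0)⁻¹, 0; 0, 0, 1] *
      !![1, 0, 0; 0, D 0 * D 1, 0; 0, 0, (D 0 * D 1)⁻¹]
    ext a b
    fin_cases a <;> fin_cases b <;> simp [diagonal, Matrix.mul_apply, Fin.sum_univ_three]
    · field_simp
    · field_simp
      linarith
  rw [hg, hδ]
  exact H.mul_mem (H.mul_mem hk (H.mul_mem m1 m2)) hl

theorem mat_pow (g : G) (k : ℕ) : mat (g ^ k) = mat g ^ k := by
  induction k with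
  | zero => simp [mat_one]
  | succ k ih => rw [pow_succ, mat_mul, ih, pow_succ]

theorem tv_comm (γ : G) (u : Fin 3 → ℝ) (hγ : mat γ = diagonal u) (i j : Fin 3) (h : i ≠ j)
    (s s' : ℝ) (k : ℕ) (hs : s * u j ^ k = u i ^ k * s') :
    tv i j h s * γ ^ k = γ ^ k * tv i j h s' := by
  apply mat_injective
  rw [mat_mul, mat_mul, mat_pow, hγ, diagonal_pow, mat_tv, mat_tv]
  unfold transvection
  rw [Matrix.add_mul, Matrix.mul_add, Matrix.one_mul, Matrix.mul_one]
  congr 1
  ext a b
  rw [mul_diagonal, diagonal_mul, single_apply, single_apply]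
  split_ifs with hab
  · obtain ⟨rfl, rfl⟩ := hab
    simpa using hs
  · simp

/-- The Mautner phenomenon for isometric actions. -/
theorem mautner {Z : Type} [MetricSpace Z] (ρ : G →* (Z ≃ᵢ Z)) (z : Z)
    (hρ : Continuous fun g => ρ g z) (γ : G) (u : Fin 3 → ℝ) (hγ : mat γ = diagonal u)
    (hu : ∀ i j, i ≠ j → |u i| ≠ |u j|)
    (hz : ∀ ε : ℝ, 0 < ε → ∀ J : ℕ, ∃ k, J ≤ k ∧ dist (ρ (γ ^ k) z) z < ε) (g : G) :
    ρ g z = z := by
  have hu0 : ∀ i, u i ≠ 0 := by
    intro i h0
    have := mat_det γ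
    rw [hγ, det_diagonal, Finset.prod_eq_zero (Finset.mem_univ i) h0] at this
    exact zero_ne_one this
  let H : Subgroup G :=
    { carrier := {g | ρ g z = z}
      mul_mem' := by
        intro a b ha hb
        simp only [Set.mem_ofPred_eq] at ha hb ⊢
        rw [map_mul, IsometryEquiv.mul_apply, hb, ha]
      one_mem' := by
        simp only [Set.mem_ofPred_eq]
        rw [map_one]; rfl
      inv_mem' := by
        intro a ha
        simp only [Set.mem_ofPred_eq] at ha ⊢
        have h1 : ρ a⁻¹ (ρ a z) = z := by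
          rw [← IsometryEquiv.mul_apply, ← map_mul, inv_mul_cancel, map_one]; rfl
        rwa [ha] at h1 }
  have key : ∀ i j (h : i ≠ j) s, tv i j h s ∈ H := by
    intro i j h s
    show ρ (tv i j h s) z = z
    have hc : ContinuousAt (fun s : ℝ => ρ (tv i j h s) z) 0 :=
      (hρ.comp (continuous_tv i j h)).continuousAt
    have hc0 : ρ (tv i j h 0) z = z := by rw [tv_zero, map_one]; rfl
    rw [← dist_eq_zero]
    apply le_antisymm _ dist_nonneg
    apply le_of_forall_pos_le_add
    intro ε hε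
    rw [Metric.continuousAt_iff] at hc
    obtain ⟨δ, hδ, hδ'⟩ := hc (ε / 3) (by positivity)
    rw [hc0] at hδ'
    rcases lt_or_gt_of_ne (hu i j h) with hlt | hlt
    · -- `|u i| < |u j|`
      have hq : |u i / u j| < 1 := by
        rw [abs_div, div_lt_one (abs_pos.mpr (hu0 j))]; exact hlt
      have ht := (tendsto_pow_atTop_nhds_zero_of_abs_lt_one hq).const_mul s
      rw [mul_zero] at ht
      obtain ⟨J, hJ⟩ := (Metric.tendsto_atTop.mp ht) δ hδ
      obtain ⟨k, hk, hk'⟩ := hz (ε / 3) (by positivity) J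
      have h1 := hδ' (hJ k hk)
      set s' := s * (u i / u j) ^ k with hs'
      have hcomm : tv i j h s' * γ ^ k = γ ^ k * tv i j h s := by
        apply tv_comm γ u hγ
        rw [hs', div_pow]
        have := pow_ne_zero k (hu0 j)
        field_simp
      -- `ρ(T s) z` versus `z`
      have e1 : dist (ρ (tv i j h s) z) z = dist (ρ (γ ^ k * tv i j h s) z) (ρ (γ ^ k) z) := by
        rw [map_mul, IsometryEquiv.mul_apply, IsometryEquiv.dist_eq]
      rw [e1, ← hcomm, map_mul, IsometryEquiv.mul_apply]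
      have e2 : dist (ρ (tv i j h s') (ρ (γ ^ k) z)) (ρ (tv i j h s') z) = dist (ρ (γ ^ k) z) z :=
        IsometryEquiv.dist_eq _ _ _
      have e3 := dist_triangle4 (ρ (tv i j h s') (ρ (γ ^ k) z)) (ρ (tv i j h s') z) z (ρ (γ ^ k) z)
      rw [e2, dist_comm z (ρ (γ ^ k) z)] at e3
      linarith
    · have hq : |u j / u i| < 1 := by
        rw [abs_div, div_lt_one (abs_pos.mpr (hu0 i))]; exact hlt
      have ht := (tendsto_pow_atTop_nhds_zero_of_abs_lt_one hq).const_mul s
      rw [mul_zero] at ht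
      obtain ⟨J, hJ⟩ := (Metric.tendsto_atTop.mp ht) δ hδ
      obtain ⟨k, hk, hk'⟩ := hz (ε / 3) (by positivity) J
      have h1 := hδ' (hJ k hk)
      set s' := s * (u j / u i) ^ k with hs'
      have hcomm : tv i j h s * γ ^ k = γ ^ k * tv i j h s' := by
        apply tv_comm γ u hγ
        rw [hs', div_pow]
        have := pow_ne_zero k (hu0 i)
        field_simp
      have e1 : dist (ρ (tv i j h s) (ρ (γ ^ k) z)) (ρ (γ ^ k) z) = dist (ρ (tv i j h s') z) z := by
        rw [← IsometryEquiv.mul_apply, ← map_mul, hcomm, map_mul, IsometryEquiv.mul_apply,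
          IsometryEquiv.dist_eq]
      have e2 : dist (ρ (tv i j h s) z) (ρ (tv i j h s) (ρ (γ ^ k) z)) = dist (ρ (γ ^ k) z) z := by
        rw [IsometryEquiv.dist_eq, dist_comm]
      have e3 := dist_triangle4 (ρ (tv i j h s) z) (ρ (tv i j h s) (ρ (γ ^ k) z)) (ρ (γ ^ k) z) z
      rw [e2, e1] at e3
      linarith
  exact generated H key g

end Pool.Agent.Lib_bac815
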