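import Pool.Agent.Lib_bac815.Cone

set_option autoImplicit false

namespace Pool.Agent.Lib_bac815

/-- Sequential completeness of a pseudometric. -/
def Cpl {Y : Type} (d : Y → Y → ℝ) : Prop :=
  ∀ u : ℕ → Y, (∀ ε : ℝ, 0 < ε → ∃ N, ∀ k, N ≤ k → ∀ l, N ≤ l → d (u k) (u l) < ε) →
    ∃ x, ∀ ε : ℝ, 0 < ε → ∃ N, ∀ k, N ≤ k → d (u k) x < ε

theorem minkowski (f g h : ℕ → ℝ) (hf : ∀ n, 0 ≤ f n) (hg : ∀ n, 0 ≤ g n) (hh : ∀ n, 0 ≤ h n)
    (hle : ∀ n, h n ≤ f n + g n) (sf : Summable fun n => f n ^ 2) (sg : Summable fun n => g n ^ 2) :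
    Real.sqrt (∑' n, h n ^ 2) ≤ Real.sqrt (∑' n, f n ^ 2) + Real.sqrt (∑' n, g n ^ 2) := by
  have e : ∀ (f : ℕ → ℝ), (fun n => f n ^ (2 : ℝ)) = fun n => f n ^ 2 := by
    intro f; funext n; exact Real.rpow_two _
  have h1 := Real.Lp_add_le_tsum_of_nonneg (p := 2) (by norm_num) hf hg (by rw [e]; exact sf)
    (by rw [e]; exact sg)
  obtain ⟨h2, h3⟩ := h1
  rw [e (fun n => f n + g n)] at h2
  rw [e (fun n => f n + g n), e f, e g, ← Real.sqrt_eq_rpow, ← Real.sqrt_eq_rpow,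
    ← Real.sqrt_eq_rpow] at h3
  refine le_trans ?_ h3
  apply Real.sqrt_le_sqrt
  apply Summable.tsum_le_tsum _ _ h2
  · intro n
    exact pow_le_pow_left₀ (hh n) (hle n) 2
  · exact Summable.of_nonneg_of_le (fun n => sq_nonneg _)
      (fun n => pow_le_pow_left₀ (hh n) (hle n) 2) h2

section

variable {C : Type} (D : ℕ → C → C → ℝ) (b : ℕ → C)

/-- The points of the `ℓ²`-product. -/
abbrev PX : Type := {z : ℕ → C // Summable fun n => D n (z n) (b n) ^ 2}

/-- The pseudometric of the `ℓ²`-product. -/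
noncomputable def pd (z w : PX D b) : ℝ := Real.sqrt (∑' n, D n (z.1 n) (w.1 n) ^ 2)

variable {D b} (hD : ∀ n, IsPM (D n))

include hD in
theorem pd_summable (z w : PX D b) : Summable fun n => D n (z.1 n) (w.1 n) ^ 2 := by
  apply Summable.of_nonneg_of_le (fun n => sq_nonneg _) _ ((z.2.mul_left 2).add (w.2.mul_left 2))
  intro n
  have h1 := (hD n).tri (z.1 n) (b n) (w.1 n)
  rw [(hD n).symm (b n)] at h1
  have h2 := (hD n).nonneg (z.1 n) (w.1 n)
  nlinarith [sq_nonneg (D n (z.1 n) (b n) - D n (w.1 n) (b n))]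

theorem pd_sq (z w : PX D b) : pd D b z w ^ 2 = ∑' n, D n (z.1 n) (w.1 n) ^ 2 :=
  Real.sq_sqrt (tsum_nonneg fun _ => sq_nonneg _)

include hD in
theorem pd_pm : IsPM (pd D b) where
  self z := by
    unfold pd
    simp only [(hD _).self]
    simp
  symm z w := by
    unfold pd
    simp only [(hD _).symm (z.1 _)]
  tri x y z := by
    unfold pd
    exact minkowski _ _ _ (fun n => (hD n).nonneg _ _) (fun n => (hD n).nonneg _ _)
      (fun n => (hD n).nonneg _ _) (fun n => (hD n).tri _ _ _) (pd_summable hD x y)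
      (pd_summable hD y z)

include hD in
theorem coord_le (z w : PX D b) (n : ℕ) : D n (z.1 n) (w.1 n) ≤ pd D b z w := by
  unfold pd
  apply Real.le_sqrt_of_sq_le
  exact (pd_summable hD z w).le_tsum n (fun m _ => sq_nonneg _)

include hD in
theorem pd_cn (hcn : ∀ n, CN (D n)) : CN (pd D b) := by
  intro x y
  choose m hm using fun n => hcn n (x.1 n) (y.1 n)
  have hms : Summable fun n => D n (m n) (b n) ^ 2 := by
    apply Summable.of_nonneg_of_le (fun n => sq_nonneg _) _ ((x.2.div_const 2).add (y.2.div_const 2))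
    intro n
    have := hm n (b n)
    rw [(hD n).symm (b n), (hD n).symm (b n), (hD n).symm (b n)] at this
    nlinarith [sq_nonneg (D n (x.1 n) (y.1 n))]
  refine ⟨⟨m, hms⟩, ?_⟩
  intro z
  rw [pd_sq, pd_sq, pd_sq, pd_sq]
  have s1 := pd_summable hD z ⟨m, hms⟩
  have s2 := pd_summable hD z x
  have s3 := pd_summable hD z y
  have s4 := pd_summable hD x y
  rw [← tsum_div_const, ← tsum_div_const, ← tsum_div_const,
    ← (s2.div_const 2).tsum_add (s3.div_const 2),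
    ← ((s2.div_const 2).add (s3.div_const 2)).tsum_sub (s4.div_const 4)]
  exact s1.tsum_le_tsum (fun n => hm n (z.1 n))
    (((s2.div_const 2).add (s3.div_const 2)).sub (s4.div_const 4))

include hD in
theorem pd_cpl (hcpl : ∀ n, Cpl (D n)) : Cpl (pd D b) := by
  intro u hu
  have hcoord : ∀ n, ∃ x, ∀ ε : ℝ, 0 < ε → ∃ N, ∀ k, N ≤ k → D n ((u k).1 n) x < ε := by
    intro n
    apply hcpl n
    intro ε hε
    obtain ⟨N, hN⟩ := hu ε hε
    exact ⟨N, fun k hk l hl => (coord_le hD _ _ n).trans_lt (hN k hk l hl)⟩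
  choose x hx using hcoord
  have hlim : ∀ k n, Filter.Tendsto (fun l => D n ((u k).1 n) ((u l).1 n)) Filter.atTop
      (nhds (D n ((u k).1 n) (x n))) := by
    intro k n
    rw [Metric.tendsto_atTop]
    intro ε hε
    obtain ⟨N, hN⟩ := hx n ε hε
    refine ⟨N, fun l hl => ?_⟩
    have h1 := hN l hl
    have h2 := (hD n).tri ((u k).1 n) ((u l).1 n) (x n)
    have h3 := (hD n).tri ((u k).1 n) (x n) ((u l).1 n)
    rw [(hD n).symm (x n)] at h3
    rw [Real.dist_eq, abs_lt]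
    constructor <;> linarith
  have key : ∀ ε : ℝ, 0 < ε → ∃ N, ∀ k, N ≤ k → ∀ M : ℕ,
      ∑ n ∈ Finset.range M, D n ((u k).1 n) (x n) ^ 2 ≤ ε ^ 2 := by
    intro ε hε
    obtain ⟨N, hN⟩ := hu ε hε
    refine ⟨N, fun k hk M => ?_⟩
    have h1 : Filter.Tendsto (fun l => ∑ n ∈ Finset.range M, D n ((u k).1 n) ((u l).1 n) ^ 2)
        Filter.atTop (nhds (∑ n ∈ Finset.range M, D n ((u k).1 n) (x n) ^ 2)) :=
      tendsto_finsetSum _ (fun n _ => (hlim k n).pow 2)
    apply le_of_tendsto h1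
    filter_upwards [Filter.eventually_ge_atTop N] with l hl
    have h2 := hN k hk l hl
    have h3 : pd D b (u k) (u l) ^ 2 ≤ ε ^ 2 :=
      pow_le_pow_left₀ ((pd_pm hD).nonneg _ _) h2.le 2
    rw [pd_sq] at h3
    refine le_trans ?_ h3
    exact (pd_summable hD (u k) (u l)).sum_le_tsum _ (fun n _ => sq_nonneg _)
  have hsum : ∀ ε : ℝ, 0 < ε → ∃ N, ∀ k, N ≤ k →
      Summable (fun n => D n ((u k).1 n) (x n) ^ 2) ∧ ∑' n, D n ((u k).1 n) (x n) ^ 2 ≤ ε ^ 2 := by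
    intro ε hε
    obtain ⟨N, hN⟩ := key ε hε
    refine ⟨N, fun k hk => ?_⟩
    have h1 : Summable (fun n => D n ((u k).1 n) (x n) ^ 2) :=
      summable_of_sum_range_le (fun n => sq_nonneg _) (hN k hk)
    exact ⟨h1, h1.tsum_le_of_sum_range_le (hN k hk)⟩
  obtain ⟨N₁, hN₁⟩ := hsum 1 one_pos
  have hxs : Summable fun n => D n (x n) (b n) ^ 2 := by
    obtain ⟨h1, -⟩ := hN₁ N₁ le_rfl
    apply Summable.of_nonneg_of_le (fun n => sq_nonneg _) _
      ((h1.mul_left 2).add ((u N₁).2.mul_left 2))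
    intro n
    have h1 := (hD n).tri (x n) ((u N₁).1 n) (b n)
    rw [(hD n).symm (x n) ((u N₁).1 n)] at h1
    have h2 := (hD n).nonneg (x n) (b n)
    nlinarith [sq_nonneg (D n ((u N₁).1 n) (x n) - D n ((u N₁).1 n) (b n))]
  refine ⟨⟨x, hxs⟩, ?_⟩
  intro ε hε
  obtain ⟨N, hN⟩ := hsum (ε / 2) (by positivity)
  refine ⟨N, fun k hk => ?_⟩
  obtain ⟨h1, h2⟩ := hN k hk
  unfold pd
  calc Real.sqrt (∑' n, D n ((u k).1 n) (x n) ^ 2) ≤ Real.sqrt ((ε / 2) ^ 2) := Real.sqrt_le_sqrt h2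
    _ = ε / 2 := Real.sqrt_sq (by positivity)
    _ < ε := by linarith

end

end Pool.Agent.Lib_bac815
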