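import Pool.Agent.Lib_bac815.Defs
import Pool.Agent.Lib_bac815.Fixed
import Pool.Agent.Lib_bac815.Mautner
import Pool.Agent.Lib_bac815.Prod

set_option autoImplicit false

namespace Pool.Agent.Lib_bac815

open Matrix

/-- No admissible subspace almost extends, in a metric space. -/
theorem not_almost {Γ : Subgroup G} {X : Type} [MetricSpace X] (hX : IsCompleteCAT0 X)
    (ρ : Γ →* (X ≃ᵢ X)) (γ : Γ) (u : Fin 3 → ℝ) (hγ : mat (γ : G) = diagonal u)
    (hu : ∀ i j, i ≠ j → |u i| ≠ |u j|)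
    (hconv : ∀ z : X, ∀ ε : ℝ, 0 < ε → ∀ J : ℕ, ∃ k, J ≤ k ∧ dist (ρ (γ ^ k) z) z < ε)
    (hfix : ∀ z : X, ρ γ z ≠ z) (Z : Set X) (hZ : Admissible ρ Z) : ¬ AlmostExtends ρ Z := by
  rintro ⟨ρ₁, ρ₂, hc, hb, hcomm, hprod⟩
  have hcomplete : CompleteSpace X := hX.complete
  have hZc : CompleteSpace Z := hZ.closed.isComplete.completeSpace_coe
  -- a point fixed by `ρ₂`
  have hcn : ∀ x y : Z, ∃ m : Z, ∀ z : Z,
      dist z m ^ 2 ≤ dist z x ^ 2 / 2 + dist z y ^ 2 / 2 - dist x y ^ 2 / 4 := by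
    intro x y
    obtain ⟨m, hm⟩ := hX.bruhatTits (x : X) (y : X)
    have h1 := hm x
    have h2 := hm y
    rw [dist_self] at h1 h2
    rw [dist_comm (y : X) (x : X)] at h2
    have h3 : dist (x : X) m ≤ dist (x : X) y / 2 := by
      apply (sq_le_sq₀ dist_nonneg (by positivity)).mp
      nlinarith
    have h4 : dist (y : X) m ≤ dist (x : X) y / 2 := by
      apply (sq_le_sq₀ dist_nonneg (by positivity)).mp
      nlinarith
    have h5 := dist_triangle (x : X) m y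
    rw [dist_comm m (y : X)] at h5
    have hmZ : m ∈ Z := by
      apply hZ.convex x x.2 y y.2 m
      rw [dist_comm m (y : X)]
      linarith
    exact ⟨⟨m, hmZ⟩, fun z => hm z⟩
  obtain ⟨z₀, hz₀⟩ := hZ.nonempty
  obtain ⟨c, hcfix⟩ := circumcentre hcn (Set.range fun γ : Γ => ρ₂ γ ⟨z₀, hz₀⟩)
    (Set.range_nonempty _) (hb ⟨z₀, hz₀⟩)
  have hc2 : ∀ δ : Γ, ρ₂ δ c = c := by
    intro δ
    apply hcfix
    · rintro _ ⟨η, rfl⟩
      refine ⟨δ * η, ?_⟩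
      simp only [map_mul, IsometryEquiv.mul_apply]
    · rintro _ ⟨η, rfl⟩
      refine ⟨δ⁻¹ * η, ?_⟩
      simp only [map_mul, IsometryEquiv.mul_apply, map_inv]
      rfl
  have hc1 : ∀ δ : Γ, ρ δ (c : X) = (ρ₁ (δ : G) c : Z) := by
    intro δ
    rw [hprod, IsometryEquiv.mul_apply, hc2]
  -- Mautner
  have hm := mautner ρ₁ c (hc c) (γ : G) u hγ hu (by
    intro ε hε J
    obtain ⟨k, hk, hk'⟩ := hconv (c : X) ε hε J
    refine ⟨k, hk, ?_⟩
    rw [hc1] at hk'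
    have e : ((γ ^ k : Γ) : G) = (γ : G) ^ k := rfl
    rw [e] at hk'
    exact hk') (γ : G)
  apply hfix (c : X)
  rw [hc1, hm]

/-- pseudometric space from a pseudometric -/
@[reducible] def pmsInst {X₀ : Type} (d : X₀ → X₀ → ℝ) (hd : IsPM d) : PseudoMetricSpace X₀ where
  dist := d
  dist_self := hd.self
  dist_comm := hd.symm
  dist_triangle := hd.tri

theorem abstract_aux {Γ : Subgroup G} {X₀ : Type} [PseudoMetricSpace X₀]
    (hcn : CN (dist : X₀ → X₀ → ℝ)) (hcpl : Cpl (dist : X₀ → X₀ → ℝ)) (x₀ : X₀)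
    (A : Γ → X₀ → X₀)
    (hA1 : ∀ z, A 1 z = z) (hAm : ∀ γ δ z, A (γ * δ) z = A γ (A δ z))
    (hAi : ∀ γ z w, dist (A γ z) (A γ w) = dist z w)
    (γ : Γ) (u : Fin 3 → ℝ) (hγ : mat (γ : G) = diagonal u)
    (hu : ∀ i j, i ≠ j → |u i| ≠ |u j|)
    (hconv : ∀ z : X₀, ∀ ε : ℝ, 0 < ε → ∀ J : ℕ, ∃ k, J ≤ k ∧ dist (A (γ ^ k) z) z < ε)
    (hfix : ∀ z : X₀, 0 < dist (A γ z) z) :
    ∃ (X : Type) (_ : MetricSpace X), IsCompleteCAT0 X ∧ ∃ ρ : Γ →* (X ≃ᵢ X),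
      ∀ Z : Set X, Admissible ρ Z → ¬ AlmostExtends ρ Z := by
  let X : Type := SeparationQuotient X₀
  let mk : X₀ → X := SeparationQuotient.mk
  have hmkd : ∀ z w : X₀, dist (mk z) (mk w) = dist z w := fun z w => rfl
  have hsurj : ∀ x : X, ∃ z : X₀, mk z = x := fun x => SeparationQuotient.surjective_mk x
  have hX : IsCompleteCAT0 X := by
    refine ⟨⟨mk x₀⟩, ?_, ?_⟩
    · apply Metric.complete_of_cauchySeq_tendsto
      intro s hs
      choose t ht using fun n => hsurj (s n)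
      obtain ⟨x, hx⟩ := hcpl t (by
        intro ε hε
        obtain ⟨n, hn⟩ := Metric.cauchySeq_iff.mp hs ε hε
        refine ⟨n, fun k hk l hl => ?_⟩
        have := hn k hk l hl
        rwa [← ht, ← ht] at this)
      refine ⟨mk x, ?_⟩
      rw [Metric.tendsto_atTop]
      intro ε hε
      obtain ⟨n, hn⟩ := hx ε hε
      refine ⟨n, fun k hk => ?_⟩
      rw [← ht]
      exact hn k hk
    · intro x y
      obtain ⟨x, rfl⟩ := hsurj x
      obtain ⟨y, rfl⟩ := hsurj y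
      obtain ⟨m, hm⟩ := hcn x y
      refine ⟨mk m, ?_⟩
      intro z
      obtain ⟨z, rfl⟩ := hsurj z
      exact hm z
  have heq : ∀ z w : X₀, mk z = mk w ↔ dist z w = 0 := by
    intro z w
    rw [← hmkd, dist_eq_zero]
  let f : Γ → X → X := fun γ => SeparationQuotient.lift (fun z => mk (A γ z)) (by
    intro z w h
    rw [heq, hAi]
    exact Metric.inseparable_iff.mp h)
  have hf : ∀ γ z, f γ (mk z) = mk (A γ z) := fun γ z => rfl
  have hf1 : ∀ x, f 1 x = x := by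
    intro x
    obtain ⟨z, rfl⟩ := hsurj x
    rw [hf, hA1]
  have hfm : ∀ γ δ x, f (γ * δ) x = f γ (f δ x) := by
    intro γ δ x
    obtain ⟨z, rfl⟩ := hsurj x
    rw [hf, hf, hf, hAm]
  have hfi : ∀ γ x y, dist (f γ x) (f γ y) = dist x y := by
    intro γ x y
    obtain ⟨z, rfl⟩ := hsurj x
    obtain ⟨w, rfl⟩ := hsurj y
    exact hAi γ z w
  let e : Γ → (X ≃ᵢ X) := fun γ =>
    { toFun := f γ
      invFun := f γ⁻¹
      left_inv := fun x => by rw [← hfm, inv_mul_cancel, hf1]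
      right_inv := fun x => by rw [← hfm, mul_inv_cancel, hf1]
      isometry_toFun := Isometry.of_dist_eq (hfi γ) }
  let ρ : Γ →* (X ≃ᵢ X) :=
    { toFun := e
      map_one' := by
        apply IsometryEquiv.ext
        intro x
        exact hf1 x
      map_mul' := by
        intro γ δ
        apply IsometryEquiv.ext
        intro x
        exact hfm γ δ x }
  have hρ : ∀ γ z, ρ γ (mk z) = mk (A γ z) := fun γ z => rfl
  refine ⟨X, inferInstance, hX, ρ, ?_⟩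
  intro Z hZ
  apply not_almost hX ρ γ u hγ hu _ _ Z hZ
  · intro x ε hε J
    obtain ⟨z, rfl⟩ := hsurj x
    obtain ⟨k, hk, hk'⟩ := hconv z ε hε J
    refine ⟨k, hk, ?_⟩
    rw [hρ, hmkd]
    exact hk'
  · intro x hx
    obtain ⟨z, rfl⟩ := hsurj x
    rw [hρ, heq] at hx
    exact (hfix z).ne' hx

theorem abstract_main {Γ : Subgroup G} {X₀ : Type} (d : X₀ → X₀ → ℝ) (hd : IsPM d) (hcn : CN d)
    (hcpl : Cpl d) (x₀ : X₀) (A : Γ → X₀ → X₀)
    (hA1 : ∀ z, A 1 z = z) (hAm : ∀ γ δ z, A (γ * δ) z = A γ (A δ z))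
    (hAi : ∀ γ z w, d (A γ z) (A γ w) = d z w)
    (γ : Γ) (u : Fin 3 → ℝ) (hγ : mat (γ : G) = diagonal u)
    (hu : ∀ i j, i ≠ j → |u i| ≠ |u j|)
    (hconv : ∀ z : X₀, ∀ ε : ℝ, 0 < ε → ∀ J : ℕ, ∃ k, J ≤ k ∧ d (A (γ ^ k) z) z < ε)
    (hfix : ∀ z : X₀, 0 < d (A γ z) z) :
    ∃ (X : Type) (_ : MetricSpace X), IsCompleteCAT0 X ∧ ∃ ρ : Γ →* (X ≃ᵢ X),
      ∀ Z : Set X, Admissible ρ Z → ¬ AlmostExtends ρ Z :=
  @abstract_aux Γ X₀ (pmsInst d hd) hcn hcpl x₀ A hA1 hAm hAi γ u hγ hu hconv hfix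

end Pool.Agent.Lib_bac815
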