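import Pool.Agent.Lib_bac815.SL3

set_option autoImplicit false

namespace Pool.Agent.Lib_bac815

open Matrix

/-! ### The cyclic cubic field -/

theorem exists_root : ∃ x : ℝ, 3 / 2 < x ∧ x < 8 / 5 ∧ x ^ 3 - 3 * x + 1 = 0 := by
  have hc : ContinuousOn (fun x : ℝ => x ^ 3 - 3 * x + 1) (Set.Icc (3 / 2) (8 / 5)) := by fun_prop
  have h := intermediate_value_Ioo (by norm_num : (3 / 2 : ℝ) ≤ 8 / 5) hc
  have h0 : (0 : ℝ) ∈ Set.Ioo ((3 / 2 : ℝ) ^ 3 - 3 * (3 / 2) + 1) ((8 / 5 : ℝ) ^ 3 - 3 * (8 / 5) + 1) := by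
    constructor <;> norm_num
  obtain ⟨x, hx, hx0⟩ := h h0
  exact ⟨x, hx.1, hx.2, hx0⟩

/-- a root of `x³ - 3x + 1` -/
noncomputable def th0 : ℝ := Classical.choose exists_root

theorem th0_gt : 3 / 2 < th0 := (Classical.choose_spec exists_root).1
theorem th0_lt : th0 < 8 / 5 := (Classical.choose_spec exists_root).2.1
theorem th0_root : th0 ^ 3 - 3 * th0 + 1 = 0 := (Classical.choose_spec exists_root).2.2

/-- The three roots. -/
noncomputable def th : Fin 3 → ℝ := ![th0, th0 ^ 2 - 2, 2 - th0 - th0 ^ 2]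

theorem th_zero : th 0 = th0 := rfl
theorem th_one : th 1 = th0 ^ 2 - 2 := rfl
theorem th_two : th 2 = 2 - th0 - th0 ^ 2 := rfl

theorem th_sq (i : Fin 3) : th (i + 1) = th i ^ 2 - 2 := by
  have h := th0_root
  fin_cases i
  · rfl
  · show th 2 = th 1 ^ 2 - 2
    rw [th_two, th_one]
    linear_combination (-th0) * h
  · show th 0 = th 2 ^ 2 - 2
    rw [th_zero, th_two]
    linear_combination (-th0 - 2) * h

theorem th_cub (i : Fin 3) : th i ^ 3 = 3 * th i - 1 := by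
  have h := th0_root
  fin_cases i
  · show th 0 ^ 3 = 3 * th 0 - 1
    rw [th_zero]; linear_combination h
  · show th 1 ^ 3 = 3 * th 1 - 1
    rw [th_one]
    linear_combination (th0 ^ 3 - 3 * th0 - 1) * h
  · show th 2 ^ 3 = 3 * th 2 - 1
    rw [th_two]
    linear_combination (-th0 ^ 3 - 3 * th0 ^ 2 + 3) * h

theorem th_sum : th 0 + th 1 + th 2 = 0 := by
  rw [th_zero, th_one, th_two]; ring

theorem th_sum_sq : th 0 ^ 2 + th 1 ^ 2 + th 2 ^ 2 = 6 := by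
  have h0 := th_sq 0
  have h1 := th_sq 1
  have h2 := th_sq 2
  have e0 : (0 : Fin 3) + 1 = 1 := rfl
  have e1 : (1 : Fin 3) + 1 = 2 := rfl
  have e2 : (2 : Fin 3) + 1 = 0 := rfl
  rw [e0] at h0
  rw [e1] at h1
  rw [e2] at h2
  have := th_sum
  linarith

/-- evaluation of `α₀ + α₁ x + α₂ x²` at the `i`-th root -/
noncomputable def v (i : Fin 3) (α : Fin 3 → ℝ) : ℝ := α 0 + α 1 * th i + α 2 * th i ^ 2

/-- evaluation of an integral polynomial at the `i`-th root -/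
noncomputable def ev (i : Fin 3) : Polynomial ℤ →+* ℝ := (Polynomial.aeval (th i)).toRingHom

theorem ev_X (i : Fin 3) : ev i Polynomial.X = th i := by
  simp [ev]

theorem ev_C (i : Fin 3) (a : ℤ) : ev i (Polynomial.C a) = a := by
  simp [ev]

/-- cast to reals -/
def cst (α : Fin 3 → ℤ) : Fin 3 → ℝ := fun i => (α i : ℝ)

theorem coords (p : Polynomial ℤ) : ∃ α : Fin 3 → ℤ, ∀ i, ev i p = v i (cst α) := by
  induction p using Polynomial.induction_on with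
  | C a =>
    refine ⟨![a, 0, 0], fun i => ?_⟩
    rw [ev_C]
    simp [v, cst]
  | add p q hp hq =>
    obtain ⟨α, hα⟩ := hp
    obtain ⟨β, hβ⟩ := hq
    refine ⟨fun j => α j + β j, fun i => ?_⟩
    rw [map_add, hα, hβ]
    simp only [v, cst]
    push_cast
    ring
  | monomial n a h =>
    obtain ⟨α, hα⟩ := h
    refine ⟨![-α 2, α 0 + 3 * α 2, α 1], fun i => ?_⟩
    rw [pow_succ, ← mul_assoc, map_mul, hα, ev_X]
    have h3 := th_cub i
    simp only [v, cst]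
    have e0 : (![-α 2, α 0 + 3 * α 2, α 1] : Fin 3 → ℤ) 0 = -α 2 := rfl
    have e1 : (![-α 2, α 0 + 3 * α 2, α 1] : Fin 3 → ℤ) 1 = α 0 + 3 * α 2 := rfl
    have e2 : (![-α 2, α 0 + 3 * α 2, α 1] : Fin 3 → ℤ) 2 = α 1 := rfl
    rw [e0, e1, e2]
    push_cast
    linear_combination (α 2 : ℝ) * h3

/-- polynomial with given coordinates -/
noncomputable def pl (α : Fin 3 → ℤ) : Polynomial ℤ :=
  Polynomial.C (α 0) + Polynomial.C (α 1) * Polynomial.X + Polynomial.C (α 2) * Polynomial.X ^ 2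

theorem ev_pl (i : Fin 3) (α : Fin 3 → ℤ) : ev i (pl α) = v i (cst α) := by
  unfold pl v cst
  simp only [map_add, map_mul, map_pow, ev_C, ev_X]

/-- the Galois action -/
noncomputable def sh (p : Polynomial ℤ) : Polynomial ℤ := p.comp (Polynomial.X ^ 2 - Polynomial.C 2)

theorem ev_sh (i : Fin 3) (p : Polynomial ℤ) : ev i (sh p) = ev (i + 1) p := by
  unfold sh ev
  simp only [AlgHom.toRingHom_eq_coe, RingHom.coe_coe]
  rw [Polynomial.aeval_comp, map_sub, map_pow, Polynomial.aeval_X, Polynomial.aeval_C, th_sq]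
  rfl

theorem int_trace (p : Polynomial ℤ) : ∃ n : ℤ, ev 0 p + ev 1 p + ev 2 p = n := by
  obtain ⟨α, hα⟩ := coords p
  refine ⟨3 * α 0 + 6 * α 2, ?_⟩
  rw [hα, hα, hα]
  simp only [v, cst]
  push_cast
  linear_combination (α 1 : ℝ) * th_sum + (α 2 : ℝ) * th_sum_sq

/-- the norm form -/
def nf (α : Fin 3 → ℤ) : ℤ :=
  α 0 ^ 3 + 6 * α 0 ^ 2 * α 2 - 3 * α 0 * α 1 ^ 2 + 3 * α 0 * α 1 * α 2 + 9 * α 0 * α 2 ^ 2
    - α 1 ^ 3 + 3 * α 1 * α 2 ^ 2 + α 2 ^ 3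

theorem th_e2 : th 0 * th 1 + th 1 * th 2 + th 2 * th 0 = -3 := by
  have h1 := th_sum
  have h2 := th_sum_sq
  nlinarith

theorem th_e3 : th 0 * th 1 * th 2 = -1 := by
  have h := th0_root
  rw [th_zero, th_one, th_two]
  linear_combination (-th0 ^ 2 - th0 + 1) * h

theorem norm_form (α : Fin 3 → ℤ) : v 0 (cst α) * v 1 (cst α) * v 2 (cst α) = nf α := by
  have h := th0_root
  simp only [v, cst, nf, th_zero, th_one, th_two]
  push_cast
  generalize (α 0 : ℝ) = a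
  generalize (α 1 : ℝ) = b
  generalize (α 2 : ℝ) = c
  grind

theorem nf_even (α : Fin 3 → ℤ) (h : (2 : ℤ) ∣ nf α) : ∀ i, (2 : ℤ) ∣ α i := by
  have key : ∀ a b c : ZMod 2, a ^ 3 + 6 * a ^ 2 * c - 3 * a * b ^ 2 + 3 * a * b * c + 9 * a * c ^ 2
    - b ^ 3 + 3 * b * c ^ 2 + c ^ 3 = 0 → a = 0 ∧ b = 0 ∧ c = 0 := by decide
  have h1 : ((nf α : ℤ) : ZMod 2) = 0 := (ZMod.intCast_zmod_eq_zero_iff_dvd _ 2).mpr (by exact_mod_cast h)
  unfold nf at h1
  push_cast at h1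
  obtain ⟨h2, h3, h4⟩ := key _ _ _ h1
  intro i
  have := (ZMod.intCast_zmod_eq_zero_iff_dvd (α i) 2).mp (by fin_cases i <;> assumption)
  exact_mod_cast this

/-! ### The order -/

/-- the representation of the algebra, real coordinates -/
noncomputable def T (x : Fin 3 → Fin 3 → ℝ) : M3 :=
  !![v 0 (x 0), v 0 (x 1), v 0 (x 2);
     2 * v 1 (x 2), v 1 (x 0), v 1 (x 1);
     2 * v 2 (x 1), 2 * v 2 (x 2), v 2 (x 0)]

/-- cast of integral coordinates -/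
def cs (κ : Fin 3 → Fin 3 → ℤ) : Fin 3 → Fin 3 → ℝ := fun i => cst (κ i)

/-- the same with polynomials -/
noncomputable def TP (a b c : Polynomial ℤ) : M3 :=
  !![ev 0 a, ev 0 b, ev 0 c;
     2 * ev 1 c, ev 1 a, ev 1 b;
     2 * ev 2 b, 2 * ev 2 c, ev 2 a]

theorem TP_eq (a b c : Polynomial ℤ) : ∃ κ, TP a b c = T (cs κ) := by
  obtain ⟨α, hα⟩ := coords a
  obtain ⟨β, hβ⟩ := coords b
  obtain ⟨γ, hγ⟩ := coords c
  refine ⟨![α, β, γ], ?_⟩
  unfold TP T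
  simp only [hα, hβ, hγ]
  rfl

theorem T_eq (κ : Fin 3 → Fin 3 → ℤ) : T (cs κ) = TP (pl (κ 0)) (pl (κ 1)) (pl (κ 2)) := by
  unfold TP T
  simp only [ev_pl]
  rfl

theorem ev_two (i : Fin 3) : ev i 2 = 2 := map_ofNat (ev i) 2

theorem TP_mul (a b c a' b' c' : Polynomial ℤ) : TP a b c * TP a' b' c'
    = TP (a * a' + 2 * (b * sh c') + 2 * (c * sh (sh b')))
        (a * b' + b * sh a' + 2 * (c * sh (sh c')))
        (a * c' + b * sh b' + c * sh (sh a')) := by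
  have e0 : (0 : Fin 3) + 1 = 1 := rfl
  have e1 : (1 : Fin 3) + 1 = 2 := rfl
  have e2 : (2 : Fin 3) + 1 = 0 := rfl
  unfold TP
  ext i j
  fin_cases i <;> fin_cases j <;>
    simp [Matrix.mul_apply, Fin.sum_univ_three, ev_sh, e0, e1, e2, ev_two] <;> ring

/-- membership in the order -/
def InO (m : M3) : Prop := ∃ κ : Fin 3 → Fin 3 → ℤ, m = T (cs κ)

theorem inO_iff (m : M3) : InO m ↔ ∃ a b c, m = TP a b c := by
  constructor
  · rintro ⟨κ, rfl⟩; exact ⟨_, _, _, T_eq κ⟩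
  · rintro ⟨a, b, c, rfl⟩
    obtain ⟨κ, hκ⟩ := TP_eq a b c
    exact ⟨κ, hκ⟩

theorem InO.mul {m m' : M3} (h : InO m) (h' : InO m') : InO (m * m') := by
  rw [inO_iff] at *
  obtain ⟨a, b, c, rfl⟩ := h
  obtain ⟨a', b', c', rfl⟩ := h'
  exact ⟨_, _, _, TP_mul _ _ _ _ _ _⟩

theorem InO.add {m m' : M3} (h : InO m) (h' : InO m') : InO (m + m') := by
  rw [inO_iff] at *
  obtain ⟨a, b, c, rfl⟩ := h
  obtain ⟨a', b', c', rfl⟩ := h'
  refine ⟨a + a', b + b', c + c', ?_⟩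
  unfold TP
  ext i j
  fin_cases i <;> fin_cases j <;> simp <;> ring

theorem InO.intCast (n : ℤ) : InO ((n : ℝ) • (1 : M3)) := by
  rw [inO_iff]
  refine ⟨Polynomial.C n, 0, 0, ?_⟩
  unfold TP
  ext i j
  fin_cases i <;> fin_cases j <;> simp [ev]

theorem InO.one : InO 1 := by
  have := InO.intCast 1
  rwa [Int.cast_one, one_smul] at this

theorem InO.zsmul {m : M3} (n : ℤ) (h : InO m) : InO ((n : ℝ) • m) := by
  have := (InO.intCast n).mul h
  rwa [Matrix.smul_mul, Matrix.one_mul] at this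

theorem InO.neg {m : M3} (h : InO m) : InO (-m) := by
  have := h.zsmul (-1)
  rwa [Int.cast_neg, Int.cast_one, neg_smul, one_smul] at this

theorem InO.sub {m m' : M3} (h : InO m) (h' : InO m') : InO (m - m') := by
  rw [sub_eq_add_neg]; exact h.add h'.neg

theorem InO.pow {m : M3} (h : InO m) (n : ℕ) : InO (m ^ n) := by
  induction n with
  | zero => rw [pow_zero]; exact InO.one
  | succ n ih => rw [pow_succ]; exact ih.mul h

theorem InO.trace {m : M3} (h : InO m) : ∃ n : ℤ, Matrix.trace m = n := by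
  rw [inO_iff] at h
  obtain ⟨a, b, c, rfl⟩ := h
  obtain ⟨n, hn⟩ := int_trace a
  refine ⟨n, ?_⟩
  rw [← hn]
  simp [TP, Matrix.trace, Fin.sum_univ_three]

theorem InO.trace_adj {m : M3} (h : InO m) : ∃ n : ℤ, Matrix.trace m.adjugate = n := by
  rw [inO_iff] at h
  obtain ⟨a, b, c, rfl⟩ := h
  obtain ⟨n, hn⟩ := int_trace (a * sh a)
  obtain ⟨k, hk⟩ := int_trace (b * sh c)
  refine ⟨n - 2 * k, ?_⟩
  have e0 : (0 : Fin 3) + 1 = 1 := rfl
  have e1 : (1 : Fin 3) + 1 = 2 := rfl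
  have e2 : (2 : Fin 3) + 1 = 0 := rfl
  push_cast
  rw [← hn, ← hk]
  simp only [map_mul, ev_sh, e0, e1, e2]
  rw [Matrix.adjugate_fin_three]
  simp [TP, Matrix.trace, Fin.sum_univ_three]
  ring

theorem InO.adj {m : M3} (h : InO m) : InO m.adjugate := by
  obtain ⟨n, hn⟩ := h.trace
  obtain ⟨k, hk⟩ := h.trace_adj
  have : m.adjugate = m * m - (n : ℝ) • m + (k : ℝ) • (1 : M3) := by
    rw [← hn, ← hk, Matrix.adjugate_fin_three]
    ext i j
    fin_cases i <;> fin_cases j <;>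
      simp [Matrix.trace, Matrix.mul_apply, Fin.sum_univ_three] <;> ring
  rw [this]
  exact ((h.mul h).sub (h.zsmul n)).add (InO.intCast k)

/-- trilinear term of the determinant -/
noncomputable def tri (α β γ : Fin 3 → ℤ) : ℝ :=
  v 0 (cst α) * v 1 (cst β) * v 2 (cst γ) + v 1 (cst α) * v 2 (cst β) * v 0 (cst γ)
    + v 2 (cst α) * v 0 (cst β) * v 1 (cst γ)

theorem tri_int (α β γ : Fin 3 → ℤ) : ∃ k : ℤ, tri α β γ = k := by
  obtain ⟨k, hk⟩ := int_trace (pl α * sh (pl β) * sh (sh (pl γ)))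
  refine ⟨k, ?_⟩
  have e0 : (0 : Fin 3) + 1 = 1 := rfl
  have e1 : (1 : Fin 3) + 1 = 2 := rfl
  have e2 : (2 : Fin 3) + 1 = 0 := rfl
  simp only [map_mul, ev_sh, e0, e1, e2, ev_pl] at hk
  rw [← hk]
  rfl

theorem det_eq (κ : Fin 3 → Fin 3 → ℤ) : (T (cs κ)).det
    = nf (κ 0) + 2 * nf (κ 1) + 4 * nf (κ 2) - 2 * tri (κ 0) (κ 1) (κ 2) := by
  rw [← norm_form, ← norm_form, ← norm_form, Matrix.det_fin_three]
  simp [T, cs, tri]
  ring

theorem InO.det {m : M3} (h : InO m) : ∃ k : ℤ, m.det = k := by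
  obtain ⟨κ, rfl⟩ := h
  obtain ⟨k, hk⟩ := tri_int (κ 0) (κ 1) (κ 2)
  refine ⟨nf (κ 0) + 2 * nf (κ 1) + 4 * nf (κ 2) - 2 * k, ?_⟩
  rw [det_eq, hk]
  push_cast
  ring

theorem v_two (i : Fin 3) (α : Fin 3 → ℤ) : v i (cst (fun j => 2 * α j)) = 2 * v i (cst α) := by
  unfold v cst
  push_cast
  ring

theorem nf_two (α : Fin 3 → ℤ) : nf (fun j => 2 * α j) = 8 * nf α := by
  unfold nf
  ring

theorem all_even (κ : Fin 3 → Fin 3 → ℤ) (h : (T (cs κ)).det = 0) : ∀ i j, (2 : ℤ) ∣ κ i j := by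
  rw [det_eq] at h
  have h0 : ∀ j, (2 : ℤ) ∣ κ 0 j := by
    obtain ⟨k, hk⟩ := tri_int (κ 0) (κ 1) (κ 2)
    rw [hk] at h
    have h' : nf (κ 0) + 2 * nf (κ 1) + 4 * nf (κ 2) - 2 * k = 0 := by exact_mod_cast h
    exact nf_even _ ⟨k - nf (κ 1) - 2 * nf (κ 2), by linarith⟩
  choose α hα using h0
  have eα : κ 0 = fun j => 2 * α j := funext hα
  have t1 : tri (κ 0) (κ 1) (κ 2) = 2 * tri α (κ 1) (κ 2) := by
    rw [eα]; unfold tri; rw [v_two, v_two, v_two]; ring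
  have h1 : ∀ j, (2 : ℤ) ∣ κ 1 j := by
    obtain ⟨k, hk⟩ := tri_int α (κ 1) (κ 2)
    rw [t1, hk, eα, nf_two] at h
    have h' : 8 * nf α + 2 * nf (κ 1) + 4 * nf (κ 2) - 2 * (2 * k) = 0 := by exact_mod_cast h
    exact nf_even _ ⟨k - 2 * nf α - nf (κ 2), by linarith⟩
  choose β hβ using h1
  have eβ : κ 1 = fun j => 2 * β j := funext hβ
  have t2 : tri α (κ 1) (κ 2) = 2 * tri α β (κ 2) := by
    rw [eβ]; unfold tri; rw [v_two, v_two, v_two]; ring
  have h2 : ∀ j, (2 : ℤ) ∣ κ 2 j := by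
    obtain ⟨k, hk⟩ := tri_int α β (κ 2)
    rw [t1, t2, hk, eα, nf_two, eβ, nf_two] at h
    have h' : 8 * nf α + 2 * (8 * nf β) + 4 * nf (κ 2) - 2 * (2 * (2 * k)) = 0 := by exact_mod_cast h
    exact nf_even _ ⟨k - nf α - 2 * nf β, by linarith⟩
  intro i j
  fin_cases i
  · exact ⟨α j, hα j⟩
  · exact ⟨β j, hβ j⟩
  · exact h2 j

theorem T_two (κ : Fin 3 → Fin 3 → ℤ) : T (cs (fun i j => 2 * κ i j)) = (2 : ℝ) • T (cs κ) := by
  have e : ∀ i, cs (fun i j => 2 * κ i j) i = cst (fun j => 2 * κ i j) := fun i => rfl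
  unfold T
  ext i j
  fin_cases i <;> fin_cases j <;> simp [e, v_two] <;> rfl

theorem all_dvd (n : ℕ) : ∀ κ : Fin 3 → Fin 3 → ℤ, (T (cs κ)).det = 0 →
    ∀ i j, (2 : ℤ) ^ n ∣ κ i j := by
  induction n with
  | zero => intro κ _ i j; rw [pow_zero]; exact one_dvd _
  | succ n ih =>
    intro κ h i j
    have h1 := all_even κ h
    choose κ' hκ' using h1
    have e : κ = fun i j => 2 * κ' i j := by funext i j; exact hκ' i j
    rw [e, T_two, det_smul] at h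
    have h2 : (T (cs κ')).det = 0 := by
      rcases mul_eq_zero.mp h with h3 | h3
      · norm_num at h3
      · exact h3
    have h3 := ih κ' h2 i j
    rw [hκ' i j, pow_succ, mul_comm]
    exact mul_dvd_mul_left 2 h3

theorem eq_zero_of_det (κ : Fin 3 → Fin 3 → ℤ) (h : (T (cs κ)).det = 0) : κ = 0 := by
  funext i j
  have h1 := all_dvd (κ i j).natAbs κ h i j
  apply Int.eq_zero_of_abs_lt_dvd h1
  have := Nat.lt_two_pow_self (n := (κ i j).natAbs)
  rw [← Int.natCast_natAbs]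
  exact_mod_cast this

theorem T_zero : T (cs 0) = 0 := by
  unfold T
  ext i j
  fin_cases i <;> fin_cases j <;> simp [v, cs, cst]

theorem InO.det_ne_zero {m : M3} (h : InO m) (hm : m ≠ 0) : m.det ≠ 0 := by
  obtain ⟨κ, rfl⟩ := h
  intro h0
  apply hm
  rw [eq_zero_of_det κ h0, T_zero]

theorem InO.one_le_det {m : M3} (h : InO m) (hm : m ≠ 0) : 1 ≤ |m.det| := by
  obtain ⟨k, hk⟩ := h.det
  have h1 := h.det_ne_zero hm
  rw [hk] at h1 ⊢
  have h2 : k ≠ 0 := by exact_mod_cast h1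
  have h3 : 1 ≤ |k| := Int.one_le_abs h2
  exact_mod_cast h3

end Pool.Agent.Lib_bac815
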