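import Mathlib

set_option autoImplicit false

namespace Pool.Agent.Lib_bac815

/-- `d` is a pseudometric. -/
structure IsPM {Y : Type} (d : Y → Y → ℝ) : Prop where
  self : ∀ x, d x x = 0
  symm : ∀ x y, d x y = d y x
  tri : ∀ x y z, d x z ≤ d x y + d y z

theorem IsPM.nonneg {Y : Type} {d : Y → Y → ℝ} (h : IsPM d) (x y : Y) : 0 ≤ d x y := by
  have h1 := h.tri x y x
  rw [h.self, h.symm y x] at h1
  linarith

/-- The inequality of Bruhat and Tits. -/
def CN {Y : Type} (d : Y → Y → ℝ) : Prop :=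
  ∀ x y, ∃ m, ∀ z, d z m ^ 2 ≤ d z x ^ 2 / 2 + d z y ^ 2 / 2 - d x y ^ 2 / 4

/-- Euclidean distance of two points at distance `r`, `s` from the origin, with angle `a`. -/
noncomputable def eu (r s a : ℝ) : ℝ := Real.sqrt (r ^ 2 + s ^ 2 - 2 * r * s * Real.cos a)

theorem eu_arg_nonneg (r s a : ℝ) (hr : 0 ≤ r) (hs : 0 ≤ s) :
    0 ≤ r ^ 2 + s ^ 2 - 2 * r * s * Real.cos a := by
  have h1 := Real.cos_le_one a
  have h2 : r * s * Real.cos a ≤ r * s * 1 := mul_le_mul_of_nonneg_left h1 (mul_nonneg hr hs)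
  nlinarith [sq_nonneg (r - s)]

theorem eu_sq (r s a : ℝ) (hr : 0 ≤ r) (hs : 0 ≤ s) :
    eu r s a ^ 2 = r ^ 2 + s ^ 2 - 2 * r * s * Real.cos a :=
  Real.sq_sqrt (eu_arg_nonneg r s a hr hs)

theorem eu_nonneg (r s a : ℝ) : 0 ≤ eu r s a := Real.sqrt_nonneg _

theorem eu_mono (r s a b : ℝ) (hr : 0 ≤ r) (hs : 0 ≤ s) (h : Real.cos b ≤ Real.cos a) :
    eu r s a ≤ eu r s b := by
  apply Real.sqrt_le_sqrt
  have := mul_le_mul_of_nonneg_left h (mul_nonneg hr hs)
  nlinarith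

theorem eu_eq_norm (r s a b : ℝ) :
    eu r s (a - b) = ‖(⟨r * Real.cos a, r * Real.sin a⟩ : ℂ) - ⟨s * Real.cos b, s * Real.sin b⟩‖ := by
  unfold eu
  rw [Complex.norm_eq_sqrt_sq_add_sq]
  congr 1
  simp only [Complex.sub_re, Complex.sub_im]
  rw [Real.cos_sub]
  have h1 := Real.sin_sq_add_cos_sq a
  have h2 := Real.sin_sq_add_cos_sq b
  have e1 : (r * Real.cos a - s * Real.cos b) ^ 2 + (r * Real.sin a - s * Real.sin b) ^ 2
      = r ^ 2 * (Real.sin a ^ 2 + Real.cos a ^ 2) + s ^ 2 * (Real.sin b ^ 2 + Real.cos b ^ 2)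
        - 2 * r * s * (Real.cos a * Real.cos b + Real.sin a * Real.sin b) := by ring
  rw [e1, h1, h2]
  ring

theorem eu_neg (r s a : ℝ) : eu r s (-a) = eu r s a := by
  unfold eu; rw [Real.cos_neg]

theorem eu_comm (r s a : ℝ) : eu r s a = eu s r a := by
  unfold eu; congr 1; ring

theorem eu_pi (r s : ℝ) (hr : 0 ≤ r) (hs : 0 ≤ s) : eu r s Real.pi = r + s := by
  unfold eu
  rw [Real.cos_pi]
  have : r ^ 2 + s ^ 2 - 2 * r * s * -1 = (r + s) ^ 2 := by ring
  rw [this, Real.sqrt_sq (by linarith)]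

theorem eu_planar (r s t a b : ℝ) : eu r t (a + b) ≤ eu r s a + eu s t b := by
  have h1 : eu r t (a + b) = eu r t (0 - (a + b)) := by rw [zero_sub, eu_neg]
  have h2 : eu r s a = eu r s (0 - a) := by rw [zero_sub, eu_neg]
  have h3 : eu s t b = eu s t (a - (a + b)) := by
    rw [show a - (a + b) = -b by ring, eu_neg]
  rw [h1, h2, h3, eu_eq_norm, eu_eq_norm, eu_eq_norm]
  exact norm_sub_le_norm_sub_add_norm_sub _ _ _

theorem eu_tri (r s t a b c : ℝ) (hr : 0 ≤ r) (hs : 0 ≤ s) (ht : 0 ≤ t) (ha' : a ≤ Real.pi)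
    (hb' : b ≤ Real.pi) (hc : 0 ≤ c) (hc' : c ≤ Real.pi) (h : c ≤ a + b) :
    eu r t c ≤ eu r s a + eu s t b := by
  rcases le_total (a + b) Real.pi with hab | hab
  · refine le_trans (eu_mono r t c (a + b) hr ht ?_) (eu_planar r s t a b)
    exact Real.cos_le_cos_of_nonneg_of_le_pi hc hab h
  · have h1 : eu r t Real.pi ≤ eu r s a + eu s t (Real.pi - a) := by
      have := eu_planar r s t a (Real.pi - a)
      rwa [show a + (Real.pi - a) = Real.pi by ring] at this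
    have h2 : eu s t (Real.pi - a) ≤ eu s t b := by
      apply eu_mono s t _ _ hs ht
      exact Real.cos_le_cos_of_nonneg_of_le_pi (by linarith) hb' (by linarith)
    have h3 : eu r t c ≤ eu r t Real.pi := by
      apply eu_mono r t _ _ hr ht
      exact Real.cos_le_cos_of_nonneg_of_le_pi hc le_rfl hc'
    linarith

/-- The cone pseudometric over an angle function. -/
noncomputable def coneD {Y : Type} (α : Y → Y → ℝ) (p q : NNReal × Y) : ℝ :=
  eu p.1 q.1 (α p.2 q.2)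

theorem cone_pm {Y : Type} {α : Y → Y → ℝ} (h : IsPM α) (hπ : ∀ x y, α x y ≤ Real.pi) :
    IsPM (coneD α) where
  self p := by
    unfold coneD eu
    rw [h.self, Real.cos_zero]
    have : (p.1 : ℝ) ^ 2 + (p.1 : ℝ) ^ 2 - 2 * p.1 * p.1 * 1 = 0 := by ring
    rw [this, Real.sqrt_zero]
  symm p q := by
    unfold coneD
    rw [h.symm, eu_comm]
  tri p q r := by
    unfold coneD
    exact eu_tri _ _ _ _ _ _ p.1.coe_nonneg q.1.coe_nonneg r.1.coe_nonneg (hπ _ _) (hπ _ _)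
      (h.nonneg _ _) (hπ _ _) (h.tri _ _ _)

/-- Spherical comparison property of an angle function. -/
def C1 {Y : Type} (α : Y → Y → ℝ) : Prop :=
  ∀ x₁ x₂, 0 < α x₁ x₂ → α x₁ x₂ < Real.pi → ∀ θ, 0 ≤ θ → θ ≤ α x₁ x₂ → ∃ y, ∀ x₃,
    Real.sin (α x₁ x₂ - θ) * Real.cos (α x₃ x₁) + Real.sin θ * Real.cos (α x₃ x₂)
      ≤ Real.sin (α x₁ x₂) * Real.cos (α x₃ y)

/-- Berestovskii: the cone over a CAT(1) space is CAT(0). -/
theorem cone_cn {Y : Type} {α : Y → Y → ℝ} (h : IsPM α) (hπ : ∀ x y, α x y ≤ Real.pi)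
    (h1 : C1 α) : CN (coneD α) := by
  have key : ∀ (p q : NNReal × Y) (m : NNReal × Y),
      (∀ z : NNReal × Y, (m.1 : ℝ) ^ 2 - 2 * z.1 * m.1 * Real.cos (α z.2 m.2)
        ≤ ((p.1 : ℝ) ^ 2 + (q.1 : ℝ) ^ 2 + 2 * p.1 * q.1 * Real.cos (α p.2 q.2)) / 4
          - z.1 * (p.1 * Real.cos (α z.2 p.2) + q.1 * Real.cos (α z.2 q.2))) →
      ∀ z, coneD α z m ^ 2 ≤ coneD α z p ^ 2 / 2 + coneD α z q ^ 2 / 2 - coneD α p q ^ 2 / 4 := by
    intro p q m hm z
    unfold coneD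
    rw [eu_sq _ _ _ z.1.coe_nonneg m.1.coe_nonneg, eu_sq _ _ _ z.1.coe_nonneg p.1.coe_nonneg,
      eu_sq _ _ _ z.1.coe_nonneg q.1.coe_nonneg, eu_sq _ _ _ p.1.coe_nonneg q.1.coe_nonneg]
    have := hm z
    nlinarith
  intro p q
  obtain ⟨r₁, x₁⟩ := p
  obtain ⟨r₂, x₂⟩ := q
  have hr1 : (0 : ℝ) ≤ r₁ := r₁.coe_nonneg
  have hr2 : (0 : ℝ) ≤ r₂ := r₂.coe_nonneg
  rcases (h.nonneg x₁ x₂).eq_or_lt with hc0 | hc0
  · -- same direction
    refine ⟨((r₁ + r₂) / 2, x₁), key (r₁, x₁) (r₂, x₂) _ ?_⟩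
    intro z
    have hz1 := h.tri z.2 x₁ x₂
    have hz2 := h.tri z.2 x₂ x₁
    rw [h.symm x₂ x₁] at hz2
    rw [← hc0] at hz1 hz2
    have hab : α z.2 x₁ = α z.2 x₂ := by linarith
    simp only
    rw [← hc0, ← hab, Real.cos_zero]
    push_cast
    have : (0 : ℝ) ≤ z.1 := z.1.coe_nonneg
    nlinarith
  rcases (hπ x₁ x₂).eq_or_lt with hcπ | hcπ
  · -- opposite directions
    have hab : ∀ z, Real.cos (α z x₁) + Real.cos (α z x₂) ≤ 0 := by
      intro z
      have hz1 := h.tri x₁ z x₂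
      rw [h.symm x₁ z, hcπ] at hz1
      have : Real.cos (α z x₂) ≤ Real.cos (Real.pi - α z x₁) := by
        apply Real.cos_le_cos_of_nonneg_of_le_pi
        · linarith [hπ z x₁]
        · exact hπ _ _
        · linarith
      rw [Real.cos_pi_sub] at this
      linarith
    rcases le_total r₂ r₁ with h21 | h21
    · have h21' : (r₂ : ℝ) ≤ r₁ := h21
      refine ⟨((r₁ - r₂) / 2, x₁), key (r₁, x₁) (r₂, x₂) _ ?_⟩
      intro z
      simp only
      rw [hcπ, Real.cos_pi]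
      push_cast
      rw [NNReal.coe_sub h21]
      have hz : (0 : ℝ) ≤ z.1 := z.1.coe_nonneg
      have := mul_nonneg (mul_nonneg hz hr2) (neg_nonneg.mpr (hab z.2))
      nlinarith
    · have h21' : (r₁ : ℝ) ≤ r₂ := h21
      refine ⟨((r₂ - r₁) / 2, x₂), key (r₁, x₁) (r₂, x₂) _ ?_⟩
      intro z
      simp only
      rw [hcπ, Real.cos_pi]
      push_cast
      rw [NNReal.coe_sub h21]
      have hz : (0 : ℝ) ≤ z.1 := z.1.coe_nonneg
      have := mul_nonneg (mul_nonneg hz hr1) (neg_nonneg.mpr (hab z.2))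
      nlinarith
  · -- generic case
    set c := α x₁ x₂ with hc
    have hsc : 0 < Real.sin c := Real.sin_pos_of_pos_of_lt_pi hc0 hcπ
    set W : ℝ := (r₁ : ℝ) ^ 2 + (r₂ : ℝ) ^ 2 + 2 * r₁ * r₂ * Real.cos c with hW
    have hWnn : 0 ≤ W := by
      have := eu_arg_nonneg r₁ r₂ (Real.pi - c) hr1 hr2
      rw [Real.cos_pi_sub] at this
      rw [hW]; linarith
    rcases hWnn.eq_or_lt with hW0 | hW0
    · -- both zero
      have hc1 : -1 < Real.cos c := by
        rw [← Real.cos_pi]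
        exact Real.cos_lt_cos_of_nonneg_of_le_pi hc0.le le_rfl hcπ
      have hprod : (r₁ : ℝ) * r₂ = 0 := by
        by_contra hne
        have hpos : 0 < (r₁ : ℝ) * r₂ := lt_of_le_of_ne (mul_nonneg hr1 hr2) (Ne.symm hne)
        nlinarith [sq_nonneg ((r₁ : ℝ) - r₂), mul_pos hpos (by linarith : (0 : ℝ) < Real.cos c + 1)]
      have h10 : (r₁ : ℝ) = 0 := by
        have : (r₁ : ℝ) ^ 2 + (r₂ : ℝ) ^ 2 = 0 := by
          rw [hW] at hW0; nlinarith
        nlinarith [sq_nonneg (r₁ : ℝ), sq_nonneg (r₂ : ℝ)]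
      have h20 : (r₂ : ℝ) = 0 := by
        have : (r₁ : ℝ) ^ 2 + (r₂ : ℝ) ^ 2 = 0 := by
          rw [hW] at hW0; nlinarith
        nlinarith [sq_nonneg (r₁ : ℝ), sq_nonneg (r₂ : ℝ)]
      refine ⟨(0, x₁), key (r₁, x₁) (r₂, x₂) _ ?_⟩
      intro z
      simp only [h10, h20]
      simp
    · set rm : ℝ := Real.sqrt W / 2 with hrm
      have hrmpos : 0 < rm := by rw [hrm]; positivity
      have hrmsq : rm ^ 2 = W / 4 := by
        rw [hrm, div_pow, Real.sq_sqrt hWnn]; norm_num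
      set u : ℝ := (r₁ + r₂ * Real.cos c) / (2 * rm) with hu
      have hpyth := Real.sin_sq_add_cos_sq c
      have husq : u ^ 2 + (r₂ * Real.sin c / (2 * rm)) ^ 2 = 1 := by
        rw [hu, div_pow, div_pow, ← add_div, div_eq_one_iff_eq (by positivity)]
        have : (2 * rm) ^ 2 = W := by rw [mul_pow, hrmsq]; ring
        rw [this, hW]
        have e : (r₁ + r₂ * Real.cos c) ^ 2 + (r₂ * Real.sin c) ^ 2
            = (r₁ : ℝ) ^ 2 + 2 * r₁ * r₂ * Real.cos c + (r₂ : ℝ) ^ 2 * (Real.sin c ^ 2 + Real.cos c ^ 2) := by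
          ring
        rw [e, hpyth]; ring
      have hu1 : -1 ≤ u := by nlinarith [sq_nonneg (r₂ * Real.sin c / (2 * rm))]
      have hu2 : u ≤ 1 := by nlinarith [sq_nonneg (r₂ * Real.sin c / (2 * rm))]
      set θ := Real.arccos u with hθ
      have hcos : Real.cos θ = u := Real.cos_arccos hu1 hu2
      have hθ0 : 0 ≤ θ := Real.arccos_nonneg u
      have hθπ : θ ≤ Real.pi := Real.arccos_le_pi u
      have hsin : Real.sin θ = r₂ * Real.sin c / (2 * rm) := by
        rw [hθ, Real.sin_arccos]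
        have : 1 - u ^ 2 = (r₂ * Real.sin c / (2 * rm)) ^ 2 := by linarith
        rw [this, Real.sqrt_sq]
        positivity
      have hsin2 : Real.sin (c - θ) = r₁ * Real.sin c / (2 * rm) := by
        rw [Real.sin_sub, hcos, hsin, hu]
        field_simp
        ring
      have hθc : θ ≤ c := by
        by_contra hlt
        push Not at hlt
        have h1 : Real.sin (c - θ) < 0 := by
          apply Real.sin_neg_of_neg_of_neg_pi_lt
          · linarith
          · linarith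
        rw [hsin2] at h1
        have : 0 ≤ r₁ * Real.sin c / (2 * rm) := by positivity
        linarith
      obtain ⟨y, hy⟩ := h1 x₁ x₂ hc0 hcπ θ hθ0 hθc
      refine ⟨(rm.toNNReal, y), key (r₁, x₁) (r₂, x₂) _ ?_⟩
      intro z
      have hz : (0 : ℝ) ≤ z.1 := z.1.coe_nonneg
      have h2 := hy z.2
      rw [← hc, hsin, hsin2] at h2
      have h3 : r₁ * Real.cos (α z.2 x₁) + r₂ * Real.cos (α z.2 x₂) ≤ 2 * rm * Real.cos (α z.2 y) := by
        have e1 : r₁ * Real.sin c / (2 * rm) * Real.cos (α z.2 x₁)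
            + r₂ * Real.sin c / (2 * rm) * Real.cos (α z.2 x₂)
            = Real.sin c * ((r₁ * Real.cos (α z.2 x₁) + r₂ * Real.cos (α z.2 x₂)) / (2 * rm)) := by
          ring
        rw [e1] at h2
        have h4 := le_of_mul_le_mul_left h2 hsc
        rw [div_le_iff₀ (by positivity)] at h4
        linarith
      simp only
      have h5 := mul_le_mul_of_nonneg_left h3 hz
      have h6 : (rm.toNNReal : ℝ) = rm := Real.coe_toNNReal rm hrmpos.le
      rw [h6, hrmsq, hW]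
      linarith

end Pool.Agent.Lib_bac815
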