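import Pool.Agent.Lib_bac815.Lattice
import Pool.Agent.Lib_bac815.Mautner

set_option autoImplicit false

namespace Pool.Agent.Lib_bac815

open Matrix
open scoped Matrix.Norms.L2Operator

theorem mat_inv (g : G) : mat g⁻¹ = (mat g).adjugate := rfl

theorem inO_inv {g : G} (h : InO (mat g)) : InO (mat g⁻¹) := by
  rw [mat_inv]; exact h.adj

/-- The principal congruence subgroups of the group of norm one units of the order. -/
def N (m : ℕ) : Subgroup G where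
  carrier := {g | ∃ β, InO β ∧ mat g = 1 + (m : ℝ) • β}
  one_mem' := ⟨0, by simpa using InO.intCast 0, by rw [mat_one, smul_zero, add_zero]⟩
  mul_mem' := by
    rintro g h ⟨β, hβ, hg⟩ ⟨γ, hγ, hh⟩
    refine ⟨β + γ + ((m : ℤ) : ℝ) • (β * γ), (hβ.add hγ).add ((hβ.mul hγ).zsmul _), ?_⟩
    rw [mat_mul, hg, hh]
    rw [Matrix.add_mul, Matrix.mul_add, Matrix.mul_add, Matrix.one_mul, Matrix.one_mul,
      Matrix.mul_one, Matrix.smul_mul, Matrix.mul_smul, smul_add, smul_add]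
    push_cast
    abel
  inv_mem' := by
    rintro g ⟨β, hβ, hg⟩
    have hO : InO (mat g) := by
      rw [hg]
      have := InO.one.add (hβ.zsmul (m : ℤ))
      simpa using this
    refine ⟨-(mat g⁻¹ * β), ((inO_inv hO).mul hβ).neg, ?_⟩
    have h1 := coe_inv_mul g
    rw [hg, Matrix.mul_add, Matrix.mul_one, Matrix.mul_smul] at h1
    rw [smul_neg, ← h1]
    abel

theorem mem_N {m : ℕ} {g : G} : g ∈ N m ↔ ∃ β, InO β ∧ mat g = 1 + (m : ℝ) • β := Iff.rfl

theorem inO_of_mem {m : ℕ} {g : G} (h : g ∈ N m) : InO (mat g) := by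
  obtain ⟨β, hβ, hg⟩ := h
  rw [hg]
  have := InO.one.add (hβ.zsmul (m : ℤ))
  simpa using this

theorem N_conj {m : ℕ} {g h : G} (hg : g ∈ N m) (hh : InO (mat h)) : h * g * h⁻¹ ∈ N m := by
  obtain ⟨β, hβ, hg⟩ := hg
  refine ⟨mat h * β * mat h⁻¹, (hh.mul hβ).mul (inO_inv hh), ?_⟩
  rw [mat_mul, mat_mul, hg, Matrix.mul_add, Matrix.add_mul, Matrix.mul_one, coe_mul_inv,
    Matrix.mul_smul, Matrix.smul_mul]

theorem N_le {m m' : ℕ} (h : m ∣ m') : N m' ≤ N m := by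
  rintro g ⟨β, hβ, hg⟩
  obtain ⟨k, rfl⟩ := h
  refine ⟨((k : ℤ) : ℝ) • β, hβ.zsmul _, ?_⟩
  rw [hg, smul_smul]
  push_cast
  rfl

theorem entry_le (A : M3) (i : Fin 3) : |A i i| ≤ ‖A‖ := by
  have h1 : ∀ A : M3, A i i ≤ ‖A‖ := by
    intro A
    have := dot_mulVec_le A (Pi.single i 1) (by simp)
    simpa using this
  rw [abs_le]
  constructor
  · have := h1 (-A)
    rw [norm_neg, Matrix.neg_apply] at this
    linarith
  · exact h1 A

theorem det_sub_one (g : G) : (mat g - 1).det = trace (mat g) - trace (mat g⁻¹) := by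
  have h := mat_det g
  rw [mat_inv, adjugate_fin_three]
  rw [det_fin_three] at h ⊢
  simp [trace, Fin.sum_univ_three]
  linear_combination h

theorem trace_conj (x g : G) : trace (mat (x⁻¹ * g * x)) = trace (mat g) := by
  rw [mat_mul, mat_mul, trace_mul_comm, ← Matrix.mul_assoc, coe_mul_inv, Matrix.one_mul]

theorem trace_le (g : G) : |trace (mat g)| ≤ 3 * ‖mat g‖ := by
  rw [trace, Fin.sum_univ_three]
  simp only [diag_apply]
  have h0 := entry_le (mat g) 0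
  have h1 := entry_le (mat g) 1
  have h2 := entry_le (mat g) 2
  calc |mat g 0 0 + mat g 1 1 + mat g 2 2| ≤ |mat g 0 0| + |mat g 1 1| + |mat g 2 2| :=
        abs_add_three _ _ _
    _ ≤ 3 * ‖mat g‖ := by linarith

theorem det_sub_one_ge {m : ℕ} {g : G} (hg : g ∈ N m) (hne : g ≠ 1) :
    (m : ℝ) ^ 3 ≤ |(mat g - 1).det| := by
  obtain ⟨β, hβ, hg⟩ := hg
  have hβ0 : β ≠ 0 := by
    rintro rfl
    apply hne
    apply mat_injective
    rw [hg, smul_zero, add_zero, mat_one]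
  rw [hg, add_sub_cancel_left, det_smul, abs_mul, Fintype.card_fin, abs_pow, Nat.abs_cast]
  have := hβ.one_le_det hβ0
  have h3 : (0 : ℝ) ≤ (m : ℝ) ^ 3 := by positivity
  nlinarith

/-- lower bound for the displacement -/
noncomputable def sys (m : ℕ) : ℝ := Real.log ((m : ℝ) ^ 3 / 6)

theorem displacement {m : ℕ} (hm : 0 < m) {g : G} (hg : g ∈ N m) (hne : g ≠ 1) (x : G) :
    sys m ≤ nu (x⁻¹ * g * x) := by
  have h1 := det_sub_one_ge hg hne
  rw [det_sub_one] at h1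
  set h := x⁻¹ * g * x with hh
  have h2 : trace (mat h) = trace (mat g) := trace_conj x g
  have h3 : trace (mat h⁻¹) = trace (mat g⁻¹) := by
    have : h⁻¹ = x⁻¹ * g⁻¹ * x := by rw [hh]; group
    rw [this]; exact trace_conj x g⁻¹
  rw [← h2, ← h3] at h1
  have h4 := trace_le h
  have h5 := trace_le h⁻¹
  have h6 : (m : ℝ) ^ 3 ≤ 3 * ‖mat h‖ + 3 * ‖mat h⁻¹‖ := by
    calc (m : ℝ) ^ 3 ≤ |trace (mat h) - trace (mat h⁻¹)| := h1
      _ ≤ |trace (mat h)| + |trace (mat h⁻¹)| := abs_sub _ _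
      _ ≤ _ := by linarith
  have hmpos : (0 : ℝ) < (m : ℝ) ^ 3 / 6 := by positivity
  unfold sys
  rcases le_total (‖mat h‖) (‖mat h⁻¹‖) with h7 | h7
  · rw [← nu_inv]
    refine le_trans ?_ (nl_le_nu h⁻¹)
    apply Real.log_le_log hmpos
    linarith
  · refine le_trans ?_ (nl_le_nu h)
    apply Real.log_le_log hmpos
    linarith

theorem norm_le_entries (C : ℝ) : ∃ K : ℝ, ∀ A : M3, (∀ i j, |A i j| ≤ C) → ‖A‖ ≤ K := by
  refine ⟨∑ i, ∑ j, C * ‖(single i j 1 : M3)‖, ?_⟩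
  intro A hA
  conv_lhs => rw [matrix_eq_sum_single A]
  refine (norm_sum_le _ _).trans ?_
  apply Finset.sum_le_sum
  intro i _
  refine (norm_sum_le _ _).trans ?_
  apply Finset.sum_le_sum
  intro j _
  have : (single i j (A i j) : M3) = A i j • single i j 1 := by
    rw [smul_single, smul_eq_mul, mul_one]
  rw [this, norm_smul, Real.norm_eq_abs]
  exact mul_le_mul_of_nonneg_right (hA i j) (norm_nonneg _)

theorem det_le_entries (C : ℝ) (hC : 0 ≤ C) (A : M3) (hA : ∀ i j, |A i j| ≤ C) :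
    |A.det| ≤ 6 * C ^ 3 := by
  have h3 : ∀ i j k l p q, |A i j * A k l * A p q| ≤ C ^ 3 := by
    intro i j k l p q
    rw [abs_mul, abs_mul]
    calc |A i j| * |A k l| * |A p q| ≤ C * C * C := by
          apply mul_le_mul (mul_le_mul (hA _ _) (hA _ _) (abs_nonneg _) hC) (hA _ _) (abs_nonneg _)
          positivity
      _ = C ^ 3 := by ring
  rw [det_fin_three, abs_le]
  have a1 := abs_le.mp (h3 0 0 1 1 2 2)
  have a2 := abs_le.mp (h3 0 0 1 2 2 1)
  have a3 := abs_le.mp (h3 0 1 1 0 2 2)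
  have a4 := abs_le.mp (h3 0 1 1 2 2 0)
  have a5 := abs_le.mp (h3 0 2 1 0 2 1)
  have a6 := abs_le.mp (h3 0 2 1 1 2 0)
  constructor <;> linarith [a1.1, a1.2, a2.1, a2.2, a3.1, a3.2, a4.1, a4.2, a5.1, a5.2, a6.1, a6.2]

theorem sub_of_congr (M : ℕ) (κ κ' : Fin 3 → Fin 3 → ℤ)
    (h : ∀ i j, ((κ i j : ℤ) : ZMod M) = ((κ' i j : ℤ) : ZMod M)) :
    ∃ β, InO β ∧ T (cs κ) - T (cs κ') = (M : ℝ) • β := by
  have h1 : ∀ i j, ∃ k : ℤ, κ i j - κ' i j = M * k := by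
    intro i j
    have := (ZMod.intCast_eq_intCast_iff_dvd_sub _ _ M).mp (h i j)
    obtain ⟨k, hk⟩ := this
    exact ⟨-k, by linarith⟩
  choose k hk using h1
  refine ⟨T (cs k), ⟨k, rfl⟩, ?_⟩
  have e : ∀ i j, T (cs κ) i j - T (cs κ') i j = (M : ℝ) * T (cs k) i j := by
    intro i j
    have h2 : cs κ - cs κ' = (M : ℝ) • cs k := by
      funext a b
      have := hk a b
      simp only [Pi.sub_apply, Pi.smul_apply, smul_eq_mul, cs, cst]
      exact_mod_cast this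
    have h3 := congrArg Tl h2
    rw [map_sub, map_smul] at h3
    have h4 := congrFun (congrFun h3 i) j
    simpa [Tl_apply] using h4
  ext i j
  rw [Matrix.sub_apply, Matrix.smul_apply, smul_eq_mul]
  exact e i j

/-- The congruence subgroups are cocompact. -/
theorem cocompact (m : ℕ) (hm : 0 < m) : ∃ K : ℝ, ∀ g : G, ∃ u ∈ N m, ‖mat (u * g)‖ ≤ K := by
  classical
  obtain ⟨C, hC0, hC⟩ := minkowski_order
  obtain ⟨K₁, hK₁⟩ := norm_le_entries C
  set D : ℕ := ⌈6 * C ^ 3⌉₊ with hD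
  set M₀ : ℕ := D.factorial with hM₀
  have hM₀pos : 0 < M₀ := Nat.factorial_pos D
  set M : ℕ := m * M₀ with hM
  have hMpos : 0 < M := Nat.mul_pos hm hM₀pos
  have : NeZero M := ⟨hMpos.ne'⟩
  let ι : Type := (Finset.Icc (-(D : ℤ)) D) × (Fin 3 → Fin 3 → ZMod M)
  let P : ι → M3 → Prop := fun idx a => ∃ κ : Fin 3 → Fin 3 → ℤ, a = T (cs κ) ∧
    a.det = ((idx.1 : ℤ) : ℝ) ∧ ∀ i j, ((κ i j : ℤ) : ZMod M) = idx.2 i j
  let rep : ι → M3 := fun idx => if h : ∃ a, P idx a then Classical.choose h else 1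
  have hrep : ∀ idx, (∃ a, P idx a) → P idx (rep idx) := by
    intro idx h
    simp only [rep, dif_pos h]
    exact Classical.choose_spec h
  have hfin : Finite ι := inferInstance
  have hne : Nonempty ι := ⟨(⟨0, by simp⟩, fun _ _ => 0)⟩
  obtain ⟨i₀, hi₀⟩ := Finite.exists_max (fun idx => ‖(rep idx)⁻¹‖)
  refine ⟨‖(rep i₀)⁻¹‖ * K₁, ?_⟩
  intro g
  obtain ⟨a, ⟨κ, rfl⟩, ha0, hag⟩ := hC g
  set a := T (cs κ) with ha
  have haO : InO a := ⟨κ, rfl⟩
  obtain ⟨d, hd⟩ := haO.det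
  have hd0 : d ≠ 0 := by
    intro h
    apply haO.det_ne_zero ha0
    rw [hd, h, Int.cast_zero]
  have hdet : (a * mat g).det = d := by rw [det_mul, mat_det, mul_one, hd]
  have hdle : |d| ≤ (D : ℤ) := by
    have h1 := det_le_entries C hC0.le _ hag
    rw [hdet] at h1
    have h2 : 6 * C ^ 3 ≤ (D : ℝ) := Nat.le_ceil _
    have h3 : |(d : ℝ)| ≤ (D : ℝ) := h1.trans h2
    exact_mod_cast h3
  have hdI : d ∈ Finset.Icc (-(D : ℤ)) D := by
    rw [Finset.mem_Icc]; exact abs_le.mp hdle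
  have hdvd : d ∣ (M₀ : ℤ) := by
    rw [← Int.natAbs_dvd_natAbs]
    simp only [Int.natAbs_natCast]
    apply Nat.dvd_factorial
    · exact Int.natAbs_pos.mpr hd0
    · have : ((d.natAbs : ℕ) : ℤ) ≤ D := by rw [Int.natCast_natAbs]; exact hdle
      exact_mod_cast this
  let idx : ι := (⟨d, hdI⟩, fun i j => ((κ i j : ℤ) : ZMod M))
  obtain ⟨κ', hκ', hdet', hcong⟩ := hrep idx ⟨a, κ, rfl, hd, fun i j => rfl⟩
  set a' := rep idx with ha'
  have hdet'' : a'.det = d := hdet'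
  have ha'O : InO a' := ⟨κ', hκ'⟩
  obtain ⟨β, hβ, hβ'⟩ := sub_of_congr M κ κ' (fun i j => (hcong i j).symm)
  rw [← ha, ← hκ'] at hβ'
  have hunit : IsUnit a'.det := by
    rw [hdet'', isUnit_iff_ne_zero]
    exact_mod_cast hd0
  obtain ⟨e, he⟩ := hdvd
  -- the unit
  have hu : a'⁻¹ * a = 1 + (m : ℝ) • (((e : ℤ) : ℝ) • (a'.adjugate * β)) := by
    have h1 : a = a' + (M : ℝ) • β := by rw [← hβ']; abel
    have hdR : (d : ℝ) ≠ 0 := by exact_mod_cast hd0
    have h2 : (M : ℝ) = m * (d * e) := by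
      rw [hM]; push_cast
      have : (M₀ : ℝ) = d * e := by exact_mod_cast he
      rw [this]
    have h3 : a'⁻¹ = (d : ℝ)⁻¹ • a'.adjugate := by
      rw [Matrix.inv_def, hdet'', Ring.inverse_eq_inv']
    conv_lhs => rw [h1]
    rw [Matrix.mul_add, Matrix.nonsing_inv_mul _ hunit, h3, Matrix.smul_mul, Matrix.mul_smul,
      smul_smul, smul_smul, h2]
    congr 2
    field_simp
  have hudet : (a'⁻¹ * a).det = 1 := by
    rw [det_mul, det_nonsing_inv, Ring.inverse_eq_inv', hdet'', hd]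
    exact inv_mul_cancel₀ (by exact_mod_cast hd0)
  let w : G := ⟨a'⁻¹ * a, hudet⟩
  refine ⟨w, ⟨_, (ha'O.adj.mul hβ).zsmul e, hu⟩, ?_⟩
  have h4 : mat (w * g) = a'⁻¹ * (a * mat g) := by
    rw [mat_mul]
    show a'⁻¹ * a * mat g = _
    rw [Matrix.mul_assoc]
  rw [h4]
  refine (norm_mul_le' _ _).trans ?_
  exact mul_le_mul (hi₀ idx) (hK₁ _ hag) (norm_nonneg _) (norm_nonneg _)

/-- some power of a unit is in a given congruence subgroup -/
theorem exists_pow_mem (γ : G) (hγ : InO (mat γ)) (m : ℕ) (hm : 0 < m) :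
    ∃ j, 0 < j ∧ γ ^ j ∈ N m := by
  have : NeZero m := ⟨hm.ne'⟩
  have h1 : ∀ k : ℕ, ∃ κ : Fin 3 → Fin 3 → ℤ, mat (γ ^ k) = T (cs κ) := by
    intro k
    rw [mat_pow]
    exact hγ.pow k
  choose κ hκ using h1
  obtain ⟨i, j, hij, heq⟩ := Finite.exists_ne_map_eq_of_infinite
    (fun k : ℕ => (fun a b => ((κ k a b : ℤ) : ZMod m) : Fin 3 → Fin 3 → ZMod m))
  wlog hlt : i < j generalizing i j with H
  · exact H j i hij.symm heq.symm (lt_of_le_of_ne (not_lt.mp hlt) hij.symm)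
  obtain ⟨β, hβ, hβ'⟩ := sub_of_congr m (κ j) (κ i) (fun a b => congrFun (congrFun heq.symm a) b)
  rw [← hκ, ← hκ] at hβ'
  refine ⟨j - i, by omega, mat (γ ^ i)⁻¹ * β, ?_, ?_⟩
  · refine InO.mul (inO_inv ?_) hβ
    rw [mat_pow]; exact hγ.pow i
  · have e1 : γ ^ (j - i) = (γ ^ i)⁻¹ * γ ^ j := by
      rw [eq_inv_mul_iff_mul_eq, ← pow_add]
      congr 1
      omega
    rw [e1, mat_mul, ← Matrix.mul_smul, ← hβ', Matrix.mul_sub, coe_inv_mul]
    abel

end Pool.Agent.Lib_bac815
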