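import Mathlib

set_option autoImplicit false

namespace Pool.Agent.Lib_bac815

/-- Complete CAT(0) spaces (Hadamard spaces): nonempty complete metric spaces in which any two
points `x`, `y` have a midpoint `m` satisfying the inequality of Bruhat and Tits
`d(z,m)² ≤ d(z,x)²/2 + d(z,y)²/2 - d(x,y)²/4` for all `z`. -/
structure IsCompleteCAT0 (X : Type) [MetricSpace X] : Prop where
  nonempty : Nonempty X
  complete : CompleteSpace X
  bruhatTits : ∀ x y : X, ∃ m : X, ∀ z : X,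
    dist z m ^ 2 ≤ dist z x ^ 2 / 2 + dist z y ^ 2 / 2 - dist x y ^ 2 / 4

/-- Admissible subspaces for an isometric action `ρ`: nonempty closed convex subsets which are
invariant under `ρ`. Convex means that `Z` contains with `x` and `y` every point `p` of the segment
`[x,y]`, i.e. every `p` with `d(x,p) + d(p,y) = d(x,y)`. -/
structure Admissible {Γ X : Type} [Group Γ] [MetricSpace X] (ρ : Γ →* (X ≃ᵢ X)) (Z : Set X) :
    Prop where
  nonempty : Z.Nonempty
  closed : IsClosed Z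
  convex : ∀ x ∈ Z, ∀ y ∈ Z, ∀ p : X, dist x p + dist p y = dist x y → p ∈ Z
  invariant : ∀ γ : Γ, ρ γ '' Z = Z

/-- The restriction `ρ_Z` of the action `ρ` of `Γ` to `Z` almost extends to the topological group
`G` containing `Γ`: there are a homomorphism `ρ₁ : G → Isom(Z)`, continuous for the topology of
pointwise convergence, and a homomorphism `ρ₂ : Γ → Isom(Z)` with bounded orbits, such that `ρ₁(G)`
and `ρ₂(Γ)` commute and `ρ_Z(γ) = ρ₁(γ) ρ₂(γ)` for all `γ ∈ Γ`. -/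
def AlmostExtends {G X : Type} [Group G] [TopologicalSpace G] [MetricSpace X] {Γ : Subgroup G}
    (ρ : Γ →* (X ≃ᵢ X)) (Z : Set X) : Prop :=
  ∃ (ρ₁ : G →* (Z ≃ᵢ Z)) (ρ₂ : Γ →* (Z ≃ᵢ Z)),
    (∀ z : Z, Continuous fun g : G => ρ₁ g z) ∧
    (∀ z : Z, Bornology.IsBounded (Set.range fun γ : Γ => ρ₂ γ z)) ∧
    (∀ (g : G) (γ : Γ), ρ₁ g * ρ₂ γ = ρ₂ γ * ρ₁ g) ∧
    (∀ (γ : Γ) (z : Z), ρ γ (z : X) = ((ρ₁ (γ : G) * ρ₂ γ) z : Z))

end Pool.Agent.Lib_bac815
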