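import Pool.Agent.Lib_bac815.Norms

set_option autoImplicit false

namespace Pool.Agent.Lib_bac815

open Matrix
open scoped Matrix.Norms.L2Operator

theorem bilin (U V : M3) (a b v : Fin 3 → ℝ) :
    v ⬝ᵥ ((U * diagonal a * Uᵀ * (V * diagonal b * Vᵀ)) *ᵥ v)
      = ∑ i, ∑ j, ((Uᵀ *ᵥ v) i * (Uᵀ * V) i j * (Vᵀ *ᵥ v) j) * (a i * b j) := by
  have h1 : U * diagonal a * Uᵀ * (V * diagonal b * Vᵀ)
      = U * (diagonal a * (Uᵀ * V) * diagonal b) * Vᵀ := by
    simp only [Matrix.mul_assoc]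
  rw [h1, ← mulVec_mulVec, ← mulVec_mulVec, dotProduct_mulVec, ← mulVec_transpose U]
  generalize Vᵀ *ᵥ v = w
  generalize Uᵀ *ᵥ v = p
  generalize Uᵀ * V = W
  simp only [dotProduct]
  apply Finset.sum_congr rfl
  intro i _
  have h2 : ((diagonal a * W * diagonal b) *ᵥ w) i
      = ∑ j, (diagonal a * W * diagonal b) i j * w j := rfl
  rw [h2, Finset.mul_sum]
  apply Finset.sum_congr rfl
  intro j _
  rw [mul_diagonal, diagonal_mul]
  ring

theorem S_sub_dot {U V : M3} (hU : Orth U) (hV : Orth V) (y x v : Fin 3 → ℝ) :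
    v ⬝ᵥ ((S U y - S V x) *ᵥ v)
      = ∑ i, ∑ j, ((Uᵀ *ᵥ v) i * (Uᵀ * V) i j * (Vᵀ *ᵥ v) j) * (y i - x j) := by
  have h1 := bilin U V y (fun _ => 1) v
  have h2 := bilin U V (fun _ => 1) x v
  have hd : diagonal (fun _ : Fin 3 => (1 : ℝ)) = 1 := diagonal_one
  rw [hd, Matrix.mul_one, hV.mul_transpose, Matrix.mul_one] at h1
  rw [hd, Matrix.mul_one, hU.mul_transpose, Matrix.one_mul] at h2
  rw [sub_mulVec, dotProduct_sub]
  unfold S
  rw [h1, h2, ← Finset.sum_sub_distrib]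
  apply Finset.sum_congr rfl
  intro i _
  rw [← Finset.sum_sub_distrib]
  apply Finset.sum_congr rfl
  intro j _
  ring

/-- exponential metric increasing property, operator norm form -/
theorem emi {U V : M3} (hU : Orth U) (hV : Orth V) (y x v : Fin 3 → ℝ) (hv : v ⬝ᵥ v = 1) :
    v ⬝ᵥ ((S U y - S V x) *ᵥ v) ≤ Real.log ‖E U y * E V (-x)‖ := by
  set c : Fin 3 → Fin 3 → ℝ := fun i j => (Uᵀ *ᵥ v) i * (Uᵀ * V) i j * (Vᵀ *ᵥ v) j with hc
  set q : ℝ → ℝ := fun τ => ∑ i, ∑ j, c i j * (Real.exp (τ * y i) * Real.exp (-(τ * x j))) with hq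
  have hqE : ∀ τ : ℝ, q τ = v ⬝ᵥ ((E U (τ • y) * E V (-(τ • x))) *ᵥ v) := by
    intro τ
    unfold E
    rw [bilin]
    simp only [hq, hc, Pi.smul_apply, Pi.neg_apply, smul_eq_mul]
  have hq0 : q 0 = 1 := by
    rw [hqE]
    simp only [zero_smul, neg_zero]
    rw [E_zero hU, E_zero hV, Matrix.one_mul, one_mulVec, hv]
  have hder : HasDerivAt q (∑ i, ∑ j, c i j * (y i - x j)) 0 := by
    have : ∀ i j, HasDerivAt (fun τ : ℝ => c i j * (Real.exp (τ * y i) * Real.exp (-(τ * x j))))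
        (c i j * (y i - x j)) 0 := by
      intro i j
      have h1 : HasDerivAt (fun τ : ℝ => Real.exp (τ * y i)) (y i) 0 := by
        have := ((hasDerivAt_id (0 : ℝ)).mul_const (y i)).exp
        simpa using this
      have h2 : HasDerivAt (fun τ : ℝ => Real.exp (-(τ * x j))) (-x j) 0 := by
        have := (((hasDerivAt_id (0 : ℝ)).mul_const (x j)).neg).exp
        simpa using this
      have h3 := (h1.mul h2).const_mul (c i j)
      simp only [zero_mul, Real.exp_zero, neg_zero, mul_one, one_mul] at h3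
      exact h3
    have := HasDerivAt.fun_sum (u := Finset.univ) (fun i _ =>
      HasDerivAt.fun_sum (u := Finset.univ) (fun j _ => this i j))
    exact this
  rw [S_sub_dot hU hV]
  have hlog : HasDerivAt (fun τ => Real.log (q τ)) (∑ i, ∑ j, c i j * (y i - x j)) 0 := by
    have := hder.log (by rw [hq0]; norm_num)
    rwa [hq0, div_one] at this
  have hsl := hlog.tendsto_slope_zero
  have htend : Filter.Tendsto (fun n : ℕ => (1 : ℝ) / 2 ^ n) Filter.atTop (nhdsWithin 0 {0}ᶜ) := by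
    rw [tendsto_nhdsWithin_iff]
    constructor
    · have := tendsto_pow_atTop_nhds_zero_of_lt_one (r := (1 / 2 : ℝ)) (by norm_num) (by norm_num)
      refine this.congr ?_
      intro n
      rw [div_pow, one_pow]
    · exact Filter.Eventually.of_forall (fun n => by
        simp)
  have hlim := hsl.comp htend
  refine le_of_tendsto hlim ?_
  have hcont : ContinuousAt q 0 := hder.continuousAt
  have hpos : ∀ᶠ τ in nhds (0 : ℝ), 0 < q τ := by
    apply hcont.eventually (p := fun s => 0 < s)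
    rw [hq0]
    exact lt_mem_nhds one_pos
  have hpos' : ∀ᶠ n : ℕ in Filter.atTop, 0 < q ((1 : ℝ) / 2 ^ n) :=
    (tendsto_nhdsWithin_iff.mp htend).1.eventually hpos
  filter_upwards [hpos'] with n hn
  simp only [Function.comp, zero_add, hq0, Real.log_one, sub_zero, smul_eq_mul]
  have h1 : q (1 / 2 ^ n) ≤ ‖E U (((1 : ℝ) / 2 ^ n) • y) * E V (-(((1 : ℝ) / 2 ^ n) • x))‖ := by
    rw [hqE]
    exact dot_mulVec_le _ v hv
  have h2 : q (1 / 2 ^ n) ^ (2 ^ n) ≤ ‖E U y * E V (-x)‖ :=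
    (pow_le_pow_left₀ hn.le h1 _).trans (cordes_iter hU hV y x n)
  have h3 := Real.log_le_log (pow_pos hn _) h2
  rw [Real.log_pow] at h3
  have h4 : ((1 : ℝ) / 2 ^ n)⁻¹ = ((2 ^ n : ℕ) : ℝ) := by
    push_cast
    rw [one_div, inv_inv]
  rw [h4]
  exact h3

end Pool.Agent.Lib_bac815
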