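import Pool.Agent.Lib_bac815.EMI

set_option autoImplicit false

namespace Pool.Agent.Lib_bac815

open Matrix
open scoped Matrix.Norms.L2Operator

/-- `SL₃(ℝ)`. -/
abbrev G : Type := Matrix.SpecialLinearGroup (Fin 3) ℝ

/-! ### The quadratic form -/

/-- the quadratic form `2(a² - ab + b²)` -/
def Q (a b : ℝ) : ℝ := 2 * (a ^ 2 - a * b + b ^ 2)

theorem Q_nonneg (a b : ℝ) : 0 ≤ Q a b := by
  unfold Q; nlinarith [sq_nonneg (a - b), sq_nonneg (a + b)]

theorem Q_comm (a b : ℝ) : Q a b = Q b a := by unfold Q; ring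

theorem Q_ge (x : Fin 3 → ℝ) (hx : ∑ i, x i = 0) (a b : ℝ) (ha : ∀ i, x i ≤ a)
    (hb : ∀ i, - x i ≤ b) : ∑ i, x i ^ 2 ≤ Q a b := by
  rw [Fin.sum_univ_three] at hx ⊢
  have a0 := ha 0
  have a1 := ha 1
  have a2 := ha 2
  have b0 := hb 0
  have b1 := hb 1
  have b2 := hb 2
  have key : ∀ u v w : ℝ, u + v + w = 0 → v ≤ u → w ≤ v → u ≤ a → -w ≤ b →
      u ^ 2 + v ^ 2 + w ^ 2 ≤ Q a b := by
    intro u v w h1 h2 h3 h4 h5
    unfold Q
    have hv : v = -u - w := by linarith
    subst hv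
    obtain ⟨α, hα⟩ : ∃ α, a = u + α := ⟨a - u, by ring⟩
    obtain ⟨β, hβ⟩ : ∃ β, b = -w + β := ⟨b + w, by ring⟩
    have hα0 : 0 ≤ α := by linarith
    have hβ0 : 0 ≤ β := by linarith
    subst hα
    subst hβ
    have e1 : 0 ≤ (2 * u + w) * α := mul_nonneg (by linarith) hα0
    have e2 : 0 ≤ (-2 * w - u) * β := mul_nonneg (by linarith) hβ0
    nlinarith [sq_nonneg (α - β), mul_nonneg hα0 hβ0]
  rcases le_total (x 0) (x 1) with h01 | h01 <;> rcases le_total (x 1) (x 2) with h12 | h12 <;>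
    rcases le_total (x 0) (x 2) with h02 | h02
  · have := key (x 2) (x 1) (x 0) (by linarith) h12 h01 a2 b0; linarith
  · have := key (x 2) (x 1) (x 0) (by linarith) h12 h01 a2 b0; linarith
  · have := key (x 1) (x 2) (x 0) (by linarith) h12 h02 a1 b0; linarith
  · have := key (x 1) (x 0) (x 2) (by linarith) h01 h02 a1 b2; linarith
  · have := key (x 2) (x 0) (x 1) (by linarith) h02 h01 a2 b1; linarith
  · have := key (x 0) (x 2) (x 1) (by linarith) h02 h12 a0 b1; linarith
  · have := key (x 0) (x 1) (x 2) (by linarith) h01 h12 a0 b2; linarith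
  · have := key (x 0) (x 1) (x 2) (by linarith) h01 h12 a0 b2; linarith

theorem Q_eq (x : Fin 3 → ℝ) (hx : ∑ i, x i = 0) (a b : ℝ) (ha : ∀ i, x i ≤ a)
    (hb : ∀ i, - x i ≤ b) (ha' : ∃ i, a = x i) (hb' : ∃ i, b = - x i) :
    Q a b = ∑ i, x i ^ 2 := by
  apply le_antisymm _ (Q_ge x hx a b ha hb)
  obtain ⟨i, hi⟩ := ha'
  obtain ⟨j, hj⟩ := hb'
  by_cases hij : i = j
  · subst hij
    have h0 : ∀ k, x k = x i := by
      intro k
      have h1 := ha k
      have h2 := hb k
      rw [hi] at h1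
      rw [hj] at h2
      linarith
    have : x i = 0 := by
      rw [Fin.sum_univ_three, h0 0, h0 1, h0 2] at hx
      linarith
    rw [hi, hj, this]
    unfold Q
    have : ∀ k, x k = 0 := fun k => by rw [h0 k, this]
    simp [this]
  · rw [Fin.sum_univ_three] at hx ⊢
    rw [hi, hj]
    unfold Q
    have h2 : x 2 = - x 0 - x 1 := by linarith
    clear ha hb hi hj
    revert hij
    fin_cases i <;> fin_cases j <;> simp <;> rw [h2] <;> apply le_of_eq <;> ring

theorem cone_of (x : Fin 3 → ℝ) (hx : ∑ i, x i = 0) (a b : ℝ)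
    (hb : ∀ i, - x i ≤ b) (ha' : ∃ i, a = x i) : a ≤ 2 * b := by
  obtain ⟨i, rfl⟩ := ha'
  rw [Fin.sum_univ_three] at hx
  have b0 := hb 0
  have b1 := hb 1
  have b2 := hb 2
  fin_cases i <;> simp <;> linarith

theorem Q_mono {a b a' b' : ℝ} (h1 : a ≤ 2 * b) (h2 : b ≤ 2 * a) (ha : a ≤ a') (hb : b ≤ b') :
    Q a b ≤ Q a' b' := by
  unfold Q
  obtain ⟨α, rfl⟩ : ∃ α, a' = a + α := ⟨a' - a, by ring⟩
  obtain ⟨β, rfl⟩ : ∃ β, b' = b + β := ⟨b' - b, by ring⟩
  have hα0 : 0 ≤ α := by linarith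
  have hβ0 : 0 ≤ β := by linarith
  have e1 : 0 ≤ (2 * a - b) * α := mul_nonneg (by linarith) hα0
  have e2 : 0 ≤ (2 * b - a) * β := mul_nonneg (by linarith) hβ0
  nlinarith [sq_nonneg (α - β), mul_nonneg hα0 hβ0]

theorem sqrt_Q_add (a b a' b' : ℝ) :
    Real.sqrt (Q (a + a') (b + b')) ≤ Real.sqrt (Q a b) + Real.sqrt (Q a' b') := by
  set B := 2 * a * a' - a * b' - a' * b + 2 * b * b' with hB
  have h1 : B ^ 2 ≤ Q a b * Q a' b' := by
    have : Q a b * Q a' b' - B ^ 2 = 3 * (a * b' - a' * b) ^ 2 := by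
      rw [hB]; unfold Q; ring
    nlinarith [sq_nonneg (a * b' - a' * b)]
  have h2 : B ≤ Real.sqrt (Q a b) * Real.sqrt (Q a' b') := by
    rw [← Real.sqrt_mul (Q_nonneg a b)]
    exact Real.le_sqrt_of_sq_le h1
  have h3 : Q (a + a') (b + b') = Q a b + Q a' b' + 2 * B := by
    rw [hB]; unfold Q; ring
  apply Real.sqrt_le_iff.mpr
  constructor
  · positivity
  · rw [h3, add_sq, Real.sq_sqrt (Q_nonneg _ _), Real.sq_sqrt (Q_nonneg _ _)]
    linarith

/-! ### Diagonalisation and singular values -/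

theorem exists_diag (A : M3) (h : Aᵀ = A) : ∃ U : M3, Orth U ∧ ∃ l : Fin 3 → ℝ, A = S U l := by
  have hA : A.IsHermitian := by
    rw [IsHermitian, conjTranspose_eq_transpose_of_trivial, h]
  refine ⟨hA.eigenvectorUnitary, ?_, hA.eigenvalues, ?_⟩
  · have := (hA.eigenvectorUnitary).2
    have h2 := Unitary.star_mul_self_of_mem this
    rw [star_eq_conjTranspose, conjTranspose_eq_transpose_of_trivial] at h2
    exact h2
  · have := hA.spectral_theorem
    rw [Unitary.conjStarAlgAut_apply] at this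
    conv_lhs => rw [this]
    unfold S
    congr 1

theorem exists_svd_aux (g : M3) (hg : g.det = 1) :
    ∃ (k₁ k₂ : M3) (x : Fin 3 → ℝ), Orth k₁ ∧ Orth k₂ ∧ ∑ i, x i = 0 ∧
      g = k₁ * diagonal (fun i => Real.exp (x i)) * k₂ := by
  obtain ⟨U, hU, p, hp⟩ := exists_diag (gᵀ * g) (by rw [transpose_mul, transpose_transpose])
  have h1 : (g * U)ᵀ * (g * U) = diagonal p := by
    have : (g * U)ᵀ * (g * U) = Uᵀ * (gᵀ * g) * U := by
      rw [transpose_mul]; simp only [Matrix.mul_assoc]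
    rw [this, hp]
    unfold S
    have : Uᵀ * (U * diagonal p * Uᵀ) * U = (Uᵀ * U) * diagonal p * (Uᵀ * U) := by
      simp only [Matrix.mul_assoc]
    rw [this, hU, Matrix.one_mul, Matrix.mul_one]
  have hnn : ∀ i, 0 ≤ p i := by
    intro i
    have : p i = ((g * U)ᵀ * (g * U)) i i := by rw [h1, diagonal_apply_eq]
    rw [this, mul_apply]
    apply Finset.sum_nonneg
    intro k _
    rw [transpose_apply]
    exact mul_self_nonneg _
  have hUd : U.det ^ 2 = 1 := by
    have := congrArg Matrix.det hU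
    rw [det_mul, det_transpose, det_one] at this
    rw [sq]; exact this
  have hprod : ∏ i, p i = 1 := by
    have := congrArg Matrix.det h1
    rw [det_mul, det_transpose, det_mul, hg, one_mul, det_diagonal] at this
    rw [← this, ← sq, hUd]
  have hpos : ∀ i, 0 < p i := by
    intro i
    apply lt_of_le_of_ne (hnn i)
    intro h0
    have : ∏ i, p i = 0 := Finset.prod_eq_zero (Finset.mem_univ i) h0.symm
    rw [hprod] at this
    exact one_ne_zero this
  set x : Fin 3 → ℝ := fun i => Real.log (p i) / 2 with hx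
  have hsum : ∑ i, x i = 0 := by
    have : ∑ i, x i = Real.log (∏ i, p i) / 2 := by
      rw [Real.log_prod (fun i _ => (hpos i).ne'), Finset.sum_div]
    rw [this, hprod, Real.log_one, zero_div]
  have hexp : ∀ i, Real.exp (x i) * Real.exp (x i) = p i := by
    intro i
    rw [← Real.exp_add, hx]
    simp only
    rw [add_halves, Real.exp_log (hpos i)]
  refine ⟨g * U * diagonal (fun i => Real.exp (-x i)), Uᵀ, x, ?_, hU.transpose, hsum, ?_⟩
  · unfold Orth
    have : (g * U * diagonal (fun i => Real.exp (-x i)))ᵀ * (g * U * diagonal (fun i => Real.exp (-x i)))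
        = diagonal (fun i => Real.exp (-x i)) * ((g * U)ᵀ * (g * U)) * diagonal (fun i => Real.exp (-x i)) := by
      rw [transpose_mul _ (diagonal _), diagonal_transpose]
      simp only [Matrix.mul_assoc]
    rw [this, h1, diagonal_mul_diagonal, diagonal_mul_diagonal, ← diagonal_one]
    congr 1
    funext i
    rw [← hexp i, Real.exp_neg]
    field_simp
  · have : g * U * diagonal (fun i => Real.exp (-x i)) * diagonal (fun i => Real.exp (x i)) * Uᵀ
        = g * (U * (diagonal (fun i => Real.exp (-x i)) * diagonal (fun i => Real.exp (x i))) * Uᵀ) := by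
      simp only [Matrix.mul_assoc]
    rw [this, diagonal_mul_diagonal]
    have h2 : (diagonal fun i => Real.exp (-x i) * Real.exp (x i)) = (1 : M3) := by
      rw [← diagonal_one]
      congr 1
      funext i
      rw [← Real.exp_add, neg_add_cancel, Real.exp_zero]
    rw [h2, Matrix.mul_one, hU.mul_transpose, Matrix.mul_one]

theorem exists_svd (g : M3) (hg : g.det = 1) :
    ∃ (k₁ k₂ : M3) (x : Fin 3 → ℝ), Orth k₁ ∧ Orth k₂ ∧ k₁.det = 1 ∧ ∑ i, x i = 0 ∧
      g = k₁ * diagonal (fun i => Real.exp (x i)) * k₂ := by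
  obtain ⟨k₁, k₂, x, h1, h2, h3, h4⟩ := exists_svd_aux g hg
  have hd : k₁.det ^ 2 = 1 := by
    have := congrArg Matrix.det h1
    rw [det_mul, det_transpose, det_one] at this
    rw [sq]; exact this
  rcases (sq_eq_one_iff.mp hd) with h | h
  · exact ⟨k₁, k₂, x, h1, h2, h, h3, h4⟩
  · refine ⟨-k₁, -k₂, x, ?_, ?_, ?_, h3, ?_⟩
    · unfold Orth; rw [transpose_neg, Matrix.neg_mul, Matrix.mul_neg, neg_neg]; exact h1
    · unfold Orth; rw [transpose_neg, Matrix.neg_mul, Matrix.mul_neg, neg_neg]; exact h2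
    · rw [det_neg, h]; norm_num
    · rw [h4, Matrix.neg_mul, Matrix.neg_mul, Matrix.mul_neg, neg_neg]

end Pool.Agent.Lib_bac815
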