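import Pool.Agent.Lib_bac815.Arith

set_option autoImplicit false

namespace Pool.Agent.Lib_bac815

open Matrix MeasureTheory

theorem th0_bound : 3 / 2 < th 0 ∧ th 0 < 8 / 5 := ⟨th0_gt, th0_lt⟩

theorem th1_bound : 1 / 4 < th 1 ∧ th 1 < 3 / 5 := by
  rw [th_one]
  constructor <;> nlinarith [th0_gt, th0_lt]

theorem th2_bound : th 2 < -7 / 4 := by
  rw [th_two]
  nlinarith [th0_gt, th0_lt]

theorem vandermonde (α : Fin 3 → ℝ) (h : ∀ i, v i α = 0) : α = 0 := by
  have h0 := h 0
  have h1 := h 1
  have h2 := h 2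
  unfold v at h0 h1 h2
  have b0 := th0_bound
  have b1 := th1_bound
  have b2 := th2_bound
  have d01 : th 0 - th 1 ≠ 0 := by linarith [b0.1, b1.2]
  have d12 : th 1 - th 2 ≠ 0 := by linarith [b1.1]
  have d02 : th 0 - th 2 ≠ 0 := by linarith [b0.1]
  have e01 : α 1 + α 2 * (th 0 + th 1) = 0 := by
    have : (th 0 - th 1) * (α 1 + α 2 * (th 0 + th 1)) = 0 := by linear_combination h0 - h1
    exact (mul_eq_zero.mp this).resolve_left d01
  have e12 : α 1 + α 2 * (th 1 + th 2) = 0 := by
    have : (th 1 - th 2) * (α 1 + α 2 * (th 1 + th 2)) = 0 := by linear_combination h1 - h2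
    exact (mul_eq_zero.mp this).resolve_left d12
  have a2 : α 2 = 0 := by
    have : (th 0 - th 2) * α 2 = 0 := by linear_combination e01 - e12
    exact (mul_eq_zero.mp this).resolve_left d02
  have a1 : α 1 = 0 := by rw [a2] at e01; linarith
  have a0 : α 0 = 0 := by rw [a2, a1] at h0; linarith
  funext i
  fin_cases i
  · exact a0
  · exact a1
  · exact a2

/-- coordinates space -/
abbrev E3 : Type := Fin 3 → Fin 3 → ℝ

theorem v_add (i : Fin 3) (α β : Fin 3 → ℝ) : v i (α + β) = v i α + v i β := by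
  unfold v; simp only [Pi.add_apply]; ring

theorem v_smul (i : Fin 3) (c : ℝ) (α : Fin 3 → ℝ) : v i (c • α) = c * v i α := by
  unfold v; simp only [Pi.smul_apply, smul_eq_mul]; ring

/-- `T` as an endomorphism of `ℝ⁹` -/
noncomputable def Tl : E3 →ₗ[ℝ] E3 where
  toFun x := fun i j => T x i j
  map_add' x y := by
    funext i j
    fin_cases i <;> fin_cases j <;> simp [T, v_add, mul_add]
  map_smul' c x := by
    funext i j
    fin_cases i <;> fin_cases j <;> simp [T, v_smul] <;> ring

theorem Tl_apply (x : E3) (i j : Fin 3) : Tl x i j = T x i j := rfl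

theorem Tl_injective : Function.Injective Tl := by
  rw [← LinearMap.ker_eq_bot, LinearMap.ker_eq_bot']
  intro x hx
  have h : ∀ i j, T x i j = 0 := fun i j => by
    have := congrFun (congrFun hx i) j
    exact this
  have a0 : x 0 = 0 := by
    apply vandermonde
    intro i
    fin_cases i
    · simpa [T] using h 0 0
    · simpa [T] using h 1 1
    · simpa [T] using h 2 2
  have a1 : x 1 = 0 := by
    apply vandermonde
    intro i
    fin_cases i
    · simpa [T] using h 0 1
    · simpa [T] using h 1 2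
    · simpa [T] using h 2 0
  have a2 : x 2 = 0 := by
    apply vandermonde
    intro i
    fin_cases i
    · simpa [T] using h 0 2
    · simpa [T] using h 1 0
    · simpa [T] using h 2 1
  funext i
  fin_cases i
  · exact a0
  · exact a1
  · exact a2

/-- the basis of the lattice -/
noncomputable def bas : Module.Basis (Σ _ : Fin 3, Fin 3) ℝ E3 :=
  (Pi.basis (fun _ : Fin 3 => Pi.basisFun ℝ (Fin 3))).map (LinearEquiv.ofInjectiveEndo Tl Tl_injective)

theorem mem_span_bas (x : E3) (h : x ∈ Submodule.span ℤ (Set.range bas)) :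
    ∃ κ : Fin 3 → Fin 3 → ℤ, x = Tl (cs κ) := by
  rw [bas.mem_span_iff_repr_mem ℤ x] at h
  set y : E3 := (LinearEquiv.ofInjectiveEndo Tl Tl_injective).symm x with hy
  have hx : x = Tl y := by
    rw [hy]
    have := (LinearEquiv.ofInjectiveEndo Tl Tl_injective).apply_symm_apply x
    rw [LinearEquiv.coe_ofInjectiveEndo] at this
    exact this.symm
  have h2 : ∀ i j, ∃ n : ℤ, (n : ℝ) = y i j := by
    intro i j
    obtain ⟨n, hn⟩ := h ⟨i, j⟩
    refine ⟨n, ?_⟩
    have e : bas.repr x ⟨i, j⟩ = y i j := by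
      unfold bas
      rw [Module.Basis.map_repr]
      simp [hy]
    rw [← e, ← hn]
    rfl
  choose κ hκ using h2
  refine ⟨κ, ?_⟩
  rw [hx]
  congr 1
  funext i j
  exact (hκ i j).symm

/-- right multiplication by a matrix of determinant one preserves the volume -/
theorem rmul_preserving (g : G) :
    MeasurePreserving (fun x : E3 => fun i => x i ᵥ* mat g) volume volume := by
  refine volume_preserving_pi (f := fun (_ : Fin 3) (w : Fin 3 → ℝ) => w ᵥ* mat g) ?_
  intro i
  have h1 := Real.map_matrix_volume_pi_eq_smul_volume_pi (M := (mat g)ᵀ) (by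
    rw [det_transpose, mat_det]; norm_num)
  rw [det_transpose, mat_det] at h1
  simp only [inv_one, abs_one, ENNReal.ofReal_one, one_smul] at h1
  have h2 : (fun w : Fin 3 → ℝ => w ᵥ* mat g) = toLin' (mat g)ᵀ := by
    funext w
    rw [toLin'_apply, mulVec_transpose]
  rw [h2]
  refine ⟨?_, h1⟩
  exact (LinearMap.continuous_of_finiteDimensional _).measurable

/-- Minkowski: there is a constant `C` such that for every `g ∈ SL₃(ℝ)` there is a nonzero `a` in
the order such that the entries of `a g` are at most `C`. -/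
theorem minkowski_order : ∃ C : ℝ, 0 < C ∧ ∀ g : G, ∃ a : M3, InO a ∧ a ≠ 0 ∧
    ∀ i j, |(a * mat g) i j| ≤ C := by
  set V := volume (ZSpan.fundamentalDomain bas) with hV
  have hVlt : V < ⊤ := (ZSpan.fundamentalDomain_isBounded bas).measure_lt_top
  set K := volume (Metric.ball (0 : E3) 1) with hK
  have hKpos : 0 < K := Metric.measure_ball_pos volume 0 one_pos
  have hKlt : K < ⊤ := Metric.isBounded_ball.measure_lt_top
  -- choose the radius
  obtain ⟨C, hC0, hC⟩ : ∃ C : ℝ, 0 < C ∧ V * 2 ^ Module.finrank ℝ E3 < volume (Metric.ball (0 : E3) C) := by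
    have hfin : 0 < Module.finrank ℝ E3 := Module.finrank_pos
    have h1 : (V * 2 ^ Module.finrank ℝ E3) / K < ⊤ := by
      apply ENNReal.div_lt_top
      · exact (ENNReal.mul_lt_top hVlt (ENNReal.pow_lt_top (by norm_num))).ne
      · exact hKpos.ne'
    obtain ⟨n, hn⟩ := ENNReal.exists_nat_gt h1.ne
    refine ⟨(n : ℝ) + 1, by positivity, ?_⟩
    rw [Measure.addHaar_ball volume (0 : E3) (by positivity : (0 : ℝ) ≤ (n : ℝ) + 1), ← hK]
    have h2 : (n : ENNReal) ≤ ENNReal.ofReal (((n : ℝ) + 1) ^ Module.finrank ℝ E3) := by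
      have e1 : (n : ENNReal) = ENNReal.ofReal n := by simp
      rw [e1]
      apply ENNReal.ofReal_le_ofReal
      have e2 : (1 : ℝ) ≤ (n : ℝ) + 1 := by
        have : (0 : ℝ) ≤ n := Nat.cast_nonneg n
        linarith
      calc (n : ℝ) ≤ (n : ℝ) + 1 := by linarith
        _ = ((n : ℝ) + 1) ^ 1 := (pow_one _).symm
        _ ≤ ((n : ℝ) + 1) ^ Module.finrank ℝ E3 := pow_le_pow_right₀ e2 hfin
    have h3 := (ENNReal.div_lt_iff (Or.inl hKpos.ne') (Or.inl hKlt.ne)).mp hn
    exact h3.trans_le (mul_le_mul_left h2 K)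
  refine ⟨C, hC0, ?_⟩
  intro g
  set R : E3 → E3 := fun x => fun i => x i ᵥ* mat g with hR
  set s : Set E3 := R ⁻¹' Metric.ball 0 C with hs
  have hvol : volume s = volume (Metric.ball (0 : E3) C) := by
    rw [hs]
    exact (rmul_preserving g).measure_preimage Metric.isOpen_ball.measurableSet.nullMeasurableSet
  let Rl : E3 →ₗ[ℝ] E3 :=
    { toFun := R
      map_add' := by
        intro x y
        funext i
        simp only [hR, Pi.add_apply, add_vecMul]
      map_smul' := by
        intro c x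
        funext i
        simp only [hR, Pi.smul_apply, smul_vecMul, RingHom.id_apply] }
  have hsymm : ∀ x ∈ s, -x ∈ s := by
    intro x hx
    show R (-x) ∈ Metric.ball (0 : E3) C
    have : R (-x) = - R x := map_neg Rl x
    rw [this, mem_ball_zero_iff, norm_neg]
    exact mem_ball_zero_iff.mp hx
  have hconv : Convex ℝ s := (convex_ball (0 : E3) C).linear_preimage Rl
  have : Countable (Submodule.span ℤ (Set.range bas)).toAddSubgroup :=
    inferInstanceAs (Countable (Submodule.span ℤ (Set.range bas)))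
  obtain ⟨x, hx0, hxs⟩ := exists_ne_zero_mem_lattice_of_measure_mul_two_pow_lt_measure
    (ZSpan.isAddFundamentalDomain' bas volume) hsymm hconv (by rw [hvol]; exact hC)
  obtain ⟨κ, hκ⟩ := mem_span_bas (x : E3) x.2
  refine ⟨T (cs κ), ⟨κ, rfl⟩, ?_, ?_⟩
  · intro h0
    apply hx0
    apply Subtype.ext
    rw [hκ]
    funext i j
    rw [Tl_apply, h0]
    rfl
  · intro i j
    have h1 : ‖R x‖ < C := mem_ball_zero_iff.mp hxs
    have h2 : (T (cs κ) * mat g) i j = R x i j := by
      rw [hκ]
      rfl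
    rw [h2]
    calc |R x i j| = ‖R x i j‖ := (Real.norm_eq_abs _).symm
      _ ≤ ‖R x i‖ := norm_le_pi_norm (R x i) j
      _ ≤ ‖R x‖ := norm_le_pi_norm (R x) i
      _ ≤ C := h1.le

end Pool.Agent.Lib_bac815
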