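import Mathlib

set_option autoImplicit false

namespace Pool.Agent.Lib_bac815

theorem sturm (φ φ' φ'' : ℝ → ℝ) (c : ℝ) (hc : 0 < c) (hcπ : c < Real.pi)
    (h1 : ∀ t, HasDerivAt φ (φ' t) t) (h2 : ∀ t, HasDerivAt φ' (φ'' t) t)
    (h3 : ∀ t, 0 ≤ t → t ≤ 1 → φ'' t + c ^ 2 * φ t ≤ 0) (t₀ : ℝ) (ht0 : 0 ≤ t₀) (ht1 : t₀ ≤ 1) :
    Real.sin (c * (1 - t₀)) * φ 0 + Real.sin (c * t₀) * φ 1 ≤ Real.sin c * φ t₀ := by
  -- first Wronskian on `[0, t₀]`
  set W₁ : ℝ → ℝ := fun t => φ' t * Real.sin (c * t) - c * φ t * Real.cos (c * t) with hW₁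
  set W₂ : ℝ → ℝ := fun t => φ' t * Real.sin (c * (1 - t)) + c * φ t * Real.cos (c * (1 - t)) with hW₂
  have hs1 : ∀ t, HasDerivAt (fun t => Real.sin (c * t)) (Real.cos (c * t) * c) t := fun t => by
    have := (hasDerivAt_id t).const_mul c
    simp only [mul_one, id] at this
    exact this.sin
  have hc1 : ∀ t, HasDerivAt (fun t => Real.cos (c * t)) (-Real.sin (c * t) * c) t := fun t => by
    have := (hasDerivAt_id t).const_mul c
    simp only [mul_one, id] at this
    exact this.cos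
  have hl : ∀ t, HasDerivAt (fun t => c * (1 - t)) (-c) t := fun t => by
    have := ((hasDerivAt_id t).const_sub 1).const_mul c
    simp only [mul_neg, mul_one, id] at this
    exact this
  have hs2 : ∀ t, HasDerivAt (fun t => Real.sin (c * (1 - t))) (Real.cos (c * (1 - t)) * (-c)) t :=
    fun t => (hl t).sin
  have hc2 : ∀ t, HasDerivAt (fun t => Real.cos (c * (1 - t))) (-Real.sin (c * (1 - t)) * (-c)) t :=
    fun t => (hl t).cos
  have hd1 : ∀ t, HasDerivAt W₁ ((φ'' t + c ^ 2 * φ t) * Real.sin (c * t)) t := by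
    intro t
    have := ((h2 t).mul (hs1 t)).sub (((h1 t).const_mul c).mul (hc1 t))
    refine this.congr_deriv ?_
    ring
  have hd2 : ∀ t, HasDerivAt W₂ ((φ'' t + c ^ 2 * φ t) * Real.sin (c * (1 - t))) t := by
    intro t
    have := ((h2 t).mul (hs2 t)).add (((h1 t).const_mul c).mul (hc2 t))
    refine this.congr_deriv ?_
    ring
  have ha1 : AntitoneOn W₁ (Set.Icc 0 t₀) := by
    apply antitoneOn_of_deriv_nonpos (convex_Icc 0 t₀)
    · exact fun t _ => (hd1 t).continuousAt.continuousWithinAt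
    · exact fun t _ => (hd1 t).differentiableAt.differentiableWithinAt
    · intro t ht
      rw [interior_Icc] at ht
      rw [(hd1 t).deriv]
      apply mul_nonpos_of_nonpos_of_nonneg (h3 t ht.1.le (by linarith [ht.2]))
      apply Real.sin_nonneg_of_nonneg_of_le_pi
      · have := ht.1; positivity
      · have h5 : t ≤ 1 := by linarith [ht.2]
        nlinarith [ht.1]
  have ha2 : AntitoneOn W₂ (Set.Icc t₀ 1) := by
    apply antitoneOn_of_deriv_nonpos (convex_Icc t₀ 1)
    · exact fun t _ => (hd2 t).continuousAt.continuousWithinAt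
    · exact fun t _ => (hd2 t).differentiableAt.differentiableWithinAt
    · intro t ht
      rw [interior_Icc] at ht
      rw [(hd2 t).deriv]
      apply mul_nonpos_of_nonpos_of_nonneg (h3 t (by linarith [ht.1]) ht.2.le)
      apply Real.sin_nonneg_of_nonneg_of_le_pi
      · have := ht.2; nlinarith
      · have h5 : 0 < t := by linarith [ht.1]
        nlinarith [ht.2]
  have k1 := ha1 (Set.left_mem_Icc.mpr ht0) (Set.right_mem_Icc.mpr ht0) ht0
  have k2 := ha2 (Set.left_mem_Icc.mpr ht1) (Set.right_mem_Icc.mpr ht1) ht1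
  simp only [hW₁, hW₂] at k1 k2
  simp only [mul_zero, Real.sin_zero, Real.cos_zero, mul_one, sub_self, zero_add, zero_sub] at k1 k2
  have p1 : 0 ≤ Real.sin (c * t₀) := by
    apply Real.sin_nonneg_of_nonneg_of_le_pi (by positivity)
    nlinarith
  have p2 : 0 ≤ Real.sin (c * (1 - t₀)) := by
    apply Real.sin_nonneg_of_nonneg_of_le_pi
    · have : 0 ≤ 1 - t₀ := by linarith
      positivity
    · nlinarith
  have q1 := mul_le_mul_of_nonneg_right k1 p2
  have q2 := mul_le_mul_of_nonneg_right k2 p1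
  have hsin : Real.sin c = Real.sin (c * t₀) * Real.cos (c * (1 - t₀))
      + Real.cos (c * t₀) * Real.sin (c * (1 - t₀)) := by
    rw [← Real.sin_add]; congr 1; ring
  have : c * (Real.sin (c * (1 - t₀)) * φ 0 + Real.sin (c * t₀) * φ 1) ≤ c * (Real.sin c * φ t₀) := by
    rw [hsin]
    nlinarith
  exact le_of_mul_le_mul_left this hc

theorem mul_cos_le_sin (e : ℝ) (h0 : 0 ≤ e) (h1 : e ≤ Real.pi) : e * Real.cos e ≤ Real.sin e := by
  rcases le_total e (Real.pi / 2) with h | h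
  · rcases h0.eq_or_lt with h00 | h00
    · rw [← h00]; simp
    rcases h.eq_or_lt with h2 | h2
    · rw [h2]; simp
    · have := Real.lt_tan h00 h2
      rw [Real.tan_eq_sin_div_cos, lt_div_iff₀ (Real.cos_pos_of_mem_Ioo ⟨by linarith, h2⟩)] at this
      exact this.le
  · have h2 : Real.cos e ≤ 0 := Real.cos_nonpos_of_pi_div_two_le_of_le h (by linarith [Real.pi_pos])
    have h3 : 0 ≤ Real.sin e := Real.sin_nonneg_of_nonneg_of_le_pi h0 h1
    nlinarith

theorem sph_nondeg (a b c : ℝ) (ha : 0 ≤ a) (ha' : a ≤ Real.pi) (hb : 0 ≤ b) (hb' : b ≤ Real.pi)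
    (hc : 0 < c) (hcπ : c < Real.pi) (h1 : a < b + c) (h2 : b < a + c) (h3 : c < a + b)
    (t : ℝ) (ht0 : 0 ≤ t) (ht1 : t ≤ 1) :
    Real.sin (c * (1 - t)) * Real.cos a + Real.sin (c * t) * Real.cos b
      ≤ Real.sin c * Real.cos (Real.sqrt ((1 - t) * a ^ 2 + t * b ^ 2 - t * (1 - t) * c ^ 2)) := by
  set Ef : ℝ → ℝ := fun t => (1 - t) * a ^ 2 + t * b ^ 2 - t * (1 - t) * c ^ 2 with hEf
  have hdisc : ∀ t, 0 < 4 * c ^ 2 * Ef t - (b ^ 2 - a ^ 2 - c ^ 2 + 2 * t * c ^ 2) ^ 2 := by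
    intro t
    have : 4 * c ^ 2 * Ef t - (b ^ 2 - a ^ 2 - c ^ 2 + 2 * t * c ^ 2) ^ 2
        = (a + b + c) * (b + c - a) * (a + c - b) * (a + b - c) := by
      simp only [hEf]; ring
    rw [this]
    have e1 : 0 < a + b + c := by linarith
    have e2 : 0 < b + c - a := by linarith
    have e3 : 0 < a + c - b := by linarith
    have e4 : 0 < a + b - c := by linarith
    positivity
  have hEpos : ∀ t, 0 < Ef t := by
    intro t
    have h4 := hdisc t
    have h5 : 0 < 4 * c ^ 2 * Ef t := by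
      nlinarith [sq_nonneg (b ^ 2 - a ^ 2 - c ^ 2 + 2 * t * c ^ 2)]
    by_contra h6
    push Not at h6
    have : 4 * c ^ 2 * Ef t ≤ 0 := mul_nonpos_of_nonneg_of_nonpos (by positivity) h6
    linarith
  set D : ℝ → ℝ := fun t => b ^ 2 - a ^ 2 - c ^ 2 + 2 * t * c ^ 2 with hD
  have hdE : ∀ t, HasDerivAt Ef (D t) t := by
    intro t
    have hid := hasDerivAt_id t
    have e1 := ((hid.const_sub 1).mul_const (a ^ 2)).add (hid.mul_const (b ^ 2))
    have e2 := (hid.mul (hid.const_sub 1)).mul_const (c ^ 2)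
    have := e1.sub e2
    refine this.congr_deriv ?_
    simp only [id, hD]
    ring
  have hdD : ∀ t, HasDerivAt D (2 * c ^ 2) t := by
    intro t
    have e1 := (((hasDerivAt_id t).const_mul 2).mul_const (c ^ 2)).const_add (b ^ 2 - a ^ 2 - c ^ 2)
    refine e1.congr_deriv ?_
    ring
  set ef : ℝ → ℝ := fun t => Real.sqrt (Ef t) with hef
  have hepos : ∀ t, 0 < ef t := fun t => Real.sqrt_pos.mpr (hEpos t)
  have hesq : ∀ t, ef t ^ 2 = Ef t := fun t => Real.sq_sqrt (hEpos t).le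
  have hde : ∀ t, HasDerivAt ef (D t / (2 * ef t)) t := fun t => (hdE t).sqrt (hEpos t).ne'
  set φ : ℝ → ℝ := fun t => Real.cos (ef t) with hφ
  set φ' : ℝ → ℝ := fun t => -Real.sin (ef t) * (D t / (2 * ef t)) with hφ'
  set φ'' : ℝ → ℝ := fun t => (Real.sin (ef t) / ef t - Real.cos (ef t)) * (D t ^ 2 / (4 * Ef t) - c ^ 2)
      - c ^ 2 * Real.cos (ef t) with hφ''
  have d1 : ∀ t, HasDerivAt φ (φ' t) t := fun t => (hde t).cos
  have d2 : ∀ t, HasDerivAt φ' (φ'' t) t := by
    intro t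
    have e0 := (hepos t).ne'
    have e1 := (hde t).sin.neg
    have e2 := (hdD t).div ((hde t).const_mul 2) (by positivity : (2 : ℝ) * ef t ≠ 0)
    have e3 := e1.mul e2
    refine e3.congr_deriv ?_
    simp only [hφ'', Pi.div_apply, Pi.neg_apply]
    rw [← hesq t]
    field_simp
    ring
  have hbound : ∀ t, 0 ≤ t → t ≤ 1 → ef t ≤ Real.pi := by
    intro t ht0 ht1
    apply Real.sqrt_le_iff.mpr
    refine ⟨Real.pi_pos.le, ?_⟩
    simp only [hEf]
    have e1 : a ^ 2 ≤ Real.pi ^ 2 := pow_le_pow_left₀ ha ha' 2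
    have e2 : b ^ 2 ≤ Real.pi ^ 2 := pow_le_pow_left₀ hb hb' 2
    have e3 : 0 ≤ t * (1 - t) * c ^ 2 := by
      have : 0 ≤ 1 - t := by linarith
      positivity
    nlinarith
  have d3 : ∀ t, 0 ≤ t → t ≤ 1 → φ'' t + c ^ 2 * φ t ≤ 0 := by
    intro t ht0 ht1
    simp only [hφ'', hφ]
    have e1 := mul_cos_le_sin (ef t) (hepos t).le (hbound t ht0 ht1)
    have e2 : 0 ≤ Real.sin (ef t) / ef t - Real.cos (ef t) := by
      rw [sub_nonneg, le_div_iff₀ (hepos t)]
      linarith
    have e3 : D t ^ 2 / (4 * Ef t) - c ^ 2 ≤ 0 := by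
      rw [sub_nonpos, div_le_iff₀ (by have := hEpos t; positivity)]
      have := hdisc t
      simp only [hD]
      linarith
    have := mul_nonpos_of_nonneg_of_nonpos e2 e3
    linarith
  have := sturm φ φ' φ'' c hc hcπ d1 d2 d3 t ht0 ht1
  have f0 : φ 0 = Real.cos a := by
    simp only [hφ, hef, hEf]
    have : (1 - 0) * a ^ 2 + 0 * b ^ 2 - 0 * (1 - 0) * c ^ 2 = a ^ 2 := by ring
    rw [this, Real.sqrt_sq ha]
  have f1 : φ 1 = Real.cos b := by
    simp only [hφ, hef, hEf]
    have : (1 - 1) * a ^ 2 + 1 * b ^ 2 - 1 * (1 - 1) * c ^ 2 = b ^ 2 := by ring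
    rw [this, Real.sqrt_sq hb]
  rw [f0, f1] at this
  exact this

theorem sph_deg (a c σ t : ℝ) :
    Real.sin (c * (1 - t)) * Real.cos a + Real.sin (c * t) * Real.cos (a + σ * c)
      = Real.sin c * Real.cos (a + σ * (c * t)) ∨ σ ^ 2 ≠ 1 := by
  by_cases hσ : σ ^ 2 = 1
  · left
    have h1 : Real.cos (σ * c) = Real.cos c := by
      rcases sq_eq_one_iff.mp hσ with h | h <;> simp [h]
    have h2 : Real.sin (σ * c) = σ * Real.sin c := by
      rcases sq_eq_one_iff.mp hσ with h | h <;> simp [h]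
    have h3 : Real.cos (σ * (c * t)) = Real.cos (c * t) := by
      rcases sq_eq_one_iff.mp hσ with h | h <;> simp [h]
    have h4 : Real.sin (σ * (c * t)) = σ * Real.sin (c * t) := by
      rcases sq_eq_one_iff.mp hσ with h | h <;> simp [h]
    have h5 : Real.sin (c * (1 - t)) = Real.sin c * Real.cos (c * t) - Real.cos c * Real.sin (c * t) := by
      rw [← Real.sin_sub]; congr 1; ring
    rw [Real.cos_add a (σ * c), Real.cos_add a (σ * (c * t)), h1, h2, h3, h4, h5]
    ring
  · right; exact hσ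

theorem sph (a b c : ℝ) (ha : 0 ≤ a) (ha' : a ≤ Real.pi) (hb : 0 ≤ b) (hb' : b ≤ Real.pi)
    (hc : 0 < c) (hcπ : c < Real.pi) (h1 : a ≤ b + c) (h2 : b ≤ a + c) (h3 : c ≤ a + b)
    (t : ℝ) (ht0 : 0 ≤ t) (ht1 : t ≤ 1) :
    Real.sin (c * (1 - t)) * Real.cos a + Real.sin (c * t) * Real.cos b
      ≤ Real.sin c * Real.cos (Real.sqrt ((1 - t) * a ^ 2 + t * b ^ 2 - t * (1 - t) * c ^ 2)) := by
  rcases h1.eq_or_lt with e1 | e1
  · -- a = b + c
    have hb2 : b = a + (-1) * c := by linarith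
    have := (sph_deg a c (-1) t).resolve_right (by norm_num)
    rw [← hb2] at this
    rw [this]
    have e : (1 - t) * a ^ 2 + t * b ^ 2 - t * (1 - t) * c ^ 2 = (a + -1 * (c * t)) ^ 2 := by
      rw [hb2]; ring
    rw [e, Real.sqrt_sq_eq_abs, Real.cos_abs]
  rcases h2.eq_or_lt with e2 | e2
  · have hb2 : b = a + 1 * c := by linarith
    have := (sph_deg a c 1 t).resolve_right (by norm_num)
    rw [← hb2] at this
    rw [this]
    have e : (1 - t) * a ^ 2 + t * b ^ 2 - t * (1 - t) * c ^ 2 = (a + 1 * (c * t)) ^ 2 := by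
      rw [hb2]; ring
    rw [e, Real.sqrt_sq_eq_abs, Real.cos_abs]
  rcases h3.eq_or_lt with e3 | e3
  · have hb2 : b = -(a + (-1) * c) := by linarith
    have := (sph_deg a c (-1) t).resolve_right (by norm_num)
    rw [← Real.cos_neg (a + -1 * c), ← hb2] at this
    rw [this]
    have e : (1 - t) * a ^ 2 + t * b ^ 2 - t * (1 - t) * c ^ 2 = (a + -1 * (c * t)) ^ 2 := by
      rw [hb2]; ring
    rw [e, Real.sqrt_sq_eq_abs, Real.cos_abs]
  · exact sph_nondeg a b c ha ha' hb hb' hc hcπ e1 e2 e3 t ht0 ht1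

/-- the case of large perimeter -/
theorem sph_big (a b c θ m : ℝ) (ha' : a ≤ Real.pi) (hb' : b ≤ Real.pi)
    (hc : 0 < c) (hcπ : c < Real.pi) (h : 2 * Real.pi ≤ a + b + c)
    (hθ0 : 0 ≤ θ) (hθc : θ ≤ c) (hm0 : 0 ≤ m) (h1 : m ≤ a + θ) (h2 : m ≤ b + (c - θ)) :
    Real.sin (c - θ) * Real.cos a + Real.sin θ * Real.cos b ≤ Real.sin c * Real.cos m := by
  have hsc : 0 < Real.sin c := Real.sin_pos_of_pos_of_lt_pi hc hcπ
  have hs1 : 0 ≤ Real.sin θ := Real.sin_nonneg_of_nonneg_of_le_pi hθ0 (by linarith)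
  have hs2 : 0 ≤ Real.sin (c - θ) := Real.sin_nonneg_of_nonneg_of_le_pi (by linarith) (by linarith)
  -- general bound: value at `θ` is at most `cos (a + θ)`
  have hb1 : Real.cos b ≤ Real.cos (a + c) := by
    have : Real.cos (a + c) = Real.cos (2 * Real.pi - (a + c)) := by
      rw [Real.cos_two_pi_sub]
    rw [this]
    apply Real.cos_le_cos_of_nonneg_of_le_pi <;> linarith
  have ha1 : Real.cos a ≤ Real.cos (b + c) := by
    have : Real.cos (b + c) = Real.cos (2 * Real.pi - (b + c)) := by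
      rw [Real.cos_two_pi_sub]
    rw [this]
    apply Real.cos_le_cos_of_nonneg_of_le_pi <;> linarith
  have g1 : Real.sin (c - θ) * Real.cos a + Real.sin θ * Real.cos b ≤ Real.sin c * Real.cos (a + θ) := by
    have e : Real.sin c * Real.cos (a + θ) = Real.sin (c - θ) * Real.cos a + Real.sin θ * Real.cos (a + c) := by
      rw [Real.sin_sub, Real.cos_add a θ, Real.cos_add a c]
      ring
    rw [e]
    nlinarith
  have g2 : Real.sin (c - θ) * Real.cos a + Real.sin θ * Real.cos b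
      ≤ Real.sin c * Real.cos (b + (c - θ)) := by
    have e : Real.sin c * Real.cos (b + (c - θ))
        = Real.sin (c - θ) * Real.cos (b + c) + Real.sin θ * Real.cos b := by
      have hp := Real.sin_sq_add_cos_sq c
      have hp' := Real.sin_sq_add_cos_sq θ
      rw [Real.cos_add b (c - θ), Real.sin_sub, Real.cos_sub, Real.cos_add b c]
      have : Real.sin θ * Real.cos b = Real.sin θ * Real.cos b * (Real.sin c ^ 2 + Real.cos c ^ 2) := by
        rw [hp, mul_one]
      rw [this]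
      ring
    rw [e]
    nlinarith
  rcases le_total (a + θ) Real.pi with h3 | h3
  · refine g1.trans ?_
    apply mul_le_mul_of_nonneg_left _ hsc.le
    exact Real.cos_le_cos_of_nonneg_of_le_pi hm0 h3 h1
  rcases le_total (b + (c - θ)) Real.pi with h4 | h4
  · refine g2.trans ?_
    apply mul_le_mul_of_nonneg_left _ hsc.le
    exact Real.cos_le_cos_of_nonneg_of_le_pi hm0 h4 h2
  · -- value at most `-1`
    -- compare with the points `θ₀ = π - a ≤ θ ≤ θ₁ = c + b - π`
    have h5 : Real.sin (c - θ) * Real.cos a + Real.sin θ * Real.cos b ≤ -Real.sin c := by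
      -- use cos a = -cos(π - a) etc.
      set α := Real.pi - a with hα
      set β := Real.pi - b with hβ
      have hca : Real.cos a = -Real.cos α := by rw [hα, Real.cos_pi_sub, neg_neg]
      have hcb : Real.cos b = -Real.cos β := by rw [hβ, Real.cos_pi_sub, neg_neg]
      have hα0 : 0 ≤ α := by linarith
      have hβ0 : 0 ≤ β := by linarith
      have hαθ : α ≤ θ := by linarith
      have hβθ : β ≤ c - θ := by linarith
      have k1 : Real.cos θ ≤ Real.cos α := Real.cos_le_cos_of_nonneg_of_le_pi hα0 (by linarith) hαθ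
      have k2 : Real.cos (c - θ) ≤ Real.cos β :=
        Real.cos_le_cos_of_nonneg_of_le_pi hβ0 (by linarith) hβθ
      have k3 : Real.sin c = Real.sin (c - θ) * Real.cos θ + Real.cos (c - θ) * Real.sin θ := by
        rw [← Real.sin_add]; congr 1; ring
      rw [hca, hcb, k3]
      nlinarith
    have h6 := Real.neg_one_le_cos m
    nlinarith

end Pool.Agent.Lib_bac815
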