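import Pool.Agent.Lib_bac815.Cone
import Pool.Agent.Lib_bac815.Sph

set_option autoImplicit false

namespace Pool.Agent.Lib_bac815

/-- CAT(0) inequality at all points of a geodesic. -/
def CAT0t {Y : Type} (d : Y → Y → ℝ) : Prop :=
  ∀ x y, ∀ t : ℝ, 0 ≤ t → t ≤ 1 → ∃ p, ∀ z,
    d z p ^ 2 ≤ (1 - t) * d z x ^ 2 + t * d z y ^ 2 - t * (1 - t) * d x y ^ 2

section

variable {Y : Type} {N : Type} [Group N] [MulAction N Y]

/-- quotient pseudometric -/
noncomputable def qd (N : Type) [Group N] [MulAction N Y] (d : Y → Y → ℝ) (x y : Y) : ℝ :=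
  ⨅ n : N, d x (n • y)

variable {d : Y → Y → ℝ} (hd : IsPM d) (hN : ∀ (n : N) (x y : Y), d (n • x) (n • y) = d x y)

include hd in
theorem qd_bdd (x y : Y) : BddBelow (Set.range fun n : N => d x (n • y)) :=
  ⟨0, by rintro _ ⟨n, rfl⟩; exact hd.nonneg _ _⟩

include hd in
theorem qd_le (x y : Y) (n : N) : qd N d x y ≤ d x (n • y) := ciInf_le (qd_bdd hd x y) n

include hd in
theorem qd_le_d (x y : Y) : qd N d x y ≤ d x y := by
  have := qd_le (N := N) hd x y 1
  rwa [one_smul] at this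

include hd hN in
theorem qd_pm : IsPM (qd N d) where
  self x := by
    apply le_antisymm
    · have := qd_le_d (N := N) hd x x
      rwa [hd.self] at this
    · exact le_ciInf fun n => hd.nonneg _ _
  symm x y := by
    have h : ∀ x y, qd N d x y ≤ qd N d y x := by
      intro x y
      apply le_ciInf
      intro n
      have h1 := qd_le (N := N) hd x y n⁻¹
      have h2 : d x (n⁻¹ • y) = d y (n • x) := by
        rw [← hN n x (n⁻¹ • y), smul_inv_smul, hd.symm]
      rwa [h2] at h1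
    exact le_antisymm (h x y) (h y x)
  tri x y z := by
    unfold qd
    apply le_ciInf_add_ciInf
    intro n m
    have h1 := qd_le (N := N) hd x z (n * m)
    have h2 := hd.tri x (n • y) ((n * m) • z)
    rw [mul_smul, hN] at h2
    rw [mul_smul] at h1
    exact h1.trans h2

include hd in
theorem qd_smul (x y : Y) (n : N) : qd N d x (n • y) = qd N d x y := by
  apply le_antisymm
  · apply le_ciInf
    intro m
    have := qd_le (N := N) hd x (n • y) (m * n⁻¹)
    rwa [mul_smul, inv_smul_smul] at this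
  · apply le_ciInf
    intro m
    have := qd_le (N := N) hd x y (m * n)
    rwa [mul_smul] at this

include hd hN in
theorem qd_realize {R : ℝ} (hR : ∀ n : N, n ≠ 1 → ∀ x, R ≤ d x (n • x)) (x y : Y)
    (h : qd N d x y < R / 2) : ∃ n : N, d x (n • y) = qd N d x y := by
  obtain ⟨n, hn⟩ := exists_lt_of_ciInf_lt h
  refine ⟨n, le_antisymm ?_ (qd_le hd x y n)⟩
  apply le_ciInf
  intro m
  by_cases hmn : m = n
  · rw [hmn]
  · have h1 := hR (n⁻¹ * m) (by
      intro h2
      apply hmn
      rw [inv_mul_eq_one] at h2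
      exact h2.symm) y
    rw [← hN n y, mul_smul, smul_inv_smul] at h1
    have h2 := hd.tri (n • y) x (m • y)
    rw [hd.symm (n • y) x] at h2
    linarith

/-- the angle function -/
noncomputable def ang (N : Type) [Group N] [MulAction N Y] (d : Y → Y → ℝ) (R : ℝ) (x y : Y) : ℝ :=
  min Real.pi (2 * Real.pi / R * qd N d x y)

theorem ang_le_pi (R : ℝ) (x y : Y) : ang N d R x y ≤ Real.pi := min_le_left _ _

include hd hN in
theorem ang_pm {R : ℝ} (hR : 0 < R) : IsPM (ang N d R) where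
  self x := by
    unfold ang
    rw [(qd_pm hd hN).self, mul_zero, min_eq_right Real.pi_pos.le]
  symm x y := by
    unfold ang
    rw [(qd_pm hd hN).symm]
  tri x y z := by
    unfold ang
    have hs : 0 < 2 * Real.pi / R := by positivity
    have h1 := mul_le_mul_of_nonneg_left ((qd_pm hd hN).tri x y z) hs.le
    have h2 := mul_nonneg hs.le ((qd_pm hd hN).nonneg x y)
    have h3 := mul_nonneg hs.le ((qd_pm hd hN).nonneg y z)
    have h4 := Real.pi_pos
    rcases min_cases Real.pi (2 * Real.pi / R * qd N d x y) with ⟨e1, e1'⟩ | ⟨e1, e1'⟩ <;>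
    rcases min_cases Real.pi (2 * Real.pi / R * qd N d y z) with ⟨e2, e2'⟩ | ⟨e2, e2'⟩ <;>
    rcases min_cases Real.pi (2 * Real.pi / R * qd N d x z) with ⟨e3, e3'⟩ | ⟨e3, e3'⟩ <;>
    rw [e1, e2, e3] <;> linarith

include hd hN in
theorem quot_c1 (hcat : CAT0t d) {R : ℝ} (hR0 : 0 < R)
    (hR : ∀ n : N, n ≠ 1 → ∀ x, R ≤ d x (n • x)) : C1 (ang N d R) := by
  have hs : 0 < 2 * Real.pi / R := by have := Real.pi_pos; positivity
  set s := 2 * Real.pi / R with hsdef
  have hsR : s * R = 2 * Real.pi := by rw [hsdef]; field_simp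
  have hpm := ang_pm (N := N) hd hN hR0
  have hqpm := qd_pm (N := N) hd hN
  have real : ∀ x y, ang N d R x y < Real.pi → ∃ n : N, s * d x (n • y) = ang N d R x y := by
    intro x y h
    have h1 : ang N d R x y = s * qd N d x y := by
      unfold ang at h ⊢
      rcases min_cases Real.pi (2 * Real.pi / R * qd N d x y) with ⟨e1, e1'⟩ | ⟨e1, e1'⟩
      · rw [e1] at h; exact absurd h (lt_irrefl _)
      · exact e1
    have h2 : qd N d x y < R / 2 := by
      rw [h1] at h
      have h3 : s * (R / 2) = Real.pi := by linarith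
      rw [← h3] at h
      exact lt_of_mul_lt_mul_left h hs.le
    obtain ⟨n, hn⟩ := qd_realize hd hN hR x y h2
    exact ⟨n, by rw [hn, h1]⟩
  intro x₁ x₂ hc0 hcπ θ hθ0 hθc
  obtain ⟨n₂, hn₂⟩ := real x₁ x₂ hcπ
  set c := ang N d R x₁ x₂ with hc
  set x₂' := n₂ • x₂ with hx₂'
  have ht0 : 0 ≤ θ / c := by positivity
  have ht1 : θ / c ≤ 1 := by rw [div_le_one hc0]; exact hθc
  set t := θ / c with ht
  have htc : c * t = θ := by rw [ht]; field_simp
  obtain ⟨p, hp⟩ := hcat x₁ x₂' t ht0 ht1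
  refine ⟨p, ?_⟩
  intro x₃
  have hang2 : ang N d R x₃ x₂' = ang N d R x₃ x₂ := by
    unfold ang; rw [hx₂', qd_smul hd]
  set a := ang N d R x₃ x₁ with ha
  set b := ang N d R x₃ x₂ with hb
  set m := ang N d R x₃ p with hm
  have ha0 : 0 ≤ a := hpm.nonneg _ _
  have hb0 : 0 ≤ b := hpm.nonneg _ _
  have hm0 : 0 ≤ m := hpm.nonneg _ _
  have haπ : a ≤ Real.pi := ang_le_pi _ _ _
  have hbπ : b ≤ Real.pi := ang_le_pi _ _ _
  have hang_le : ∀ x y (n : N), ang N d R x y ≤ s * d x (n • y) := by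
    intro x y n
    exact (min_le_right _ _).trans (mul_le_mul_of_nonneg_left (qd_le hd x y n) hs.le)
  rcases le_or_gt (2 * Real.pi) (a + b + c) with hbig | hsmall
  · apply sph_big a b c θ m haπ hbπ hc0 hcπ hbig hθ0 hθc hm0
    · -- m ≤ a + θ
      have h1 := hpm.tri x₃ x₁ p
      have h2 : ang N d R x₁ p ≤ θ := by
        have h3 := hang_le x₁ p 1
        rw [one_smul] at h3
        refine h3.trans ?_
        have h4 := hp x₁
        rw [hd.self] at h4
        have h5 : d x₁ p ^ 2 ≤ (t * d x₁ x₂') ^ 2 := by nlinarith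
        have h6 : d x₁ p ≤ t * d x₁ x₂' :=
          (sq_le_sq₀ (hd.nonneg _ _) (mul_nonneg ht0 (hd.nonneg _ _))).mp h5
        have h7 := mul_le_mul_of_nonneg_left h6 hs.le
        calc s * d x₁ p ≤ s * (t * d x₁ x₂') := h7
          _ = (s * d x₁ x₂') * t := by ring
          _ = θ := by rw [hn₂, htc]
      linarith
    · have h1 := hpm.tri x₃ x₂' p
      rw [hang2] at h1
      have h2 : ang N d R x₂' p ≤ c - θ := by
        have h3 := hang_le x₂' p 1
        rw [one_smul] at h3
        refine h3.trans ?_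
        have h4 := hp x₂'
        rw [hd.self, hd.symm x₂' x₁] at h4
        have h5 : d x₂' p ^ 2 ≤ ((1 - t) * d x₁ x₂') ^ 2 := by nlinarith
        have h6 : d x₂' p ≤ (1 - t) * d x₁ x₂' :=
          (sq_le_sq₀ (hd.nonneg _ _) (mul_nonneg (by linarith) (hd.nonneg _ _))).mp h5
        have h7 := mul_le_mul_of_nonneg_left h6 hs.le
        calc s * d x₂' p ≤ s * ((1 - t) * d x₁ x₂') := h7
          _ = (s * d x₁ x₂') - (s * d x₁ x₂') * t := by ring
          _ = c - θ := by rw [hn₂, htc]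
      linarith
  · have t1 : a ≤ b + c := by
      have := hpm.tri x₃ x₂ x₁
      rwa [hpm.symm x₂ x₁] at this
    have t2 : b ≤ a + c := hpm.tri x₃ x₁ x₂
    have t3 : c ≤ a + b := by
      have := hpm.tri x₁ x₃ x₂
      rwa [hpm.symm x₁ x₃] at this
    have haπ' : a < Real.pi := by
      by_contra hh
      push Not at hh
      linarith
    have hbπ' : b < Real.pi := by
      by_contra hh
      push Not at hh
      linarith
    obtain ⟨n₃, hn₃⟩ := real x₁ x₃ (by rw [hpm.symm]; exact haπ')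
    rw [hpm.symm, ← ha] at hn₃
    obtain ⟨n₃', hn₃'⟩ := real x₂' x₃ (by rw [hpm.symm, hang2]; exact hbπ')
    rw [hpm.symm, hang2] at hn₃'
    have hnn : n₃ = n₃' := by
      by_contra hne
      have h1 := hR (n₃⁻¹ * n₃') (by
        intro h2
        apply hne
        rw [inv_mul_eq_one] at h2
        exact h2) x₃
      rw [← hN n₃ x₃, mul_smul, smul_inv_smul] at h1
      have h2 := hd.tri (n₃ • x₃) x₁ (n₃' • x₃)
      have h3 := hd.tri x₁ x₂' (n₃' • x₃)
      rw [hd.symm (n₃ • x₃) x₁] at h2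
      have h4 : d (n₃ • x₃) (n₃' • x₃) ≤ d x₁ (n₃ • x₃) + d x₁ x₂' + d x₂' (n₃' • x₃) := by linarith
      have h5 := mul_le_mul_of_nonneg_left (h1.trans h4) hs.le
      rw [mul_add, mul_add, hn₃, hn₂, hn₃', hsR] at h5
      linarith
    rw [← hnn] at hn₃'
    set z := n₃ • x₃ with hz
    have hp1 := hp z
    rw [hd.symm z x₁, hd.symm z x₂'] at hp1
    set F := (1 - t) * a ^ 2 + t * b ^ 2 - t * (1 - t) * c ^ 2 with hF
    have h1 : (s * d z p) ^ 2 ≤ F := by
      rw [hF, ← hn₃, ← hn₃', ← hn₂]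
      have := mul_le_mul_of_nonneg_left hp1 (sq_nonneg s)
      nlinarith
    have h2 : m ≤ Real.sqrt F := by
      apply Real.le_sqrt_of_sq_le
      refine le_trans ?_ h1
      apply pow_le_pow_left₀ hm0
      have h3 := hang_le p x₃ n₃
      rw [hpm.symm, hd.symm] at h3
      exact h3
    have h3 : Real.sqrt F ≤ Real.pi := by
      apply Real.sqrt_le_iff.mpr
      refine ⟨Real.pi_pos.le, ?_⟩
      rw [hF]
      have e1 : a ^ 2 ≤ Real.pi ^ 2 := pow_le_pow_left₀ ha0 haπ 2
      have e2 : b ^ 2 ≤ Real.pi ^ 2 := pow_le_pow_left₀ hb0 hbπ 2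
      have e3 : 0 ≤ t * (1 - t) * c ^ 2 := by
        have : 0 ≤ 1 - t := by linarith
        positivity
      nlinarith
    have h4 := sph a b c ha0 haπ hb0 hbπ hc0 hcπ t1 t2 t3 t ht0 ht1
    rw [htc, show c * (1 - t) = c - θ by rw [mul_sub, mul_one, htc]] at h4
    refine h4.trans ?_
    apply mul_le_mul_of_nonneg_left _ (Real.sin_pos_of_pos_of_lt_pi hc0 hcπ).le
    exact Real.cos_le_cos_of_nonneg_of_le_pi hm0 h3 h2

end

end Pool.Agent.Lib_bac815
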