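import Pool.Agent.Lib_bac815.Abstract
import Pool.Agent.Lib_bac815.Cong
import Pool.Agent.Lib_bac815.Quot

set_option autoImplicit false

namespace Pool.Agent.Lib_bac815

open Matrix
open scoped Matrix.Norms.L2Operator

/-- the left invariant pseudometric on `G` -/
noncomputable def dG (g h : G) : ℝ := nu (g⁻¹ * h)

theorem dG_pm : IsPM dG where
  self x := by unfold dG; rw [inv_mul_cancel, nu_one]
  symm x y := by unfold dG; rw [← nu_inv, _root_.mul_inv_rev, inv_inv]
  tri x y z := by
    unfold dG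
    have : x⁻¹ * z = (x⁻¹ * y) * (y⁻¹ * z) := by group
    rw [this]
    exact nu_mul _ _

theorem dG_left (a x y : G) : dG (a * x) (a * y) = dG x y := by
  unfold dG
  congr 1
  group

theorem dG_cat : CAT0t dG := fun x y t ht0 ht1 => cat0 x y t ht0 ht1

theorem dG_smul (m : ℕ) (n : N m) (x y : G) : dG (n • x) (n • y) = dG x y :=
  dG_left (n : G) x y

theorem dG_disp {m : ℕ} (hm : 0 < m) (n : N m) (hn : n ≠ 1) (x : G) : sys m ≤ dG x (n • x) := by
  have h := displacement hm n.2 (by
    intro h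
    apply hn
    exact Subtype.ext h) x
  unfold dG
  have e : x⁻¹ * n • x = x⁻¹ * (n : G) * x := by
    show x⁻¹ * ((n : G) * x) = _
    rw [mul_assoc]
  rw [e]
  exact h

theorem sys_pos {m : ℕ} (hm : 2 ≤ m) : 0 < sys m := by
  unfold sys
  apply Real.log_pos
  have h : (2 : ℝ) ≤ m := by exact_mod_cast hm
  have h3 : (2 : ℝ) ^ 3 ≤ (m : ℝ) ^ 3 := pow_le_pow_left₀ (by norm_num) h 3
  linarith

/-- the angle on the base of the cone of level `m` -/
noncomputable def al (m : ℕ) (x y : G) : ℝ := ang (N m) dG (sys m) x y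

/-- the cone pseudometric of level `m` -/
noncomputable def cD (m : ℕ) (p q : NNReal × G) : ℝ := coneD (al m) p q

theorem al_pm {m : ℕ} (hm : 2 ≤ m) : IsPM (al m) := ang_pm dG_pm (dG_smul m) (sys_pos hm)

theorem al_le_pi (m : ℕ) (x y : G) : al m x y ≤ Real.pi := ang_le_pi _ _ _

theorem cD_pm {m : ℕ} (hm : 2 ≤ m) : IsPM (cD m) := cone_pm (al_pm hm) (al_le_pi m)

theorem cD_cn {m : ℕ} (hm : 2 ≤ m) : CN (cD m) :=
  cone_cn (al_pm hm) (al_le_pi m)
    (quot_c1 dG_pm (dG_smul m) dG_cat (sys_pos hm) (fun n hn x => dG_disp (by omega) n hn x))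

theorem al_le {m : ℕ} (hm : 2 ≤ m) (x y : G) : al m x y ≤ 2 * Real.pi / sys m * dG x y := by
  unfold al ang
  refine (min_le_right _ _).trans ?_
  apply mul_le_mul_of_nonneg_left (qd_le_d dG_pm x y)
  have := sys_pos hm
  have := Real.pi_pos
  positivity

theorem al_mem {m : ℕ} (hm : 2 ≤ m) {n : G} (hn : n ∈ N m) (x y : G) : al m x (n * y) = al m x y := by
  unfold al ang
  have := qd_smul (N := N m) dG_pm x y ⟨n, hn⟩
  have e : (⟨n, hn⟩ : N m) • y = n * y := rfl
  rw [e] at this
  rw [this]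

theorem al_left_le {m : ℕ} (hm : 2 ≤ m) {g : G} (hg : InO (mat g)) (x y : G) :
    al m (g * x) (g * y) ≤ al m x y := by
  unfold al ang
  have hs : 0 ≤ 2 * Real.pi / sys m := by
    have := sys_pos hm
    have := Real.pi_pos
    positivity
  apply min_le_min_left
  apply mul_le_mul_of_nonneg_left _ hs
  apply le_ciInf
  intro n
  have h1 := qd_le (N := N m) dG_pm (g * x) (g * y) ⟨g * n * g⁻¹, N_conj n.2 hg⟩
  refine h1.trans (le_of_eq ?_)
  have e : (⟨g * n * g⁻¹, N_conj n.2 hg⟩ : N m) • (g * y) = g * (n • y) := by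
    show g * n * g⁻¹ * (g * y) = g * (n * y)
    group
  rw [e, dG_left]

theorem al_left {m : ℕ} (hm : 2 ≤ m) {g : G} (hg : InO (mat g)) (x y : G) :
    al m (g * x) (g * y) = al m x y := by
  apply le_antisymm (al_left_le hm hg x y)
  have := al_left_le hm (inO_inv hg) (g * x) (g * y)
  rwa [inv_mul_cancel_left, inv_mul_cancel_left] at this

theorem abs_sub_le_eu (r s a : ℝ) (hr : 0 ≤ r) (hs : 0 ≤ s) : |r - s| ≤ eu r s a := by
  unfold eu
  apply Real.le_sqrt_of_sq_le
  rw [sq_abs]
  have := mul_le_mul_of_nonneg_left (Real.cos_le_one a) (mul_nonneg hr hs)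
  nlinarith

theorem eu_continuous : Continuous fun p : ℝ × ℝ × ℝ => eu p.1 p.2.1 p.2.2 := by
  unfold eu
  fun_prop

/-- angle tends to zero -/
theorem al_tendsto {m : ℕ} (hm : 2 ≤ m) (h : ℕ → G) (g : G)
    (hh : Filter.Tendsto (fun k => mat (h k)) Filter.atTop (nhds (mat g))) :
    Filter.Tendsto (fun k => al m (h k) g) Filter.atTop (nhds 0) := by
  have h1 : Filter.Tendsto (fun k => nl ((h k)⁻¹ * g)) Filter.atTop (nhds 0) := by
    unfold nl
    have e : ∀ k, mat ((h k)⁻¹ * g) = (mat (h k)).adjugate * mat g := fun k => by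
      rw [mat_mul, mat_inv]
    simp only [e]
    have h2 : Filter.Tendsto (fun k => (mat (h k)).adjugate * mat g) Filter.atTop
        (nhds ((mat g).adjugate * mat g)) := by
      have hc : Continuous fun A : M3 => A.adjugate * mat g := by
        exact (continuous_id.matrix_adjugate).mul continuous_const
      exact (hc.tendsto (mat g)).comp hh
    have e2 : (mat g).adjugate * mat g = 1 := by rw [← mat_inv, coe_inv_mul]
    rw [e2] at h2
    have h3 : Real.log ‖(1 : M3)‖ = 0 := by
      have := nl_one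
      unfold nl at this
      rwa [mat_one] at this
    rw [← h3]
    have hne : ‖(1 : M3)‖ ≠ 0 := by
      have := norm_pos (1 : G)
      rw [mat_one] at this
      exact this.ne'
    exact h2.norm.log hne
  have h2 : Filter.Tendsto (fun k => nl ((h k)⁻¹ * g)⁻¹) Filter.atTop (nhds 0) := by
    unfold nl
    have e : ∀ k, mat ((h k)⁻¹ * g)⁻¹ = mat g⁻¹ * mat (h k) := fun k => by
      rw [_root_.mul_inv_rev, inv_inv, mat_mul]
    simp only [e]
    have h2 : Filter.Tendsto (fun k => mat g⁻¹ * mat (h k)) Filter.atTop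
        (nhds (mat g⁻¹ * mat g)) := by
      have hc : Continuous fun A : M3 => mat g⁻¹ * A := by
        exact continuous_const.mul continuous_id
      exact (hc.tendsto (mat g)).comp hh
    rw [coe_inv_mul] at h2
    have h3 : Real.log ‖(1 : M3)‖ = 0 := by
      have := nl_one
      unfold nl at this
      rwa [mat_one] at this
    rw [← h3]
    have hne : ‖(1 : M3)‖ ≠ 0 := by
      have := norm_pos (1 : G)
      rw [mat_one] at this
      exact this.ne'
    exact h2.norm.log hne
  have h3 : Filter.Tendsto (fun k => 2 * Real.pi / sys m * dG (h k) g) Filter.atTop (nhds 0) := by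
    unfold dG nu Q
    have h4 := ((((h1.pow 2).sub (h1.mul h2)).add (h2.pow 2)).const_mul 2).sqrt.const_mul
      (2 * Real.pi / sys m)
    simpa using h4
  exact squeeze_zero (fun k => (al_pm hm).nonneg _ _) (fun k => al_le hm _ _) h3

theorem cD_cpl {m : ℕ} (hm : 2 ≤ m) : Cpl (cD m) := by
  intro u hu
  -- the radii converge
  have hr : CauchySeq fun k => ((u k).1 : ℝ) := by
    rw [Metric.cauchySeq_iff]
    intro ε hε
    obtain ⟨n, hn⟩ := hu ε hε
    refine ⟨n, fun k hk l hl => ?_⟩
    rw [Real.dist_eq]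
    exact (abs_sub_le_eu _ _ _ (u k).1.2 (u l).1.2).trans_lt (hn k hk l hl)
  obtain ⟨r, hr⟩ := cauchySeq_tendsto_of_complete hr
  have hr0 : 0 ≤ r := ge_of_tendsto' hr (fun k => (u k).1.2)
  -- the bases
  obtain ⟨K, hK⟩ := cocompact m (by omega)
  choose n hn hnK using fun k => hK (u k).2
  have : ProperSpace M3 := FiniteDimensional.proper ℝ M3
  have hcomp : IsCompact (Metric.closedBall (0 : M3) K) := isCompact_closedBall 0 K
  obtain ⟨A, -, φ, hφ, hA⟩ := hcomp.tendsto_subseq (x := fun k => mat (n k * (u k).2)) (by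
    intro k
    rw [mem_closedBall_zero_iff]
    exact hnK k)
  have hAdet : A.det = 1 := by
    have hc : Continuous fun A : M3 => A.det := continuous_id.matrix_det
    have h1 := (hc.tendsto A).comp hA
    have h2 : (fun k => ((fun A : M3 => A.det) ∘ ((fun k => mat (n k * (u k).2)) ∘ φ)) k)
        = fun _ => (1 : ℝ) := by
      funext k
      exact mat_det _
    have h3 := tendsto_nhds_unique h1 (by
      rw [show ((fun A : M3 => A.det) ∘ ((fun k => mat (n k * (u k).2)) ∘ φ))
        = fun _ => (1 : ℝ) from h2]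
      exact tendsto_const_nhds)
    exact h3
  let g : G := ⟨A, hAdet⟩
  have hal : Filter.Tendsto (fun k => al m (n (φ k) * (u (φ k)).2) g) Filter.atTop (nhds 0) :=
    al_tendsto hm _ g hA
  have hal' : Filter.Tendsto (fun k => al m (u (φ k)).2 g) Filter.atTop (nhds 0) := by
    have e : ∀ k, al m (n (φ k) * (u (φ k)).2) g = al m (u (φ k)).2 g := by
      intro k
      rw [(al_pm hm).symm, al_mem hm (hn (φ k)), (al_pm hm).symm]
    simpa only [e] using hal
  refine ⟨(⟨r, hr0⟩, g), ?_⟩
  have hlim : Filter.Tendsto (fun k => cD m (u (φ k)) (⟨r, hr0⟩, g)) Filter.atTop (nhds 0) := by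
    have h1 : Filter.Tendsto (fun k => (((u (φ k)).1 : ℝ), r, al m (u (φ k)).2 g)) Filter.atTop
        (nhds (r, r, 0)) :=
      (hr.comp hφ.tendsto_atTop).prodMk_nhds (tendsto_const_nhds.prodMk_nhds hal')
    have h2 := (eu_continuous.tendsto (r, r, 0)).comp h1
    have h3 : eu r r 0 = 0 := by
      unfold eu
      rw [Real.cos_zero]
      have : r ^ 2 + r ^ 2 - 2 * r * r * 1 = 0 := by ring
      rw [this, Real.sqrt_zero]
    simp only [h3] at h2
    exact h2
  intro ε hε
  obtain ⟨n₁, hn₁⟩ := hu (ε / 2) (by positivity)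
  rw [Metric.tendsto_atTop] at hlim
  obtain ⟨n₂, hn₂⟩ := hlim (ε / 2) (by positivity)
  refine ⟨n₁, fun k hk => ?_⟩
  have h1 := hn₂ (max n₁ n₂) (le_max_right _ _)
  rw [Real.dist_0_eq_abs, abs_of_nonneg ((cD_pm hm).nonneg _ _)] at h1
  have h2 := hn₁ k hk (φ (max n₁ n₂)) ((le_max_left _ _).trans (hφ.id_le _))
  have h3 := (cD_pm hm).tri (u k) (u (φ (max n₁ n₂))) (⟨r, hr0⟩, g)
  linarith

end Pool.Agent.Lib_bac815
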