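import Pool.Agent.Lib_bac815.Main1

set_option autoImplicit false

namespace Pool.Agent.Lib_bac815

open Matrix
open scoped Matrix.Norms.L2Operator

/-- the action on the cone -/
def act (g : G) (p : NNReal × G) : NNReal × G := (p.1, g * p.2)

theorem act_one (p : NNReal × G) : act 1 p = p := by
  unfold act
  rw [one_mul]

theorem act_mul (g h : G) (p : NNReal × G) : act (g * h) p = act g (act h p) := by
  unfold act
  rw [mul_assoc]

theorem cD_left {m : ℕ} (hm : 2 ≤ m) {g : G} (hg : InO (mat g)) (p q : NNReal × G) :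
    cD m (act g p) (act g q) = cD m p q := by
  unfold cD coneD act
  simp only [al_left hm hg]

theorem cD_mem {m : ℕ} (hm : 2 ≤ m) {g : G} (hg : g ∈ N m) (p : NNReal × G) :
    cD m (act g p) p = 0 := by
  rw [(cD_pm hm).symm]
  have h := (cD_pm hm).self p
  unfold cD coneD act at *
  simp only [al_mem hm hg]
  exact h

theorem eu_one_le (a : ℝ) (ha : 0 ≤ a) : eu 1 1 a ≤ a := by
  unfold eu
  apply Real.sqrt_le_iff.mpr
  refine ⟨ha, ?_⟩
  have := Real.one_sub_sq_div_two_le_cos (x := a)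
  linarith

theorem cD_base {m : ℕ} (hm : 2 ≤ m) (g : G) :
    cD m (act g (1, 1)) (1, 1) ≤ 2 * Real.pi / sys m * nu g := by
  unfold cD coneD act
  simp only [NNReal.coe_one]
  refine (eu_one_le _ ((al_pm hm).nonneg _ _)).trans ((al_le hm _ _).trans (le_of_eq ?_))
  unfold dG
  rw [mul_one, mul_one, nu_inv]

theorem nu_pow (g : G) (k : ℕ) : nu (g ^ k) ≤ k * nu g := by
  induction k with
  | zero => simp [nu_one]
  | succ k ih =>
    rw [pow_succ]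
    refine (nu_mul _ _).trans ?_
    push_cast
    linarith

theorem sys_tendsto : Filter.Tendsto (fun m : ℕ => sys m) Filter.atTop Filter.atTop := by
  unfold sys
  apply Real.tendsto_log_atTop.comp
  apply Filter.Tendsto.atTop_div_const (by norm_num)
  exact (Filter.tendsto_pow_atTop (by norm_num)).comp tendsto_natCast_atTop_atTop

/-- one step in the choice of the levels -/
theorem level_step (γ : G) (hγ : InO (mat γ)) (n J : ℕ) (hJ : 0 < J) :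
    ∃ m J' : ℕ, 2 ≤ m ∧ 2 ∣ m ∧ |(mat γ - 1).det| < (m : ℝ) ^ 3 ∧
      2 * Real.pi / sys m * J ≤ (1 / 2 : ℝ) ^ n ∧ J ∣ J' ∧ J < J' ∧ γ ^ J' ∈ N m := by
  have h1 := sys_tendsto.eventually_ge_atTop (2 * Real.pi * J * 2 ^ n)
  have h2 : ∀ᶠ m : ℕ in Filter.atTop, |(mat γ - 1).det| + 1 ≤ (m : ℝ) ^ 3 :=
    ((Filter.tendsto_pow_atTop (by norm_num)).comp tendsto_natCast_atTop_atTop).eventually_ge_atTop _
  obtain ⟨m₀, hm₀⟩ := Filter.eventually_atTop.mp (h1.and h2)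
  obtain ⟨h3, h4⟩ := hm₀ (2 * (m₀ + 1)) (by omega)
  obtain ⟨j, hj, hj'⟩ := exists_pow_mem γ hγ (2 * (m₀ + 1)) (by omega)
  have hs : 0 < sys (2 * (m₀ + 1)) := sys_pos (by omega)
  refine ⟨2 * (m₀ + 1), J * (2 * j), by omega, Dvd.intro _ rfl, by linarith, ?_, Dvd.intro _ rfl,
    by nlinarith, ?_⟩
  · have h5 : (1 / 2 : ℝ) ^ n * 2 ^ n = 1 := by
      rw [← mul_pow]; norm_num
    have h6 : 2 * Real.pi / sys (2 * (m₀ + 1)) * J = 2 * Real.pi * J / sys (2 * (m₀ + 1)) := by ring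
    rw [h6, div_le_iff₀ hs]
    have h7 := mul_le_mul_of_nonneg_left h3 (by positivity : (0 : ℝ) ≤ (1 / 2 : ℝ) ^ n)
    calc 2 * Real.pi * J = (1 / 2 : ℝ) ^ n * (2 * Real.pi * J * 2 ^ n) := by
          rw [show (1 / 2 : ℝ) ^ n * (2 * Real.pi * J * 2 ^ n)
            = ((1 / 2 : ℝ) ^ n * 2 ^ n) * (2 * Real.pi * J) by ring, h5, one_mul]
      _ ≤ _ := h7
  · have e : γ ^ (J * (2 * j)) = (γ ^ j) ^ (J * 2) := by
      rw [← pow_mul]; congr 1; ring
    rw [e]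
    exact pow_mem hj' _

theorem levels (γ : G) (hγ : InO (mat γ)) : ∃ m J : ℕ → ℕ,
    (∀ n, 2 ≤ m n) ∧ (∀ n, 2 ∣ m n) ∧ (∀ n, |(mat γ - 1).det| < (m n : ℝ) ^ 3) ∧
    (∀ n k, k ≤ n → 2 * Real.pi / sys (m n) * J k ≤ (1 / 2 : ℝ) ^ n) ∧ (∀ k, k < J k) ∧
    (∀ n k, n < k → γ ^ J k ∈ N (m n)) := by
  choose fm fJ h1 h2 h3 h4 h5 h6 h7 using fun (n : ℕ) (J : {J : ℕ // 0 < J}) =>
    level_step γ hγ n J.1 J.2
  let J : ℕ → {J : ℕ // 0 < J} := fun n => Nat.rec ⟨1, one_pos⟩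
    (fun n J => ⟨fJ n J, lt_trans J.2 (h6 n J)⟩) n
  have hJs : ∀ n, (J (n + 1)).1 = fJ n (J n) := fun n => rfl
  have hlt : ∀ n, (J n).1 < (J (n + 1)).1 := fun n => by rw [hJs]; exact h6 n (J n)
  have hdvd1 : ∀ n, (J n).1 ∣ (J (n + 1)).1 := fun n => by rw [hJs]; exact h5 n (J n)
  have hmono : StrictMono fun n => (J n).1 := strictMono_nat_of_lt_succ hlt
  have hdvd : ∀ n k, n ≤ k → (J n).1 ∣ (J k).1 := by
    intro n k hnk
    induction k, hnk using Nat.le_induction with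
    | base => exact dvd_rfl
    | succ k _ ih => exact ih.trans (hdvd1 k)
  refine ⟨fun n => fm n (J n), fun n => (J n).1, fun n => h1 n (J n), fun n => h2 n (J n),
    fun n => h3 n (J n), ?_, ?_, ?_⟩
  · intro n k hkn
    refine le_trans ?_ (h4 n (J n))
    have hs : 0 < sys (fm n (J n)) := sys_pos (h1 n (J n))
    apply mul_le_mul_of_nonneg_left
    · exact_mod_cast hmono.monotone hkn
    · have := Real.pi_pos
      positivity
  · intro k
    induction k with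
    | zero => exact (J 0).2
    | succ k ih => exact lt_of_le_of_lt ih (hlt k)
  · intro n k hnk
    obtain ⟨c, hc⟩ := hdvd (n + 1) k hnk
    show γ ^ (J k).1 ∈ N (fm n (J n))
    rw [hc, hJs, pow_mul]
    exact pow_mem (h7 n (J n)) c

theorem al_pos {m : ℕ} (hm : 2 ≤ m) (hm2 : 2 ∣ m) (γ : G) (hγ : γ ∈ N 2) (hγ1 : γ ≠ 1)
    (hdet : |(mat γ - 1).det| < (m : ℝ) ^ 3) (y : G) : 0 < al m (γ * y) y := by
  unfold al ang
  apply lt_min Real.pi_pos
  have hs : 0 < sys m := sys_pos hm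
  have := Real.pi_pos
  apply mul_pos (by positivity)
  have h2 : 0 < sys 2 := sys_pos le_rfl
  refine h2.trans_le ?_
  apply le_ciInf
  intro n
  have h3 : dG (γ * y) (n • y) = nu (y⁻¹ * (γ⁻¹ * n) * y) := by
    unfold dG
    have : (γ * y)⁻¹ * n • y = y⁻¹ * (γ⁻¹ * n) * y := by
      show (γ * y)⁻¹ * ((n : G) * y) = _
      group
    rw [this]
  rw [h3]
  apply displacement (by norm_num)
  · exact mul_mem (inv_mem hγ) (N_le hm2 n.2)
  · intro h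
    rw [inv_mul_eq_one] at h
    have h4 : γ ∈ N m := by rw [h]; exact n.2
    exact absurd (det_sub_one_ge h4 hγ1) (not_le.mpr hdet)

/-- base points -/
def bb : ℕ → NNReal × G := fun _ => (1, 1)

/-- the distances on the factors -/
noncomputable def DD (m : ℕ → ℕ) (n : ℕ) : NNReal × G → NNReal × G → ℝ := cD (m n)

section

variable {m : ℕ → ℕ} (hm : ∀ n, 2 ≤ m n)

include hm in
theorem DD_pm (n : ℕ) : IsPM (DD m n) := cD_pm (hm n)

include hm in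
theorem s_pos (n : ℕ) : 0 < 2 * Real.pi / sys (m n) := by
  have := sys_pos (hm n)
  have := Real.pi_pos
  positivity

/-- estimate for the displacement -/
theorem est {D : NNReal × G → NNReal × G → ℝ} (hD : IsPM D) (z b : NNReal × G) (g : G) (e : ℝ)
    (h1 : D (act g z) (act g b) = D z b) (h2 : D (act g b) b ≤ e) :
    D (act g z) b ^ 2 ≤ 2 * D z b ^ 2 + 2 * e ^ 2 ∧ D (act g z) z ^ 2 ≤ 8 * D z b ^ 2 + 2 * e ^ 2 := by
  have h3 := hD.tri (act g z) (act g b) b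
  rw [h1] at h3
  have h4 := hD.tri (act g z) b z
  rw [hD.symm b z] at h4
  have h5 := hD.nonneg (act g z) b
  have h6 := hD.nonneg (act g z) z
  have h7 : D (act g z) b ≤ D z b + e := by linarith
  have h8 : D (act g z) z ≤ 2 * D z b + e := by linarith
  constructor
  · calc D (act g z) b ^ 2 ≤ (D z b + e) ^ 2 := pow_le_pow_left₀ h5 h7 2
      _ ≤ _ := by nlinarith [sq_nonneg (D z b - e)]
  · calc D (act g z) z ^ 2 ≤ (2 * D z b + e) ^ 2 := pow_le_pow_left₀ h6 h8 2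
      _ ≤ _ := by nlinarith [sq_nonneg (2 * D z b - e)]

theorem quarter (n : ℕ) (c : ℝ) : 2 * ((1 / 2 : ℝ) ^ n * c) ^ 2 = 2 * c ^ 2 * (1 / 4 : ℝ) ^ n := by
  have h9 : ((1 / 2 : ℝ) ^ n) ^ 2 = (1 / 4 : ℝ) ^ n := by
    rw [← pow_mul, mul_comm n 2, pow_mul]; norm_num
  rw [mul_pow, h9]; ring

theorem hgeo : Summable fun n : ℕ => ((1 / 4 : ℝ)) ^ n :=
  summable_geometric_of_lt_one (by norm_num) (by norm_num)

include hm in
theorem hsum (hs1 : ∀ n, 2 * Real.pi / sys (m n) ≤ (1 / 2 : ℝ) ^ n) (g : G) (hg : InO (mat g))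
    (z : PX (DD m) bb) : Summable fun n => DD m n (act g (z.1 n)) (bb n) ^ 2 := by
  apply Summable.of_nonneg_of_le (fun n => sq_nonneg _) _
    ((z.2.mul_left 2).add (hgeo.mul_left (2 * nu g ^ 2)))
  intro n
  have h3 : DD m n (act g (bb n)) (bb n) ≤ 2 * Real.pi / sys (m n) * nu g := cD_base (hm n) g
  have h4 : 2 * Real.pi / sys (m n) * nu g ≤ (1 / 2 : ℝ) ^ n * nu g :=
    mul_le_mul_of_nonneg_right (hs1 n) (nu_nonneg g)
  have h5 := (est (DD_pm hm n) (z.1 n) (bb n) g _ (cD_left (hm n) hg _ _) (h3.trans h4)).1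
  rw [quarter] at h5
  exact h5

end

theorem no_fix {m : ℕ → ℕ} (hm : ∀ n, 2 ≤ m n) (hm2 : ∀ n, 2 ∣ m n) (γ : G) (hγ : γ ∈ N 2)
    (hγ1 : γ ≠ 1) (hdet : ∀ n, |(mat γ - 1).det| < (m n : ℝ) ^ 3) (z : PX (DD m) bb)
    (h : ∀ n, DD m n (act γ (z.1 n)) (z.1 n) = 0) : False := by
  have h1 : ∀ n, (z.1 n).1 = 0 := by
    intro n
    have h4 : eu (z.1 n).1 (z.1 n).1 (al (m n) (γ * (z.1 n).2) (z.1 n).2) = 0 := h n
    have h5 := eu_sq (z.1 n).1 (z.1 n).1 (al (m n) (γ * (z.1 n).2) (z.1 n).2) (z.1 n).1.2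
      (z.1 n).1.2
    rw [h4] at h5
    have h6 := al_pos (hm n) (hm2 n) γ hγ hγ1 (hdet n) (z.1 n).2
    have h7 : Real.cos (al (m n) (γ * (z.1 n).2) (z.1 n).2) < 1 := by
      rw [← Real.cos_zero]
      exact Real.cos_lt_cos_of_nonneg_of_le_pi le_rfl (al_le_pi _ _ _) h6
    by_contra hne
    have h8 : (0 : ℝ) < (z.1 n).1 := by
      have : 0 < (z.1 n).1 := pos_iff_ne_zero.mpr hne
      exact_mod_cast this
    have h9 : 0 < ((z.1 n).1 : ℝ) ^ 2 * (1 - Real.cos (al (m n) (γ * (z.1 n).2) (z.1 n).2)) := by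
      apply mul_pos (by positivity)
      linarith
    nlinarith
  have h2 : ∀ n, DD m n (z.1 n) (bb n) ^ 2 = 1 := by
    intro n
    have h3 : DD m n (z.1 n) (bb n) = eu (z.1 n).1 1 (al (m n) (z.1 n).2 1) := rfl
    rw [h3, h1 n]
    unfold eu
    simp
  have h3 := z.2
  have h4 : (fun n => DD m n (z.1 n) (bb n) ^ 2) = fun _ => (1 : ℝ) := funext h2
  rw [h4] at h3
  exact one_ne_zero (tendsto_nhds_unique tendsto_const_nhds h3.tendsto_atTop_zero)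

theorem small {m J : ℕ → ℕ} (hm : ∀ n, 2 ≤ m n) (γ : G) (hγ : InO (mat γ))
    (hsJ : ∀ n k, k ≤ n → 2 * Real.pi / sys (m n) * J k ≤ (1 / 2 : ℝ) ^ n)
    (hJN : ∀ n k, n < k → γ ^ J k ∈ N (m n)) (z : PX (DD m) bb) (ε : ℝ) (hε : 0 < ε) :
    ∃ k₀, ∀ k, k₀ ≤ k → ∀ w : PX (DD m) bb, (∀ n, w.1 n = act (γ ^ J k) (z.1 n)) →
      pd (DD m) bb w z < ε := by
  let f : ℕ → ℝ := fun n => 8 * DD m n (z.1 n) (bb n) ^ 2 + 2 * nu γ ^ 2 * (1 / 4 : ℝ) ^ n
  have hf : Summable f := (z.2.mul_left 8).add (hgeo.mul_left (2 * nu γ ^ 2))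
  have htail := tendsto_sum_nat_add f
  rw [Metric.tendsto_atTop] at htail
  obtain ⟨k₀, hk₀⟩ := htail (ε ^ 2) (by positivity)
  refine ⟨k₀, fun k hk w hw => ?_⟩
  have hk₁ := hk₀ k hk
  rw [Real.dist_0_eq_abs] at hk₁
  have hzero : ∀ n, n < k → DD m n (w.1 n) (z.1 n) ^ 2 = 0 := by
    intro n hn
    rw [hw, show DD m n (act (γ ^ J k) (z.1 n)) (z.1 n) = 0 from cD_mem (hm n) (hJN n k hn) _]
    norm_num
  have hle : ∀ n, k ≤ n → DD m n (w.1 n) (z.1 n) ^ 2 ≤ f n := by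
    intro n hn
    rw [hw]
    have hgO : InO (mat (γ ^ J k)) := by rw [mat_pow]; exact hγ.pow _
    have h4 : DD m n (act (γ ^ J k) (bb n)) (bb n) ≤ 2 * Real.pi / sys (m n) * nu (γ ^ J k) :=
      cD_base (hm n) _
    have h5 : 2 * Real.pi / sys (m n) * nu (γ ^ J k) ≤ (1 / 2 : ℝ) ^ n * nu γ := by
      calc 2 * Real.pi / sys (m n) * nu (γ ^ J k)
          ≤ 2 * Real.pi / sys (m n) * (J k * nu γ) :=
            mul_le_mul_of_nonneg_left (nu_pow γ (J k)) (s_pos hm n).le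
        _ = (2 * Real.pi / sys (m n) * J k) * nu γ := by ring
        _ ≤ (1 / 2 : ℝ) ^ n * nu γ := mul_le_mul_of_nonneg_right (hsJ n k hn) (nu_nonneg γ)
    have h6 := (est (DD_pm hm n) (z.1 n) (bb n) (γ ^ J k) _ (cD_left (hm n) hgO _ _)
      (h4.trans h5)).2
    rw [quarter] at h6
    exact h6
  have hS := pd_summable (DD_pm hm) w z
  have hfk : Summable fun i => f (i + k) := (summable_nat_add_iff k).mpr hf
  have hSk : Summable fun i => DD m (i + k) (w.1 (i + k)) (z.1 (i + k)) ^ 2 :=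
    (summable_nat_add_iff (f := fun i => DD m i (w.1 i) (z.1 i) ^ 2) k).mpr hS
  unfold pd
  rw [Real.sqrt_lt' hε, ← hS.sum_add_tsum_nat_add k, Finset.sum_eq_zero (fun n hn =>
    hzero n (Finset.mem_range.mp hn)), zero_add]
  refine (hSk.tsum_le_tsum (fun i => hle (i + k) (Nat.le_add_left _ _)) hfk).trans_lt ?_
  exact (le_abs_self _).trans_lt hk₁

/-- the action on the product -/
noncomputable def AA {m : ℕ → ℕ} (hm : ∀ n, 2 ≤ m n)
    (hs1 : ∀ n, 2 * Real.pi / sys (m n) ≤ (1 / 2 : ℝ) ^ n) (g : N 2) (z : PX (DD m) bb) :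
    PX (DD m) bb := ⟨fun n => act g (z.1 n), hsum hm hs1 g (inO_of_mem g.2) z⟩

theorem AA_apply {m : ℕ → ℕ} (hm : ∀ n, 2 ≤ m n)
    (hs1 : ∀ n, 2 * Real.pi / sys (m n) ≤ (1 / 2 : ℝ) ^ n) (g : N 2) (z : PX (DD m) bb) (n : ℕ) :
    (AA hm hs1 g z).1 n = act g (z.1 n) := rfl

theorem AA_dist {m : ℕ → ℕ} (hm : ∀ n, 2 ≤ m n)
    (hs1 : ∀ n, 2 * Real.pi / sys (m n) ≤ (1 / 2 : ℝ) ^ n) (g : N 2) (z w : PX (DD m) bb) :
    pd (DD m) bb (AA hm hs1 g z) (AA hm hs1 g w) = pd (DD m) bb z w := by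
  have e : ∀ n, DD m n ((AA hm hs1 g z).1 n) ((AA hm hs1 g w).1 n) = DD m n (z.1 n) (w.1 n) :=
    fun n => cD_left (hm n) (inO_of_mem g.2) _ _
  unfold pd
  simp only [e]

/-- the base point of the product -/
noncomputable def b0 {m : ℕ → ℕ} (hm : ∀ n, 2 ≤ m n) : PX (DD m) bb :=
  ⟨bb, by
    have hb0 : ∀ n, DD m n (bb n) (bb n) ^ 2 = 0 := fun n => by rw [(DD_pm hm n).self]; norm_num
    simp only [hb0]
    exact summable_zero⟩

theorem main_aux (γ : G) (hγ : γ ∈ N 2) (u : Fin 3 → ℝ) (hu' : mat γ = diagonal u)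
    (hu : ∀ i j, i ≠ j → |u i| ≠ |u j|) :
    ∃ (X : Type) (_ : MetricSpace X), IsCompleteCAT0 X ∧ ∃ ρ : N 2 →* (X ≃ᵢ X),
      ∀ Z : Set X, Admissible ρ Z → ¬ AlmostExtends ρ Z := by
  have hγ1 : γ ≠ 1 := by
    rintro rfl
    rw [mat_one, ← diagonal_one] at hu'
    have h1 := diagonal_injective hu'
    apply hu 0 1 (by decide)
    rw [← h1]
  obtain ⟨m, J, hm, hm2, hdet, hsJ, hJ, hJN⟩ := levels γ (inO_of_mem hγ)
  have hs1 : ∀ n, 2 * Real.pi / sys (m n) ≤ (1 / 2 : ℝ) ^ n := by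
    intro n
    refine le_trans ?_ (hsJ n 0 (Nat.zero_le _))
    have h1 : (1 : ℝ) ≤ J 0 := by exact_mod_cast hJ 0
    have := s_pos hm n
    nlinarith
  have a1 : ∀ z, AA hm hs1 1 z = z := by
    intro z
    apply Subtype.ext
    funext n
    rw [AA_apply]
    exact act_one _
  have a2 : ∀ g h z, AA hm hs1 (g * h) z = AA hm hs1 g (AA hm hs1 h z) := by
    intro g h z
    apply Subtype.ext
    funext n
    rw [AA_apply, AA_apply, AA_apply]
    exact act_mul _ _ _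
  have a3 : ∀ z : PX (DD m) bb, ∀ ε : ℝ, 0 < ε → ∀ J : ℕ, ∃ k, J ≤ k ∧
      pd (DD m) bb (AA hm hs1 (⟨γ, hγ⟩ ^ k) z) z < ε := by
    intro z ε hε J₀
    obtain ⟨k₀, hk₀⟩ := small hm γ (inO_of_mem hγ) hsJ hJN z ε hε
    refine ⟨J (max k₀ J₀), (le_max_right k₀ J₀).trans (hJ _).le, ?_⟩
    exact hk₀ _ (le_max_left _ _) _ (fun n => rfl)
  have a4 : ∀ z : PX (DD m) bb, 0 < pd (DD m) bb (AA hm hs1 ⟨γ, hγ⟩ z) z := by
    intro z
    apply lt_of_le_of_ne ((pd_pm (DD_pm hm)).nonneg _ _)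
    intro h0
    apply no_fix hm hm2 γ hγ hγ1 hdet z
    intro n
    have h2 := coord_le (DD_pm hm) (AA hm hs1 ⟨γ, hγ⟩ z) z n
    rw [← h0] at h2
    exact le_antisymm h2 ((DD_pm hm n).nonneg _ _)
  exact abstract_main (pd (DD m) bb) (pd_pm (DD_pm hm)) (pd_cn (DD_pm hm) fun n => cD_cn (hm n))
    (pd_cpl (DD_pm hm) fun n => cD_cpl (hm n)) (b0 hm) (AA hm hs1)
    a1 a2 (AA_dist hm hs1) ⟨γ, hγ⟩ u hu' hu a3 a4

end Pool.Agent.Lib_bac815
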