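import Pool.Agent.Lib_bac815.Main2

set_option autoImplicit false

namespace Pool.Agent.Lib_bac815

open Matrix
open scoped Matrix.Norms.L2Operator

/-- the unit `-θ` as a diagonal matrix -/
noncomputable def g0 : G := ⟨diagonal fun i => -th i, by
  rw [det_diagonal, Fin.prod_univ_three]
  have := th_e3
  linear_combination -this⟩

theorem mat_g0 : mat g0 = diagonal fun i => -th i := rfl

theorem g0_inO : InO (mat g0) := by
  refine ⟨![![0, -1, 0], 0, 0], ?_⟩
  rw [mat_g0]
  ext i j
  fin_cases i <;> fin_cases j <;> simp [T, cs, cst, v]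

theorem mat_g0_pow (j : ℕ) : mat (g0 ^ j) = diagonal fun i => (-th i) ^ j := by
  rw [mat_pow, mat_g0, diagonal_pow]
  rfl

theorem pow_ne {a b : ℝ} (ha : 0 ≤ a) (hab : a < b) {j : ℕ} (hj : 0 < j) : a ^ j < b ^ j :=
  pow_lt_pow_left₀ hab ha (by omega)

theorem main_SL3 : ∃ (X : Type) (_ : MetricSpace X), IsCompleteCAT0 X ∧ ∃ ρ : N 2 →* (X ≃ᵢ X),
    ∀ Z : Set X, Admissible ρ Z → ¬ AlmostExtends ρ Z := by
  obtain ⟨j, hj, hj'⟩ := exists_pow_mem g0 g0_inO 2 (by norm_num)
  apply main_aux (g0 ^ j) hj' (fun i => (-th i) ^ j) (mat_g0_pow j)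
  have t0 := th0_bound
  have t1 := th1_bound
  have t2 := th2_bound
  have a0 : |th 0| = th 0 := abs_of_pos (by linarith [t0.1])
  have a1 : |th 1| = th 1 := abs_of_pos (by linarith [t1.1])
  have a2 : |th 2| = -th 2 := abs_of_neg (by linarith)
  have h10 : |th 1| ^ j < |th 0| ^ j := pow_ne (abs_nonneg _) (by rw [a0, a1]; linarith) hj
  have h02 : |th 0| ^ j < |th 2| ^ j := pow_ne (abs_nonneg _) (by rw [a0, a2]; linarith) hj
  intro i k hik
  simp only [abs_pow, abs_neg]
  fin_cases i <;> fin_cases k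
  · exact absurd rfl hik
  · exact h10.ne'
  · exact h02.ne
  · exact h10.ne
  · exact absurd rfl hik
  · exact (h10.trans h02).ne
  · exact h02.ne'
  · exact (h10.trans h02).ne'
  · exact absurd rfl hik

theorem mat_continuous : Continuous mat := continuous_subtype_val

theorem discrete_N2 : DiscreteTopology (N 2) := by
  apply discreteTopology_of_isOpen_singleton_one
  have h : ({1} : Set (N 2)) = {x : N 2 | |(mat (x : G) - 1).det| < 8} := by
    ext x
    simp only [Set.mem_singleton_iff, Set.mem_ofPred_eq]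
    constructor
    · rintro rfl
      show |(mat (1 : G) - 1).det| < 8
      rw [mat_one, sub_self]
      simp
    · intro hx
      by_contra hne
      have h1 : (x : G) ≠ 1 := fun h => hne (Subtype.ext h)
      have h2 := det_sub_one_ge x.2 h1
      norm_num at h2
      linarith
  rw [h]
  apply isOpen_lt _ continuous_const
  have h1 : Continuous fun x : N 2 => mat (x : G) - 1 :=
    (mat_continuous.comp continuous_subtype_val).sub continuous_const
  exact h1.matrix_det.abs

theorem isCompact_le (K : ℝ) : IsCompact {g : G | ‖mat g‖ ≤ K} := by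
  have : ProperSpace M3 := FiniteDimensional.proper ℝ M3
  have hcomp : IsCompact (Metric.closedBall (0 : M3) K) := isCompact_closedBall 0 K
  have h := (SpecialLinearGroup.isClosedEmbedding_val (n := Fin 3) (R := ℝ)).isCompact_preimage hcomp
  have e : {g : G | ‖mat g‖ ≤ K} = (fun g : G => (g.1 : M3)) ⁻¹' Metric.closedBall (0 : M3) K := by
    ext g
    simp only [Set.mem_ofPred_eq, Set.mem_preimage, mem_closedBall_zero_iff]
    rfl
  rw [e]
  exact h

theorem compact_N2 : CompactSpace (G ⧸ N 2) := by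
  obtain ⟨K, hK⟩ := cocompact 2 (by norm_num)
  have h1 := (isCompact_le K).inv
  have h2 := h1.image (continuous_quotient_mk' : Continuous (QuotientGroup.mk : G → G ⧸ N 2))
  refine ⟨?_⟩
  have e : (Set.univ : Set (G ⧸ N 2)) = QuotientGroup.mk '' ({g : G | ‖mat g‖ ≤ K})⁻¹ := by
    symm
    rw [Set.eq_univ_iff_forall]
    intro x
    obtain ⟨g, rfl⟩ := QuotientGroup.mk_surjective x
    obtain ⟨u, hu, huK⟩ := hK g⁻¹
    refine ⟨g * u⁻¹, ?_, ?_⟩
    · rw [Set.mem_inv, _root_.mul_inv_rev, inv_inv]
      exact huK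
    · rw [QuotientGroup.eq]
      have : (g * u⁻¹)⁻¹ * g = u := by group
      rw [this]
      exact hu
  rw [e]
  exact h2

end Pool.Agent.Lib_bac815
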