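import Mathlib

set_option autoImplicit false

namespace Pool.Agent.Lib_bac815

open Matrix
open scoped Matrix.Norms.L2Operator

/-- Real `3 × 3` matrices. -/
abbrev M3 : Type := Matrix (Fin 3) (Fin 3) ℝ

theorem le_of_pow_two_pow {s f C : ℝ} (hf : 0 ≤ f)
    (h : ∀ n : ℕ, s ^ (2 ^ n) ≤ C * f ^ (2 ^ n)) : s ≤ f := by
  by_contra hlt
  push Not at hlt
  rcases hf.eq_or_lt with h0 | h0
  · have := h 0
    rw [← h0] at this hlt
    simp at this
    linarith
  · have hρ : 1 < s / f := by rwa [one_lt_div h0]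
    obtain ⟨n, hn⟩ := pow_unbounded_of_one_lt C hρ
    have h1 : (s / f) ^ n ≤ (s / f) ^ (2 ^ n) :=
      pow_le_pow_right₀ hρ.le (Nat.lt_two_pow_self).le
    have h2 : (s / f) ^ (2 ^ n) ≤ C := by
      rw [div_pow, div_le_iff₀ (pow_pos h0 _)]
      exact h n
    linarith

/-- `U` is orthogonal. -/
def Orth (U : M3) : Prop := Uᵀ * U = 1

theorem Orth.mul_transpose {U : M3} (h : Orth U) : U * Uᵀ = 1 :=
  mul_eq_one_comm.mp h

theorem Orth.transpose {U : M3} (h : Orth U) : Orth Uᵀ := by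
  unfold Orth
  rw [transpose_transpose]
  exact h.mul_transpose

theorem Orth.one : Orth 1 := by simp [Orth]

theorem Orth.mul {U V : M3} (hU : Orth U) (hV : Orth V) : Orth (U * V) := by
  unfold Orth at *
  rw [transpose_mul, Matrix.mul_assoc, ← Matrix.mul_assoc Uᵀ, hU, Matrix.one_mul, hV]

theorem norm_transpose (A : M3) : ‖Aᵀ‖ = ‖A‖ := by
  rw [← conjTranspose_eq_transpose_of_trivial]
  exact l2_opNorm_conjTranspose A

theorem norm_mul_le' (A B : M3) : ‖A * B‖ ≤ ‖A‖ * ‖B‖ := l2_opNorm_mul A B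

theorem norm_pow_succ_le (A : M3) (n : ℕ) : ‖A ^ (n + 1)‖ ≤ ‖A‖ ^ (n + 1) := by
  induction n with
  | zero => simp
  | succ n ih =>
    rw [pow_succ, pow_succ ‖A‖]
    exact (norm_mul_le' _ _).trans (mul_le_mul_of_nonneg_right ih (norm_nonneg _))

theorem norm_transpose_mul_self (A : M3) : ‖Aᵀ * A‖ = ‖A‖ ^ 2 := by
  rw [← conjTranspose_eq_transpose_of_trivial, sq]
  exact l2_opNorm_conjTranspose_mul_self A

theorem Orth.norm_mul {U : M3} (h : Orth U) (A : M3) : ‖U * A‖ = ‖A‖ := by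
  have h1 : ‖U * A‖ ^ 2 = ‖A‖ ^ 2 := by
    rw [← norm_transpose_mul_self, ← norm_transpose_mul_self, transpose_mul, Matrix.mul_assoc,
      ← Matrix.mul_assoc Uᵀ, h, Matrix.one_mul]
  exact (sq_eq_sq₀ (norm_nonneg _) (norm_nonneg _)).mp h1

theorem Orth.norm_mul' {U : M3} (h : Orth U) (A : M3) : ‖A * U‖ = ‖A‖ := by
  rw [← norm_transpose, transpose_mul, h.transpose.norm_mul, norm_transpose]

/-- The symmetric positive matrix `exp (U diag(y) Uᵀ)`. -/
noncomputable def E (U : M3) (y : Fin 3 → ℝ) : M3 :=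
  U * diagonal (fun i => Real.exp (y i)) * Uᵀ

/-- The symmetric matrix `U diag(y) Uᵀ`. -/
def S (U : M3) (y : Fin 3 → ℝ) : M3 := U * diagonal y * Uᵀ

theorem E_mul {U : M3} (h : Orth U) (y z : Fin 3 → ℝ) : E U y * E U z = E U (y + z) := by
  unfold E
  have : U * diagonal (fun i => Real.exp (y i)) * Uᵀ * (U * diagonal (fun i => Real.exp (z i)) * Uᵀ)
      = U * (diagonal (fun i => Real.exp (y i)) * (Uᵀ * U) * diagonal (fun i => Real.exp (z i))) * Uᵀ := by
    simp only [Matrix.mul_assoc]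
  rw [this, h, Matrix.mul_one, diagonal_mul_diagonal]
  congr 3
  funext i
  rw [Pi.add_apply, Real.exp_add]

theorem E_zero {U : M3} (h : Orth U) : E U 0 = 1 := by
  unfold E
  simp [h.mul_transpose]

theorem E_transpose (U : M3) (y : Fin 3 → ℝ) : (E U y)ᵀ = E U y := by
  unfold E
  rw [transpose_mul, transpose_mul, transpose_transpose, diagonal_transpose, Matrix.mul_assoc]

theorem E_mul_neg {U : M3} (h : Orth U) (y : Fin 3 → ℝ) : E U y * E U (-y) = 1 := by
  rw [E_mul h, add_neg_cancel, E_zero h]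

theorem E_neg_mul {U : M3} (h : Orth U) (y : Fin 3 → ℝ) : E U (-y) * E U y = 1 := by
  rw [E_mul h, neg_add_cancel, E_zero h]

theorem norm_E {U : M3} (h : Orth U) (y : Fin 3 → ℝ) : ‖E U y‖ = ‖fun i => Real.exp (y i)‖ := by
  unfold E
  rw [h.transpose.norm_mul', h.norm_mul, l2_opNorm_diagonal]

/-- Cordes type inequality. -/
theorem cordes {U V : M3} (hU : Orth U) (hV : Orth V) (y x : Fin 3 → ℝ) :
    ‖E U y * E V (-x)‖ ^ 2 ≤ ‖E U (y + y) * E V (-x + -x)‖ := by
  have key : ‖E V (-x) * E U (y + y) * E V (-x)‖ ≤ ‖E U (y + y) * E V (-x + -x)‖ := by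
    set c := E V (-x) with hc
    set ci := E V x with hci
    have hcci : c * ci = 1 := E_neg_mul hV x
    have hcic : ci * c = 1 := E_mul_neg hV x
    set r := E U (y + y) with hr
    have hcc : E V (-x + -x) = c * c := (E_mul hV _ _).symm
    have e1 : c * r * c = ci * (c * c * r) * c := by
      have : ci * (c * c * r) * c = (ci * c) * c * r * c := by simp only [Matrix.mul_assoc]
      rw [this, hcic, Matrix.one_mul]
    have hpow : ∀ N : ℕ, (c * r * c) ^ N = ci * (c * c * r) ^ N * c := by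
      intro N
      induction N with
      | zero => simp [hcic]
      | succ N ih =>
        rw [pow_succ, ih, e1, pow_succ]
        have : ci * (c * c * r) ^ N * c * (ci * (c * c * r) * c)
          = ci * (c * c * r) ^ N * (c * ci) * (c * c * r) * c := by simp only [Matrix.mul_assoc]
        rw [this, hcci, Matrix.mul_one]
        simp only [Matrix.mul_assoc]
    have hsym : (c * r * c)ᵀ = c * r * c := by
      rw [transpose_mul, transpose_mul, hc, hr, E_transpose, E_transpose, Matrix.mul_assoc]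
    have hn2 : ∀ n : ℕ, ‖(c * r * c) ^ (2 ^ n)‖ = ‖c * r * c‖ ^ (2 ^ n) := by
      intro n
      induction n with
      | zero => simp
      | succ n ih =>
        have h1 : (c * r * c) ^ (2 ^ (n + 1)) = ((c * r * c) ^ (2 ^ n))ᵀ * (c * r * c) ^ (2 ^ n) := by
          rw [transpose_pow, hsym, ← pow_add]
          congr 1
          ring
        rw [h1, norm_transpose_mul_self, ih, ← pow_mul]
        congr 1
    have h3 : ‖c * c * r‖ = ‖r * E V (-x + -x)‖ := by
      rw [← norm_transpose, transpose_mul, transpose_mul, hc, hr, E_transpose, E_transpose,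
        E_mul hV]
    rw [← h3]
    apply le_of_pow_two_pow (C := ‖ci‖ * ‖c‖) (norm_nonneg _)
    intro n
    rw [← hn2, hpow]
    have hp : ‖(c * c * r) ^ (2 ^ n)‖ ≤ ‖c * c * r‖ ^ (2 ^ n) := by
      obtain ⟨k, hk⟩ : ∃ k, 2 ^ n = k + 1 := ⟨2 ^ n - 1, by have := Nat.one_le_two_pow (n := n); omega⟩
      rw [hk]
      exact norm_pow_succ_le _ _
    have h4 := norm_mul_le' (ci * (c * c * r) ^ (2 ^ n)) c
    have h5 := norm_mul_le' ci ((c * c * r) ^ (2 ^ n))
    have h6 : ‖ci‖ * ‖(c * c * r) ^ (2 ^ n)‖ ≤ ‖ci‖ * ‖c * c * r‖ ^ (2 ^ n) :=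
      mul_le_mul_of_nonneg_left hp (norm_nonneg _)
    have h7 := mul_le_mul_of_nonneg_right (h5.trans h6) (norm_nonneg c)
    calc _ ≤ _ := h4
      _ ≤ _ := h7
      _ = _ := by ring
  rw [← norm_transpose_mul_self, transpose_mul, E_transpose, E_transpose]
  have : E V (-x) * E U y * (E U y * E V (-x)) = E V (-x) * E U (y + y) * E V (-x) := by
    rw [← E_mul hU]
    simp only [Matrix.mul_assoc]
  rw [this]
  exact key

theorem cordes_iter {U V : M3} (hU : Orth U) (hV : Orth V) (y x : Fin 3 → ℝ) (n : ℕ) :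
    ‖E U (((1 : ℝ) / 2 ^ n) • y) * E V (-(((1 : ℝ) / 2 ^ n) • x))‖ ^ (2 ^ n) ≤ ‖E U y * E V (-x)‖ := by
  induction n with
  | zero => simp
  | succ n ih =>
    refine le_trans ?_ ih
    have h := cordes hU hV (((1 : ℝ) / 2 ^ (n + 1)) • y) (((1 : ℝ) / 2 ^ (n + 1)) • x)
    have e1 : ∀ z : Fin 3 → ℝ, ((1 : ℝ) / 2 ^ (n + 1)) • z + ((1 : ℝ) / 2 ^ (n + 1)) • z
        = ((1 : ℝ) / 2 ^ n) • z := by
      intro z
      rw [← add_smul]
      congr 1
      rw [pow_succ]
      field_simp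
      norm_num
    rw [e1, ← neg_add, e1] at h
    have e2 : (2 : ℕ) ^ (n + 1) = 2 * 2 ^ n := by ring
    rw [e2, pow_mul]
    exact pow_le_pow_left₀ (sq_nonneg _) h _

theorem dot_mulVec_le (A : M3) (v : Fin 3 → ℝ) (hv : v ⬝ᵥ v = 1) : v ⬝ᵥ (A *ᵥ v) ≤ ‖A‖ := by
  have h1 := inner_toEuclideanCLM A (WithLp.toLp 2 v) (WithLp.toLp 2 v)
  have hn : ‖(WithLp.toLp 2 v : EuclideanSpace ℝ (Fin 3))‖ = 1 := by
    rw [EuclideanSpace.norm_eq]
    have : ∑ i, ‖(WithLp.toLp 2 v : EuclideanSpace ℝ (Fin 3)) i‖ ^ 2 = 1 := by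
      rw [← hv]
      simp [dotProduct, sq]
    rw [this, Real.sqrt_one]
  have h2 : v ⬝ᵥ (A *ᵥ v) = inner ℝ (WithLp.toLp 2 v : EuclideanSpace ℝ (Fin 3))
      (toEuclideanCLM (𝕜 := ℝ) A (WithLp.toLp 2 v)) := by
    rw [h1]
  rw [h2]
  calc _ ≤ ‖(WithLp.toLp 2 v : EuclideanSpace ℝ (Fin 3))‖ * ‖toEuclideanCLM (𝕜 := ℝ) A (WithLp.toLp 2 v)‖ :=
        real_inner_le_norm _ _
    _ ≤ 1 * (‖toEuclideanCLM (n := Fin 3) (𝕜 := ℝ) A‖ * 1) := by
        rw [hn]
        gcongr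
        have := (toEuclideanCLM (n := Fin 3) (𝕜 := ℝ) A).le_opNorm (WithLp.toLp 2 v)
        rwa [hn] at this
    _ = ‖A‖ := by rw [l2_opNorm_toEuclideanCLM]; ring

end Pool.Agent.Lib_bac815
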