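import Pool.Agent.Lib_bac815.Geom

set_option autoImplicit false

namespace Pool.Agent.Lib_bac815

open Matrix
open scoped Matrix.Norms.L2Operator

theorem log_norm_exp (x : Fin 3 → ℝ) :
    (∀ i, x i ≤ Real.log ‖fun i => Real.exp (x i)‖) ∧
      ∃ i, Real.log ‖fun i => Real.exp (x i)‖ = x i := by
  obtain ⟨i, hi⟩ := Finite.exists_max x
  have h : ‖fun i => Real.exp (x i)‖ = Real.exp (x i) := by
    apply le_antisymm
    · rw [pi_norm_le_iff_of_nonneg (Real.exp_pos _).le]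
      intro j
      rw [Real.norm_eq_abs, abs_of_pos (Real.exp_pos _)]
      exact Real.exp_le_exp.mpr (hi j)
    · have := norm_le_pi_norm (fun i => Real.exp (x i)) i
      rwa [Real.norm_eq_abs, abs_of_pos (Real.exp_pos _)] at this
  rw [h, Real.log_exp]
  exact ⟨hi, i, rfl⟩

/-- the underlying matrix -/
def mat (g : G) : M3 := g.1

theorem mat_mul (g h : G) : mat (g * h) = mat g * mat h := rfl

theorem mat_one : mat 1 = 1 := rfl

theorem mat_det (g : G) : (mat g).det = 1 := g.2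

theorem mat_injective : Function.Injective mat := Subtype.val_injective

/-- logarithm of the operator norm -/
noncomputable def nl (g : G) : ℝ := Real.log ‖mat g‖

/-- the length function of `SL₃(ℝ)`. -/
noncomputable def nu (g : G) : ℝ := Real.sqrt (Q (nl g) (nl g⁻¹))

theorem coe_inv_mul (g : G) : mat g⁻¹ * mat g = 1 := by
  rw [← mat_mul, inv_mul_cancel, mat_one]

theorem coe_mul_inv (g : G) : mat g * mat g⁻¹ = 1 := by
  rw [← mat_mul, mul_inv_cancel, mat_one]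

theorem coe_inv_eq (g : G) (A : M3) (h : A * mat g = 1) : mat g⁻¹ = A := by
  calc mat g⁻¹ = A * mat g * mat g⁻¹ := by rw [h, Matrix.one_mul]
    _ = A := by rw [Matrix.mul_assoc, coe_mul_inv, Matrix.mul_one]

theorem norm_pos (g : G) : 0 < ‖mat g‖ := by
  rw [norm_pos_iff]
  intro h
  have := mat_det g
  rw [h] at this
  simp at this

theorem diag_eq_E (x : Fin 3 → ℝ) : diagonal (fun i => Real.exp (x i)) = E 1 x := by
  unfold E; simp

theorem svd_inv (g : G) (k₁ k₂ : M3) (x : Fin 3 → ℝ) (h1 : Orth k₁) (h2 : Orth k₂)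
    (hg : mat g = k₁ * E 1 x * k₂) : mat g⁻¹ = k₂ᵀ * E 1 (-x) * k₁ᵀ := by
  apply coe_inv_eq
  rw [hg]
  have : k₂ᵀ * E 1 (-x) * k₁ᵀ * (k₁ * E 1 x * k₂) = k₂ᵀ * (E 1 (-x) * (k₁ᵀ * k₁) * E 1 x) * k₂ := by
    simp only [Matrix.mul_assoc]
  rw [this, h1, Matrix.mul_one, E_neg_mul Orth.one, Matrix.mul_one, h2]

theorem svd_nl (g : G) (k₁ k₂ : M3) (x : Fin 3 → ℝ) (h1 : Orth k₁) (h2 : Orth k₂)
    (hg : mat g = k₁ * E 1 x * k₂) :
    nl g = Real.log ‖fun i => Real.exp (x i)‖ ∧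
      nl g⁻¹ = Real.log ‖fun i => Real.exp (-x i)‖ := by
  unfold nl
  constructor
  · rw [hg, h2.norm_mul', h1.norm_mul, norm_E Orth.one]
  · rw [svd_inv g k₁ k₂ x h1 h2 hg, h1.transpose.norm_mul', h2.transpose.norm_mul, norm_E Orth.one]
    rfl

theorem exists_svd' (g : G) :
    ∃ (k₁ k₂ : M3) (x : Fin 3 → ℝ), Orth k₁ ∧ Orth k₂ ∧ k₁.det = 1 ∧ ∑ i, x i = 0 ∧
      mat g = k₁ * E 1 x * k₂ := by
  obtain ⟨k₁, k₂, x, h1, h2, h3, h4, h5⟩ := exists_svd (mat g) (mat_det g)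
  exact ⟨k₁, k₂, x, h1, h2, h3, h4, by rw [h5, diag_eq_E]⟩

theorem nu_sq_of_svd (g : G) (k₁ k₂ : M3) (x : Fin 3 → ℝ) (h1 : Orth k₁) (h2 : Orth k₂)
    (hx : ∑ i, x i = 0) (hg : mat g = k₁ * E 1 x * k₂) : nu g ^ 2 = ∑ i, x i ^ 2 := by
  obtain ⟨ha, hb⟩ := svd_nl g k₁ k₂ x h1 h2 hg
  unfold nu
  rw [Real.sq_sqrt (Q_nonneg _ _)]
  obtain ⟨e1, e2⟩ := log_norm_exp x
  obtain ⟨e3, e4⟩ := log_norm_exp (fun i => -x i)
  rw [ha, hb]
  exact Q_eq x hx _ _ e1 e3 e2 e4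

theorem nl_cone (g : G) : nl g ≤ 2 * nl g⁻¹ := by
  obtain ⟨k₁, k₂, x, h1, h2, -, hx, hg⟩ := exists_svd' g
  obtain ⟨ha, hb⟩ := svd_nl g k₁ k₂ x h1 h2 hg
  rw [ha, hb]
  obtain ⟨e1, e2⟩ := log_norm_exp x
  obtain ⟨e3, e4⟩ := log_norm_exp (fun i => -x i)
  exact cone_of x hx _ _ e3 e2

theorem nl_cone' (g : G) : nl g⁻¹ ≤ 2 * nl g := by
  have := nl_cone g⁻¹
  rwa [inv_inv] at this

theorem nl_nonneg (g : G) : 0 ≤ nl g := by
  have h1 := nl_cone g
  have h2 := nl_cone' g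
  linarith

theorem nl_mul (g h : G) : nl (g * h) ≤ nl g + nl h := by
  unfold nl
  rw [← Real.log_mul (norm_pos g).ne' (norm_pos h).ne']
  apply Real.log_le_log (norm_pos _)
  rw [mat_mul]
  exact norm_mul_le' _ _

theorem nu_nonneg (g : G) : 0 ≤ nu g := Real.sqrt_nonneg _

theorem nu_inv (g : G) : nu g⁻¹ = nu g := by
  unfold nu
  rw [inv_inv, Q_comm]

theorem nl_one : nl 1 = 0 := by
  unfold nl
  have h : ‖(1 : M3)‖ = 1 := by
    rw [← diagonal_one, l2_opNorm_diagonal]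
    simp
  rw [mat_one, h, Real.log_one]

theorem nu_one : nu 1 = 0 := by
  unfold nu
  rw [inv_one, nl_one]
  simp [Q]

theorem nu_mul (g h : G) : nu (g * h) ≤ nu g + nu h := by
  unfold nu
  rw [_root_.mul_inv_rev]
  refine le_trans ?_ (sqrt_Q_add _ _ _ _)
  apply Real.sqrt_le_sqrt
  apply Q_mono
  · have := nl_cone (g * h); rwa [_root_.mul_inv_rev] at this
  · have := nl_cone' (g * h); rwa [_root_.mul_inv_rev] at this
  · exact nl_mul g h
  · have := nl_mul h⁻¹ g⁻¹; linarith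

theorem nl_le_nu (g : G) : nl g ≤ nu g := by
  unfold nu
  apply Real.le_sqrt_of_sq_le
  unfold Q
  nlinarith [sq_nonneg (nl g - 2 * nl g⁻¹), sq_nonneg (nl g)]

/-- Frobenius norm squared -/
def frob (A : M3) : ℝ := ∑ i, ∑ j, A i j ^ 2

theorem frob_eq (A : M3) : frob A = trace (Aᵀ * A) := by
  unfold frob trace
  rw [Finset.sum_comm]
  apply Finset.sum_congr rfl
  intro i _
  rw [diag_apply, mul_apply]
  apply Finset.sum_congr rfl
  intro j _
  rw [transpose_apply, sq]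

theorem S_transpose (U : M3) (l : Fin 3 → ℝ) : (S U l)ᵀ = S U l := by
  unfold S
  rw [transpose_mul, transpose_mul, transpose_transpose, diagonal_transpose, Matrix.mul_assoc]

theorem frob_S {U : M3} (hU : Orth U) (l : Fin 3 → ℝ) : frob (S U l) = ∑ i, l i ^ 2 := by
  rw [frob_eq, S_transpose]
  unfold S
  have : U * diagonal l * Uᵀ * (U * diagonal l * Uᵀ) = U * (diagonal l * (Uᵀ * U) * diagonal l * Uᵀ) := by
    simp only [Matrix.mul_assoc]
  rw [this, trace_mul_comm, hU, Matrix.mul_one, Matrix.mul_assoc, hU, Matrix.mul_one,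
    diagonal_mul_diagonal, trace_diagonal]
  apply Finset.sum_congr rfl
  intro i _
  rw [sq]

theorem trace_S {U : M3} (hU : Orth U) (l : Fin 3 → ℝ) : trace (S U l) = ∑ i, l i := by
  unfold S
  rw [Matrix.mul_assoc, trace_mul_comm, Matrix.mul_assoc, hU, Matrix.mul_one, trace_diagonal]

theorem unit_vec {W : M3} (hW : Orth W) (l : Fin 3 → ℝ) (i : Fin 3) :
    (fun k => W k i) ⬝ᵥ (fun k => W k i) = 1 ∧
      (fun k => W k i) ⬝ᵥ (S W l *ᵥ (fun k => W k i)) = l i := by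
  constructor
  · have : (Wᵀ * W) i i = 1 := by rw [hW, one_apply_eq]
    rw [mul_apply] at this
    exact this
  · have h1 : Wᵀ * S W l * W = diagonal l := by
      unfold S
      have : Wᵀ * (W * diagonal l * Wᵀ) * W = (Wᵀ * W) * diagonal l * (Wᵀ * W) := by
        simp only [Matrix.mul_assoc]
      rw [this, hW, Matrix.one_mul, Matrix.mul_one]
    have h2 : (Wᵀ * S W l * W) i i = l i := by rw [h1, diagonal_apply_eq]
    rw [Matrix.mul_assoc, mul_apply] at h2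
    exact h2

theorem frob_le_of (w : G) (V : M3) (y x : Fin 3 → ℝ) (hV : Orth V)
    (hy : ∑ i, y i = 0) (hx : ∑ i, x i = 0)
    (h1 : nl w = Real.log ‖E V y * E 1 (-x)‖) (h2 : nl w⁻¹ = Real.log ‖E 1 x * E V (-y)‖) :
    frob (S V y - S 1 x) ≤ nu w ^ 2 := by
  obtain ⟨W, hW, l, hl⟩ := exists_diag (S V y - S 1 x) (by
    rw [transpose_sub, S_transpose, S_transpose])
  rw [hl, frob_S hW]
  unfold nu
  rw [Real.sq_sqrt (Q_nonneg _ _)]
  apply Q_ge
  · rw [← trace_S hW, ← hl, trace_sub, trace_S hV, trace_S Orth.one, hy, hx, sub_zero]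
  · intro i
    obtain ⟨u1, u2⟩ := unit_vec hW l i
    rw [h1, ← u2, ← hl]
    exact emi hV Orth.one y x _ u1
  · intro i
    obtain ⟨u1, u2⟩ := unit_vec hW l i
    rw [h2, ← u2, ← hl]
    have := emi Orth.one hV x y _ u1
    refine le_trans (le_of_eq ?_) this
    rw [sub_mulVec, sub_mulVec, dotProduct_sub, dotProduct_sub]
    ring

theorem nu_ge_frob (w c : G) (O V k : M3) (y x : Fin 3 → ℝ) (hO : Orth O) (hV : Orth V)
    (hk : Orth k) (hy : ∑ i, y i = 0) (hx : ∑ i, x i = 0)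
    (hw : mat w = O * E V y) (hc : mat c = E 1 (-x) * k) :
    frob (S V y - S 1 x) ≤ nu (w * c) ^ 2 := by
  apply frob_le_of (w * c) V y x hV hy hx
  · unfold nl
    rw [mat_mul, hw, hc]
    have : O * E V y * (E 1 (-x) * k) = O * ((E V y * E 1 (-x)) * k) := by
      simp only [Matrix.mul_assoc]
    rw [this, hO.norm_mul, hk.norm_mul']
  · unfold nl
    have h1 : mat (w * c)⁻¹ = kᵀ * ((E 1 x * E V (-y)) * Oᵀ) := by
      apply coe_inv_eq
      rw [mat_mul, hw, hc]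
      have : kᵀ * ((E 1 x * E V (-y)) * Oᵀ) * (O * E V y * (E 1 (-x) * k))
          = kᵀ * (E 1 x * (E V (-y) * (Oᵀ * O) * E V y) * E 1 (-x)) * k := by
        simp only [Matrix.mul_assoc]
      rw [this, hO, Matrix.mul_one, E_neg_mul hV, Matrix.mul_one, E_mul_neg Orth.one,
        Matrix.mul_one, hk]
    rw [h1, hk.transpose.norm_mul, hO.transpose.norm_mul']

theorem det_E {U : M3} (hU : Orth U) (x : Fin 3 → ℝ) (hx : ∑ i, x i = 0) : (E U x).det = 1 := by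
  unfold E
  rw [det_mul, det_mul, mul_right_comm, ← det_mul, hU.mul_transpose, det_one, one_mul, det_diagonal,
    ← Real.exp_sum, hx, Real.exp_zero]

theorem smul_sum_zero (t : ℝ) (x : Fin 3 → ℝ) (hx : ∑ i, x i = 0) : ∑ i, (t • x) i = 0 := by
  simp only [Pi.smul_apply, smul_eq_mul]
  rw [← Finset.mul_sum, hx, mul_zero]

theorem S_one_smul (t : ℝ) (x : Fin 3 → ℝ) : S 1 (t • x) = t • S 1 x := by
  unfold S
  simp [diagonal_smul]

/-- The symmetric space of `SL₃(ℝ)` is CAT(0). -/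
theorem cat0 (g h : G) (t : ℝ) (ht0 : 0 ≤ t) (ht1 : t ≤ 1) :
    ∃ p : G, ∀ z : G, nu (z⁻¹ * p) ^ 2 ≤
      (1 - t) * nu (z⁻¹ * g) ^ 2 + t * nu (z⁻¹ * h) ^ 2 - t * (1 - t) * nu (g⁻¹ * h) ^ 2 := by
  obtain ⟨k₁, k₂, x, h1, h2, h3, hx, hgh⟩ := exists_svd' (g⁻¹ * h)
  let κ : G := ⟨k₁, h3⟩
  let D : G := ⟨E 1 (t • x), det_E Orth.one _ (smul_sum_zero t x hx)⟩
  refine ⟨g * κ * D, ?_⟩
  intro z
  set w : G := z⁻¹ * (g * κ * D) with hw
  obtain ⟨l₁, l₂, y, m1, m2, -, hy, hwy⟩ := exists_svd' w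
  have hwO : mat w = (l₁ * l₂) * E l₂ᵀ y := by
    rw [hwy]
    unfold E
    rw [transpose_transpose, transpose_one]
    have : l₁ * l₂ * (l₂ᵀ * (diagonal fun i => Real.exp (y i)) * l₂)
        = l₁ * (l₂ * l₂ᵀ) * (diagonal fun i => Real.exp (y i)) * l₂ := by
      simp only [Matrix.mul_assoc]
    rw [this, m2.mul_transpose, Matrix.mul_one, Matrix.one_mul, Matrix.mul_one]
  have hO : Orth (l₁ * l₂) := m1.mul m2
  have e1 : z⁻¹ * g = w * (κ * D)⁻¹ := by rw [hw]; group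
  have e2 : z⁻¹ * h = w * ((κ * D)⁻¹ * (g⁻¹ * h)) := by rw [hw]; group
  have c1 : mat (κ * D)⁻¹ = E 1 (-(t • x)) * k₁ᵀ := by
    apply coe_inv_eq
    rw [mat_mul]
    show E 1 (-(t • x)) * k₁ᵀ * (k₁ * E 1 (t • x)) = 1
    have : E 1 (-(t • x)) * k₁ᵀ * (k₁ * E 1 (t • x)) = E 1 (-(t • x)) * (k₁ᵀ * k₁) * E 1 (t • x) := by
      simp only [Matrix.mul_assoc]
    rw [this, h1, Matrix.mul_one, E_neg_mul Orth.one]
  have c2 : mat ((κ * D)⁻¹ * (g⁻¹ * h)) = E 1 (-(-((1 - t) • x))) * k₂ := by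
    rw [mat_mul, c1, hgh]
    have : E 1 (-(t • x)) * k₁ᵀ * (k₁ * E 1 x * k₂) = E 1 (-(t • x)) * (k₁ᵀ * k₁) * E 1 x * k₂ := by
      simp only [Matrix.mul_assoc]
    rw [this, h1, Matrix.mul_one, E_mul Orth.one]
    congr 2
    funext i
    simp only [Pi.add_apply, Pi.neg_apply, Pi.smul_apply, smul_eq_mul]
    ring
  have hneg : ∑ i, (-((1 - t) • x)) i = 0 := by
    simp only [Pi.neg_apply, Finset.sum_neg_distrib]
    rw [smul_sum_zero _ x hx, neg_zero]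
  have i1 := nu_ge_frob w _ (l₁ * l₂) l₂ᵀ k₁ᵀ y (t • x) hO m2.transpose h1.transpose hy
    (smul_sum_zero t x hx) hwO c1
  have i2 := nu_ge_frob w _ (l₁ * l₂) l₂ᵀ k₂ y (-((1 - t) • x)) hO m2.transpose h2 hy
    hneg hwO c2
  rw [← e1] at i1
  rw [← e2] at i2
  have i3 : nu w ^ 2 = frob (S l₂ᵀ y) := by
    rw [frob_S m2.transpose]
    exact nu_sq_of_svd w l₁ l₂ y m1 m2 hy hwy
  have i4 : nu (g⁻¹ * h) ^ 2 = frob (S 1 x) := by
    rw [frob_S Orth.one]
    exact nu_sq_of_svd _ k₁ k₂ x h1 h2 hx hgh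
  have hid : (1 - t) * frob (S l₂ᵀ y - S 1 (t • x)) + t * frob (S l₂ᵀ y - S 1 (-((1 - t) • x)))
      = frob (S l₂ᵀ y) + t * (1 - t) * frob (S 1 x) := by
    have hn : S 1 (-((1 - t) • x)) = (-(1 - t)) • S 1 x := by
      rw [← S_one_smul, neg_smul]
    rw [S_one_smul, hn]
    unfold frob
    simp only [Finset.mul_sum, ← Finset.sum_add_distrib]
    apply Finset.sum_congr rfl
    intro i _
    apply Finset.sum_congr rfl
    intro j _
    simp only [Matrix.sub_apply, Matrix.smul_apply, smul_eq_mul]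
    ring
  rw [i3, i4]
  have j1 := mul_le_mul_of_nonneg_left i1 (by linarith : 0 ≤ 1 - t)
  have j2 := mul_le_mul_of_nonneg_left i2 ht0
  linarith

end Pool.Agent.Lib_bac815
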